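import Mathlib

/-!
# Project SX: auxiliary lemmas on series

The lemmas and their proofs are taken from `Pool/Agent/Q269/GL/Fin.lean` and `Pool/Agent/Q283/T3/Wk.lean`; they are repeated here so
that the files of project SX do not import the arithmetic of the elliptic curves.
-/

set_option autoImplicit false
set_option linter.all false

open Finset Filter

namespace Pool.Agent.Q269.SX.Lv

theorem fil_card {α : Type} (s : Finset α) (p q : α → Prop) (i : DecidablePred p) (j : DecidablePred q)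
    (h : ∀ x, p x ↔ q x) : (@Finset.filter α p i s).card = (@Finset.filter α q j s).card := by
  congr 1
  ext x
  rw [mem_filter, mem_filter, h x]

theorem fcc {α : Type} {s : Finset α} {p q : α → Prop} {i1 : DecidablePred p}
    {i2 : DecidablePred q} (h : ∀ x ∈ s, (p x ↔ q x)) :
    (@Finset.filter α p i1 s).card = (@Finset.filter α q i2 s).card := by
  congr 1
  ext x
  rw [Finset.mem_filter, Finset.mem_filter]
  exact and_congr_right fun hx => h x hx

theorem hasSum_step {M : ℕ} (f : ℕ → ℝ) (h : (Fin M → ℕ) → ℝ) (a b : ℝ) (hf : HasSum f a) (hh : HasSum h b)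
    (h1 : ∀ x, 0 ≤ f x) (h2 : ∀ x, 0 ≤ h x) :
    HasSum (fun p : ℕ × (Fin M → ℕ) => f p.1 * h p.2) (a * b) := by
  have e1 := hf.summable
  have e2 := hh.summable
  have e3 : Summable (fun p : ℕ × (Fin M → ℕ) => f p.1 * h p.2) := e1.mul_of_nonneg e2 h1 h2
  exact hf.mul hh e3

theorem prod_pos {M : ℕ} (g : Fin M → ℕ → ℝ) (h0 : ∀ k r, 0 ≤ g k r) (r : Fin M → ℕ) :
    0 ≤ ∏ k, g k (r k) := by
  apply prod_nonneg
  intro k _
  exact h0 k (r k)

theorem hasSum_pi {M : ℕ} : ∀ (g : Fin M → ℕ → ℝ) (s : Fin M → ℝ), (∀ k r, 0 ≤ g k r) →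
    (∀ k, HasSum (g k) (s k)) → HasSum (fun r : Fin M → ℕ => ∏ k, g k (r k)) (∏ k, s k) := by
  induction M with
  | zero =>
    intro g s _ _
    have h := hasSum_unique (fun r : Fin 0 → ℕ => ∏ k, g k (r k))
    simp
  | succ M ihM =>
    intro g s h0 hs
    obtain ⟨g', hg'⟩ : ∃ g' : Fin M → ℕ → ℝ, g' = fun k => g k.succ := ⟨_, rfl⟩
    obtain ⟨s', hs'⟩ : ∃ s' : Fin M → ℝ, s' = fun k => s k.succ := ⟨_, rfl⟩
    have ih := ihM g' s' (by rw [hg']; exact fun k => h0 k.succ) (by rw [hg', hs']; exact fun k => hs k.succ)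
    have hp : ∀ r : Fin M → ℕ, 0 ≤ ∏ k, g' k (r k) :=
      fun r => prod_pos g' (by rw [hg']; exact fun k => h0 k.succ) r
    have h1 := hasSum_step (g 0) (fun r : Fin M → ℕ => ∏ k, g' k (r k)) (s 0) (∏ k, s' k) (hs 0) ih (h0 0) hp
    rw [hg', hs'] at h1
    rw [Fin.prod_univ_succ]
    rw [← (Fin.consEquiv (fun _ : Fin (M + 1) => ℕ)).hasSum_iff]
    refine h1.congr_fun ?_
    intro p
    show ∏ k, g k (Fin.cons (α := fun _ => ℕ) p.1 p.2 k) = _
    rw [Fin.prod_univ_succ]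
    simp

theorem hasSum_fin {κ : Type} [Fintype κ] (g : κ → ℕ → ℝ) (h0 : ∀ c r, 0 ≤ g c r)
    (hs : ∀ c, HasSum (g c) 1) : HasSum (fun t : κ → ℕ => ∏ c, g c (t c)) 1 := by
  have e := Fintype.equivFin κ
  have h := hasSum_pi (fun i => g (e.symm i)) (fun _ => 1) (fun _ _ => h0 _ _) (fun _ => hs _)
  rw [prod_const_one] at h
  rw [← (Equiv.arrowCongr e (Equiv.refl ℕ)).symm.hasSum_iff]
  refine h.congr_fun fun t => ?_
  show ∏ c, g c (t (e c)) = ∏ i, g (e.symm i) (t i)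
  rw [← e.symm.prod_comp]
  simp

theorem hasSum_pair {κ : Type} [Fintype κ] (f : ℕ → ℝ) (hf0 : ∀ r, 0 ≤ f r) (hf : HasSum f 1)
    (g : κ → ℕ → ℝ) (h0 : ∀ c r, 0 ≤ g c r) (hs : ∀ c, HasSum (g c) 1) :
    HasSum (fun x : ℕ × (κ → ℕ) => f x.1 * ∏ c, g c (x.2 c)) 1 := by
  have g1 := hasSum_fin g h0 hs
  have h2 : ∀ t : κ → ℕ, 0 ≤ ∏ c, g c (t c) := fun t => prod_nonneg fun c _ => h0 _ _
  have g2 := hf.mul g1 (hf.summable.mul_of_nonneg g1.summable hf0 h2)
  rwa [mul_one] at g2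

end Pool.Agent.Q269.SX.Lv
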