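import Pool.Agent.Q269.GL.StC
import Pool.Agent.Q92.GL.Num
import Pool.Agent.Q283.FS.Lw
import Pool.Agent.Y948.CQ.C2
import Pool.Agent.Q269.SX.Lv

/-!
# Project SX: auxiliary lemmas on the laws of the new parts

The lemmas and their proofs are taken from `Pool/Agent/Q269/GL/Fin.lean` and, for the tower of the powers of three, from
`Pool/Agent/Q92/GL/Nth.lean` (helper92); they are repeated here so that the files of project SX do not import the arithmetic
of the elliptic curves.
-/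

set_option autoImplicit false
set_option linter.all false

namespace Pool.Agent.Q269.SX.Lu

open Finset Filter
open Pool.Agent.Q269.GL (lawR lawU lawN rp S_ENL S_RPX S_CJD S_LWU S_LWN S_INF S_TPR PT Td Adt)
open Pool.Agent.Q269.GR (Un)
open Q283.FS (lw)

/-- the degrees `n` with `n + N` odd -/
def degs (N : ℕ) : Filter ℕ := atTop ⊓ principal {n | Odd (n + N)}

section

open scoped Classical

theorem lawR_pos (h1 : S_LWU) (h2 : S_LWN) {r : ℕ} (hr : Odd r) (hr1 : 1 < r) :
    (∀ j, 0 < lawR r j) ∧ HasSum (lawR r) 1 := by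
  have hr0 : NeZero r := ⟨by omega⟩
  have hf1 : 0 < orderOf (2 : ZMod r) := by
    rw [orderOf_pos_iff]
    have h3 : IsUnit ((2 : ℕ) : ZMod r) := (ZMod.isUnit_iff_coprime 2 r).2 (by
      rw [Nat.coprime_comm]
      exact (Nat.coprime_two_right).2 hr)
    have h4 := isOfFinOrder_of_finite h3.unit
    rw [← Units.isOfFinOrder_val, IsUnit.unit_spec, Nat.cast_ofNat] at h4
    exact h4
  have hf2 : orderOf (2 : ZMod r) ≠ 1 := by
    intro h
    rw [orderOf_eq_one_iff] at h
    have h3 : ((1 : ℕ) : ZMod r) = 0 := by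
      have : (2 : ZMod r) - 1 = 0 := by rw [h, sub_self]
      rw [Nat.cast_one]
      rw [← this]
      norm_num
    rw [ZMod.natCast_eq_zero_iff] at h3
    have := Nat.le_of_dvd one_pos h3
    omega
  unfold lawR
  split_ifs with hU
  · have h3 := h1 (2 ^ (orderOf (2 : ZMod r) / 2)) (one_lt_pow₀ one_lt_two (by omega))
    exact ⟨h3.1, h3.2.2⟩
  · have h3 := h2 (2 ^ orderOf (2 : ZMod r)) (one_lt_pow₀ one_lt_two (by omega))
    exact ⟨h3.1, h3.2.2⟩

end

/-- the powers of three -/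
def T3 : Set ℕ := {m | ∃ i : ℕ, m = 3 ^ i}

open Pool.Agent.Q92.GL

open scoped Classical in
theorem t_NTH (h1 : S_TPR) (h2 : S_RPX) (h3 : Pool.Agent.Q269.GJ.S_SMT) : 
    Adt T3 ∧ 0.211 < lw 0 * PT T3 ∧ lw 0 * PT T3 < 0.2113 := by
  have hAdt : Adt T3 := by
    obtain ⟨R, hR⟩ := h3 3
    refine ⟨?_, R, ?_⟩
    · rintro r ⟨i, rfl⟩
      exact Odd.pow (by decide)
    · rintro r ⟨i, rfl⟩ hr
      refine hR (3 ^ i) (Odd.pow (by decide)) (fun p hp hd => ?_) (3 ^ i) dvd_rfl hr
      exact Nat.le_of_dvd (by norm_num) (hp.dvd_of_dvd_pow hd)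
  have hUn : ∀ n, Un (3 ^ (n + 1)) := fun n => ⟨3 ^ n, dvd_two_pow n⟩
  have hone : ∀ n : ℕ, 1 < 3 ^ (n + 1) := fun n => one_lt_pow₀ (by norm_num) (by omega)
  have hrp : ∀ n, (rp (3 ^ (n + 1))).card = 1 := by
    intro n
    have h4 := h2.2.2.2 (3 ^ (n + 1)) (Odd.pow (by decide)) (hone n)
    rw [if_pos (hUn n), orderOf_two, totient_three_pow] at h4
    have h5 : 0 < 2 * 3 ^ n := by positivity
    exact Nat.eq_of_mul_eq_mul_right h5 (by rw [h4, one_mul])
  have hlaw : ∀ n, lawR (3 ^ (n + 1)) 0 = (gp (xq n))⁻¹ := by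
    intro n
    unfold lawR
    rw [if_pos (hUn n), orderOf_two, Nat.mul_div_cancel_left _ (by norm_num)]
    unfold lawU gp xq
    simp
  obtain ⟨-, hlim⟩ := h1 T3 hAdt
  have hlim2 : Tendsto (fun m => Rp m) atTop (nhds (PT T3)) := by
    have h4 := hlim.comp (tendsto_pow_atTop_atTop_of_one_lt (by norm_num : 1 < 3))
    refine h4.congr fun m => ?_
    have h5 : (range (3 ^ m + 1)).filter (Td T3) = (range m).image fun i => 3 ^ (i + 1) := by
      ext r
      rw [mem_filter, mem_range, mem_image]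
      constructor
      · rintro ⟨hr, ⟨i, rfl⟩, hi⟩
        have h6 : i ≠ 0 := by
          rintro rfl
          norm_num at hi
        have h7 : i ≤ m := (Nat.pow_le_pow_iff_right (by norm_num : 1 < 3)).mp (by omega)
        refine ⟨i - 1, by rw [mem_range]; omega, ?_⟩
        congr 1
        omega
      · rintro ⟨i, hi, rfl⟩
        rw [mem_range] at hi
        refine ⟨?_, ⟨i + 1, rfl⟩, hone i⟩
        have := Nat.pow_le_pow_right (by norm_num : 0 < 3) (show i + 1 ≤ m by omega)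
        omega
    show ∏ r ∈ (range (3 ^ m + 1)).filter (Td T3), lawR r 0 ^ (rp r).card = Rp m
    rw [h5, prod_image]
    · unfold Rp
      refine prod_congr rfl fun i _ => ?_
      rw [hrp, pow_one, hlaw]
    · intro i _ j _ hij
      have := Nat.pow_right_injective (le_refl 3 |>.trans' (by norm_num : 2 ≤ 3)) hij
      omega
  have hlim3 : Tendsto (fun m => Rp (3 + m)) atTop (nhds (PT T3)) := by
    refine (hlim2.comp (tendsto_add_atTop_nat 3)).congr fun m => ?_
    show Rp (m + 3) = Rp (3 + m)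
    rw [add_comm]
  have hlo : 0.5033 ≤ PT T3 := ge_of_tendsto' hlim3 fun m => (Rp_bds m).1.le
  have hhi : PT T3 ≤ 0.5036 := le_of_tendsto' hlim3 fun m => (Rp_bds m).2.le
  have hlw : lw 0 = Pool.Agent.Y703.CQ.c2 := by
    unfold lw
    simp [Pool.Agent.Y697.PQ.cf]
  obtain ⟨-, -, -, hc1, hc2⟩ := Pool.Agent.Y948.CQ.t_C2
  refine ⟨hAdt, ?_, ?_⟩
  · rw [hlw]
    nlinarith
  · rw [hlw]
    nlinarith

end Pool.Agent.Q269.SX.Lu
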