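import Pool.Agent.Q269.GJ.Asm
import Pool.Agent.Q68.GL.KUO
import Pool.Agent.Q68.GL.KUG
import Pool.Agent.Q68.GL.KUI
import Pool.Agent.Q68.GL.KUR
import Pool.Agent.Q68.GL.KLU
import Pool.Agent.Q68.GL.KLG
import Pool.Agent.Q210.GL.POW
import Pool.Agent.Q210.GL.BON
import Pool.Agent.Q210.GL.LMO
import Pool.Agent.Q210.GL.NMN
import Pool.Agent.Q166.GL.NMU
import Pool.Agent.Q150.GL.KLR
import Pool.Agent.Q299.GL.NIM
import Pool.Agent.Q299.GL.REF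
import Pool.Agent.Q299.GL.CNF
import Pool.Agent.Q261.GL.CLL
import Pool.Agent.Q224.GL.ENL
import Pool.Agent.Q299.GL.RPX
import Pool.Agent.Q224.GL.TPR
import Pool.Agent.Q224.GL.INF
import Pool.Agent.Q269.SX.Lu

/-!
# Project SX: assembly of the laws of project GL

The part of `Pool/Agent/Q269/GL/Asm.lean` which does not use the arithmetic of the elliptic curves; the module and the author of the
proof of each statement can be read off from this file.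
-/

set_option autoImplicit false

namespace Pool.Agent.Q269.SX.AsmG

open Pool.Agent.Q269.GL Pool.Agent.Q269.GR.Asm Pool.Agent.Q269.GJ.Asm

theorem c_KUO : S_KUO := Pool.Agent.Q68.GL.t_KUO
theorem c_KUG : S_KUG := Pool.Agent.Q68.GL.t_KUG
theorem c_KUI : S_KUI := Pool.Agent.Q68.GL.t_KUI
theorem c_KUR : S_KUR := Pool.Agent.Q68.GL.t_KUR
theorem c_KLU : S_KLU := Pool.Agent.Q68.GL.t_KLU c_KUO c_KUG c_KUI c_KUR
theorem c_KLG : S_KLG := Pool.Agent.Q68.GL.KLG.t_KLG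
theorem c_POW : S_POW := Pool.Agent.Q210.GL.t_POW
theorem c_BON : S_BON := Pool.Agent.Q210.GL.t_BON
theorem c_LMO : S_LMO := Pool.Agent.Q210.GL.t_LMO c_POW c_BON
theorem c_NMU : S_NMU := Pool.Agent.Q166.GL.t_NMU
theorem c_NMN : S_NMN := Pool.Agent.Q210.GL.t_NMN
theorem c_LWU : S_LWU := Pool.Agent.Q166.GL.t_LWU c_NMU
theorem c_LWN : S_LWN := Pool.Agent.Q166.GL.t_LWN c_NMN
theorem c_KLR : S_KLR := Pool.Agent.Q150.GL.t_KLR c_KLU c_KLG c_LMO c_LWU c_LWN b_SUR a_UNR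
theorem c_NIM : S_NIM := Pool.Agent.Q299.GL.t_NIM a_INJ a_UNR a_SYP a_IRC a_PRD
theorem c_REF : S_REF := Pool.Agent.Q299.GL.t_REF a_SYP a_UNR a_PRD
theorem c_CNF : S_CNF := Pool.Agent.Q299.GL.t_CNF a_SYP a_UNR a_PRD
theorem c_CLL : S_CLL :=
  Pool.Agent.Q261.GL.t_CLL a_TRF b_REA c_REF c_NIM c_KLR a_PRD a_XIR a_SYP a_UNR c_LWU c_LWN
theorem c_ENL : S_ENL :=
  Pool.Agent.Q224.GL.t_ENL c_CLL a_DEC a_TYA a_ERA b_GEN a_TNP a_PRD a_AVP c_LWU c_LWN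
theorem c_RPX : S_RPX := Pool.Agent.Q299.GL.t_RPX a_XIR
theorem c_CJD : S_CJD := Pool.Agent.Q299.GL.t_CJD c_CNF a_XIR a_UNR
theorem c_TPR : S_TPR := Pool.Agent.Q224.GL.t_TPR b_SMD a_ORD c_LWU c_LWN c_RPX
theorem c_INF : S_INF :=
  Pool.Agent.Q224.GL.t_INF c_ENL b_EB1 b_EB2 c_RPX c_CJD c_TPR b_ABS a_PRD a_XIR a_AVP
theorem c_NTH : Adt Pool.Agent.Q269.SX.Lu.T3 ∧ 0.211 < Q283.FS.lw 0 * PT Pool.Agent.Q269.SX.Lu.T3 ∧
    Q283.FS.lw 0 * PT Pool.Agent.Q269.SX.Lu.T3 < 0.2113 := Pool.Agent.Q269.SX.Lu.t_NTH c_TPR c_RPX b_SMT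

end Pool.Agent.Q269.SX.AsmG
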