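import Pool.Agent.Q269.GJ.StF
import Pool.Agent.Q16.GR.Ph
import Pool.Agent.Q190.GR.SIG
import Pool.Agent.Q202.GR.WPB0

/-!
# Project SX: auxiliary lemmas on the Frobenius automorphism, roots of unity and systems of linear equations

These lemmas and their proofs are taken from the files `Perm`, `KSE`, `ZET`, `SUM` (helper280), `Base`, `FXS` (helper257), `BCK`, `EIG` (helper166)
of project GL; they are repeated here so that the files of project SX do not import the arithmetic of the elliptic curves.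
-/

set_option autoImplicit false
set_option linter.all false

open scoped Classical
open Finset Polynomial

namespace Pool.Agent.Q269.SX.Lt

open Pool.Agent.Q269.GR (F2 cf hv own Dn pr ph fp Om S_PAS S_FCT S_FCD S_SYR IsSg)
open Pool.Agent.Q269.GJ (Ip)
open Pool.Agent.Y164.PS (L L_prod_left)
open Pool.Agent.Q202.GR (mem_pr coprime_irr)
open Pool.Agent.Q16.GR (ph_irr ph_dvd ph_inj ph_monic ph_natDegree ph_alg ph_finrank)

section eig

variable {F V : Type} [Field F] [AddCommGroup V] [Module F V] (f : Module.End F V) (e : ℕ) (ζ : F)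

/-- geometric sum of a root of unity -/
theorem eig_geom (x : F) (hx : x ^ e = 1) (h1 : x ≠ 1) : ∑ c ∈ range e, x ^ c = 0 := by
  have h := geom_sum_mul x e
  rw [hx, sub_self] at h
  rcases mul_eq_zero.mp h with h | h
  · exact h
  · exact absurd (sub_eq_zero.mp h) h1

theorem eig_ne (he : 0 < e) (hζ : orderOf ζ = e) : (e : F) ≠ 0 := by
  have hp : IsPrimitiveRoot ζ e := hζ ▸ IsPrimitiveRoot.orderOf ζ
  haveI : NeZero e := ⟨he.ne'⟩
  exact (hp.neZero').ne

theorem eig_orth (he : 0 < e) (hζ : orderOf ζ = e) (i j : ℕ) (hi : i < e) (hj : j < e) :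
    ∑ c ∈ range e, ((ζ⁻¹) ^ i * ζ ^ j) ^ c = if i = j then (e : F) else 0 := by
  have h0 : ζ ≠ 0 := by
    intro h
    rw [h] at hζ
    have : (0 : F) ^ orderOf (0 : F) = 1 := pow_orderOf_eq_one _
    rw [hζ, zero_pow he.ne'] at this
    exact zero_ne_one this
  have hpe : ζ ^ e = 1 := by rw [← hζ]; exact pow_orderOf_eq_one ζ
  by_cases hij : i = j
  · subst hij
    rw [if_pos rfl]
    have : (ζ⁻¹) ^ i * ζ ^ i = 1 := by
      rw [← mul_pow, inv_mul_cancel₀ h0, one_pow]
    rw [this]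
    simp
  · rw [if_neg hij]
    apply eig_geom
    · rw [mul_pow, ← pow_mul, ← pow_mul, mul_comm i, mul_comm j, pow_mul, pow_mul, hpe, inv_pow, hpe]
      simp
    · intro h
      rw [inv_pow] at h
      have h2 : ζ ^ j = ζ ^ i := by
        field_simp at h
        exact h
      exact hij (pow_injOn_Iio_orderOf (x := ζ) (by rw [hζ]; exact hj) (by rw [hζ]; exact hi) h2).symm

/-- the projection -/
noncomputable def eigP (i : ℕ) : V →ₗ[F] V :=
  (e : F)⁻¹ • ∑ c ∈ range e, ((ζ⁻¹) ^ i) ^ c • f ^ c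

theorem eigP_apply (i : ℕ) (v : V) : eigP f e ζ i v = (e : F)⁻¹ • ∑ c ∈ range e, ((ζ⁻¹) ^ i) ^ c • (f ^ c) v := by
  simp [eigP]

theorem eigP_mem (he : 0 < e) (hζ : orderOf ζ = e) (hf : f ^ e = 1) (i : ℕ) (v : V) :
    eigP f e ζ i v ∈ Module.End.eigenspace f (ζ ^ i) := by
  have h0 : ζ ≠ 0 := by
    intro h
    rw [h] at hζ
    have : (0 : F) ^ orderOf (0 : F) = 1 := pow_orderOf_eq_one _
    rw [hζ, zero_pow he.ne'] at this
    exact zero_ne_one this
  have hpe : ζ ^ e = 1 := by rw [← hζ]; exact pow_orderOf_eq_one ζ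
  rw [Module.End.mem_eigenspace_iff, eigP_apply, map_smul, smul_comm]
  congr 1
  rw [map_sum, smul_sum]
  have h1 : ∀ c, f (((ζ⁻¹) ^ i) ^ c • (f ^ c) v) = (ζ ^ i) • (((ζ⁻¹) ^ i) ^ (c + 1) • (f ^ (c + 1)) v) := by
    intro c
    rw [map_smul, smul_smul, pow_succ (((ζ⁻¹) ^ i)) c]
    have h2 : ζ ^ i * (((ζ⁻¹) ^ i) ^ c * (ζ⁻¹) ^ i) = ((ζ⁻¹) ^ i) ^ c := by
      have : ζ ^ i * (ζ⁻¹) ^ i = 1 := by rw [← mul_pow, mul_inv_cancel₀ h0, one_pow]
      calc ζ ^ i * (((ζ⁻¹) ^ i) ^ c * (ζ⁻¹) ^ i) = ((ζ⁻¹) ^ i) ^ c * (ζ ^ i * (ζ⁻¹) ^ i) := by ring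
        _ = _ := by rw [this, mul_one]
    rw [h2, pow_succ' f c]
    rfl
  rw [sum_congr rfl (fun c _ => h1 c), ← smul_sum, ← smul_sum]
  congr 1
  have h3 : ∑ c ∈ range (e + 1), ((ζ⁻¹) ^ i) ^ c • (f ^ c) v = ∑ c ∈ range e, ((ζ⁻¹) ^ i) ^ c • (f ^ c) v + v := by
    have hz : ((ζ⁻¹) ^ i) ^ e = 1 := by
      rw [← pow_mul, mul_comm i e, pow_mul, inv_pow, hpe, inv_one, one_pow]
    rw [sum_range_succ, hf, hz, one_smul]
    rfl
  have h4 : ∑ c ∈ range (e + 1), ((ζ⁻¹) ^ i) ^ c • (f ^ c) v =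
      ∑ c ∈ range e, ((ζ⁻¹) ^ i) ^ (c + 1) • (f ^ (c + 1)) v + v := by
    rw [sum_range_succ']
    simp
  exact (add_right_cancel (h3.symm.trans h4)).symm

theorem eigP_sum (he : 0 < e) (hζ : orderOf ζ = e) (v : V) : ∑ i ∈ range e, eigP f e ζ i v = v := by
  have hne := eig_ne e ζ he hζ
  simp only [eigP_apply]
  rw [← smul_sum, sum_comm]
  have h1 : ∀ c ∈ range e, ∑ i ∈ range e, ((ζ⁻¹) ^ i) ^ c • (f ^ c) v = if c = 0 then (e : F) • v else 0 := by
    intro c hc
    rw [← sum_smul]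
    have h2 := eig_orth e ζ he hζ c 0 (mem_range.mp hc) he
    simp only [pow_zero, mul_one] at h2
    have h3 : ∑ i ∈ range e, ((ζ⁻¹) ^ i) ^ c = ∑ i ∈ range e, ((ζ⁻¹) ^ c) ^ i := by
      refine sum_congr rfl (fun i _ => ?_)
      rw [← pow_mul, ← pow_mul, mul_comm]
    rw [h3, h2]
    by_cases hc0 : c = 0
    · subst hc0; simp
    · rw [if_neg hc0, if_neg hc0, zero_smul]
  rw [sum_congr rfl h1, sum_ite_eq' (range e) 0 (fun _ => (e : F) • v), if_pos (mem_range.mpr he), smul_smul,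
    inv_mul_cancel₀ hne, one_smul]

theorem eig_pow (j : ℕ) (w : V) (hw : w ∈ Module.End.eigenspace f (ζ ^ j)) (c : ℕ) :
    (f ^ c) w = ((ζ ^ j) ^ c) • w := by
  induction c with
  | zero => simp
  | succ c ih =>
    rw [pow_succ' f c]
    show f ((f ^ c) w) = _
    rw [ih, map_smul, Module.End.mem_eigenspace_iff.mp hw, smul_smul, ← pow_succ]

theorem eigP_eig (he : 0 < e) (hζ : orderOf ζ = e) (i j : ℕ) (hi : i < e) (hj : j < e) (w : V)
    (hw : w ∈ Module.End.eigenspace f (ζ ^ j)) : eigP f e ζ i w = if i = j then w else 0 := by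
  have hne := eig_ne e ζ he hζ
  rw [eigP_apply]
  have h1 : ∑ c ∈ range e, ((ζ⁻¹) ^ i) ^ c • (f ^ c) w = (∑ c ∈ range e, ((ζ⁻¹) ^ i * ζ ^ j) ^ c) • w := by
    rw [sum_smul]
    refine sum_congr rfl (fun c _ => ?_)
    rw [eig_pow f ζ j w hw c, smul_smul, mul_pow]
  rw [h1, eig_orth e ζ he hζ i j hi hj]
  by_cases hij : i = j
  · rw [if_pos hij, if_pos hij, smul_smul, inv_mul_cancel₀ hne, one_smul]
  · rw [if_neg hij, if_neg hij, zero_smul, smul_zero]

/-- the decomposition -/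
noncomputable def eigE (he : 0 < e) (hζ : orderOf ζ = e) (hf : f ^ e = 1) :
    V ≃ₗ[F] (∀ i : Fin e, Module.End.eigenspace f (ζ ^ (i : ℕ))) where
  toFun v := fun i => ⟨eigP f e ζ i v, eigP_mem f e ζ he hζ hf i v⟩
  map_add' u v := by
    funext i
    apply Subtype.ext
    simp
  map_smul' c v := by
    funext i
    apply Subtype.ext
    simp
  invFun w := ∑ i : Fin e, (w i : V)
  left_inv v := by
    show ∑ i : Fin e, eigP f e ζ i v = v
    rw [Fin.sum_univ_eq_sum_range (fun i => eigP f e ζ i v) e]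
    exact eigP_sum f e ζ he hζ v
  right_inv w := by
    funext i
    apply Subtype.ext
    show eigP f e ζ i (∑ j : Fin e, (w j : V)) = w i
    rw [map_sum]
    have h1 : ∀ j : Fin e, eigP f e ζ i (w j : V) = if j = i then (w j : V) else 0 := by
      intro j
      rw [eigP_eig f e ζ he hζ i j i.2 j.2 (w j : V) (w j).2]
      by_cases hij : i = j
      · subst hij; simp
      · rw [if_neg (fun h => hij (Fin.ext h)), if_neg (fun h => hij h.symm)]
    rw [sum_congr rfl (fun j _ => h1 j), sum_ite_eq' univ i (fun j => (w j : V)), if_pos (mem_univ i)]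

theorem eig_main [Module.Finite F V] (he : 0 < e) (hζ : orderOf ζ = e) (hf : f ^ e = 1) :
    Module.finrank F V = ∑ i ∈ range e, Module.finrank F (Module.End.eigenspace f (ζ ^ i)) := by
  rw [(eigE f e ζ he hζ hf).finrank_eq, Module.finrank_pi_fintype,
    Fin.sum_univ_eq_sum_range (fun i => Module.finrank F (Module.End.eigenspace f (ζ ^ i))) e]

end eig

/-- **JOB GL-EIG.** Eigenspaces of an endomorphism of finite order.
Proof. `X^e - 1 = ∏_(i<e) (X - ζ^i)` with different `ζ^i`: the space is the direct sum of the eigenspaces. (Projections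
`(1/e) ∑_c ζ^(-ic) f^c`; `e` is invertible in `F` since there is an element of order `e`.) -/
def S_EIG : Prop := ∀ (F V : Type) [Field F] [AddCommGroup V] [Module F V] [Module.Finite F V] (f : Module.End F V)
  (e : ℕ) (ζ : F), 0 < e → orderOf ζ = e → f ^ e = 1 →
  Module.finrank F V = ∑ i ∈ range e, Module.finrank F (Module.End.eigenspace f (ζ ^ i))

theorem t_EIG : S_EIG := by
  intro F V _ _ _ _ f e ζ he hζ hf
  exact eig_main f e ζ he hζ hf

section perm

variable {k k' : Type} [Field k] [Fintype k] [Field k'] [Fintype k'] [Algebra k k']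

/-- the invariance of the symbols -/
theorem L_ph (h : S_PAS) (hk : ringChar k ≠ 2) (f P : k'[X]) (hm : P.Monic) (hi : Irreducible P) :
    L (ph k f) (ph k P) = L f P :=
  (h k k' (FractionRing k'[X]) (Pool.Agent.Q190.GR.sigE k k' (FractionRing k'[X]))
    ⟨Pool.Agent.Q190.GR.sigE_alg k k' (FractionRing k'[X])⟩).2.2.1 hk f P hm hi

theorem dvd_pr {k : Type} [Field k] [Fintype k] {D P : k[X]} (h : P ∈ pr D) : P ∣ D := by
  rw [pr, Multiset.mem_toFinset] at h
  exact UniqueFactorizationMonoid.dvd_of_mem_normalizedFactors h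

theorem mem_pr_of {k : Type} [Field k] [Fintype k] {D P : k[X]} (hD : D ≠ 0) (hm : P.Monic)
    (hi : Irreducible P) (hd : P ∣ D) : P ∈ pr D := by
  rw [pr, Multiset.mem_toFinset, UniqueFactorizationMonoid.mem_normalizedFactors_iff' hD]
  exact ⟨hi, hm.normalize_eq_self, hd⟩

theorem map_ne {D : k[X]} (hD : D ≠ 0) : D.map (algebraMap k k') ≠ 0 :=
  (Polynomial.map_ne_zero_iff (algebraMap k k').injective).2 hD

theorem ph_mem {D : k[X]} (hD : D ≠ 0) {T : k'[X]} (hT : T ∈ pr (D.map (algebraMap k k'))) :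
    ph k T ∈ pr (D.map (algebraMap k k')) := by
  obtain ⟨hm, hi⟩ := mem_pr hT
  refine mem_pr_of (map_ne hD) (ph_monic hm) (ph_irr.2 hi) ?_
  have h1 : ph k T ∣ ph k (D.map (algebraMap k k')) := ph_dvd.2 (dvd_pr hT)
  rwa [ph_alg] at h1

/-- the permutation of the primes -/
noncomputable def pm {D : k[X]} (hD : D ≠ 0) : Ip (D.map (algebraMap k k')) ≃ Ip (D.map (algebraMap k k')) :=
  Equiv.ofBijective (fun T => ⟨ph k T.1, ph_mem hD T.2⟩)
    ((Finite.injective_iff_bijective).1 fun T T' h =>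
      Subtype.ext (ph_inj (k := k) (congrArg Subtype.val h)))

theorem pm_val {D : k[X]} (hD : D ≠ 0) (T : Ip (D.map (algebraMap k k'))) : (pm hD T).1 = ph k T.1 := rfl

theorem pm_iter {D : k[X]} (hD : D ≠ 0) (c : ℕ) (T : Ip (D.map (algebraMap k k'))) :
    ((pm hD)^[c] T).1 = (ph k)^[c] T.1 := by
  induction c with
  | zero => rfl
  | succ c ih => rw [Function.iterate_succ_apply', Function.iterate_succ_apply', pm_val, ih]

theorem pm_fin {D : k[X]} (hD : D ≠ 0) (T : Ip (D.map (algebraMap k k'))) :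
    (pm hD)^[Module.finrank k k'] T = T := by
  refine Subtype.ext ?_
  rw [pm_iter, ph_finrank]

variable {F : Type} [Field F] [Algebra F2 F]

theorem two_F : (2 : F) = 0 := by
  have h : ((2 : F2)) = 0 := by decide
  have h1 : (algebraMap F2 F 2) = 0 := by rw [h, map_zero]
  rwa [map_ofNat] at h1

theorem cast_F {e : ℕ} {ζ : F} (he : 0 < e) (hζ : orderOf ζ = e) : (e : F) ≠ 0 := by
  intro h
  rcases Nat.even_or_odd e with h1 | h1
  · obtain ⟨m, hm⟩ := h1
    have h2 : ζ ^ e = 1 := by rw [← hζ]; exact pow_orderOf_eq_one ζ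
    rw [hm, pow_add] at h2
    have h3 : (ζ ^ m - 1) * (ζ ^ m - 1) = 0 := by
      have h4 := two_F (F := F)
      linear_combination h2 - (ζ ^ m - 1) * h4
    have h4 : ζ ^ m = 1 := sub_eq_zero.1 (mul_self_eq_zero.1 h3)
    have h5 := orderOf_dvd_of_pow_eq_one h4
    rw [hζ, hm] at h5
    have := Nat.le_of_dvd (by omega) h5
    omega
  · obtain ⟨m, hm⟩ := h1
    rw [hm] at h
    push_cast at h
    rw [two_F, zero_mul, zero_add] at h
    exact one_ne_zero h

/-- the setting -/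
structure St (k k' : Type) [Field k] [Fintype k] [Field k'] [Fintype k'] [Algebra k k']
    {F : Type} [Field F] [Algebra F2 F] (j : k' →ₐ[k] Om k) (D : k[X]) (ξ : F) (r : ℕ) : Prop where
  h2 : S_FCT
  h3 : S_FCD
  h4 : S_SYR
  hk : ringChar k ≠ 2
  odd : Odd (Module.finrank k k')
  hD : D ≠ 0
  ord : orderOf ξ = r
  lt : 1 < r
  dvd : r ∣ Module.finrank k k'

variable {j : k' →ₐ[k] Om k} {D : k[X]} {ξ : F} {r : ℕ}

theorem St.gcd_pos (s : St k k' j D ξ r) {P : k[X]} (hP : P ∈ pr D) :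
    0 < Nat.gcd (Module.finrank k k') P.natDegree :=
  Nat.gcd_pos_of_pos_right _ (mem_pr hP).2.natDegree_pos

theorem St.mem (s : St k k' j D ξ r) {P : k[X]} (hP : P ∈ pr D) (c : ℕ) :
    (ph k)^[c] (fp j P) ∈ pr (D.map (algebraMap k k')) := by
  rw [(s.h3 k k' j).1 D s.hD, mem_biUnion]
  refine ⟨P, hP, ?_⟩
  rw [mem_image]
  refine ⟨c % Nat.gcd (Module.finrank k k') P.natDegree, mem_range.2 (Nat.mod_lt _ (s.gcd_pos hP)), ?_⟩
  rw [(s.h2 k k' j P (mem_pr hP).1 (mem_pr hP).2).2.2.2.2.2.1]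
  exact Nat.mod_modEq _ _

theorem St.exists (s : St k k' j D ξ r) {T : k'[X]} (hT : T ∈ pr (D.map (algebraMap k k'))) :
    ∃ P ∈ pr D, ∃ c, (ph k)^[c] (fp j P) = T := by
  rw [(s.h3 k k' j).1 D s.hD, mem_biUnion] at hT
  obtain ⟨P, hP, hT⟩ := hT
  obtain ⟨c, -, hc⟩ := mem_image.1 hT
  exact ⟨P, hP, c, hc⟩

theorem St.pow_ne (s : St k k' j D ξ r) {P : k[X]} (hr : ¬ r ∣ P.natDegree) :
    ξ ^ Nat.gcd (Module.finrank k k') P.natDegree ≠ 1 := by
  intro h
  have h10 := orderOf_dvd_of_pow_eq_one h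
  rw [s.ord] at h10
  exact hr (h10.trans (Nat.gcd_dvd_right _ _))

/-- the element of the index set -/
noncomputable def St.ix (s : St k k' j D ξ r) (P : {P : k[X] // P ∈ pr D}) (c : ℕ) : Ip (D.map (algebraMap k k')) :=
  ⟨(ph k)^[c] (fp j P.1), s.mem P.2 c⟩

theorem St.ix_eq (s : St k k' j D ξ r) (P : {P : k[X] // P ∈ pr D}) (c : ℕ) :
    s.ix P c = (pm s.hD)^[c] (s.ix P 0) := by
  refine Subtype.ext ?_
  rw [pm_iter]
  rfl

theorem St.T_eq (s : St k k' j D ξ r) (T : Ip (D.map (algebraMap k k'))) :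
    ∃ (P : {P : k[X] // P ∈ pr D}) (c : ℕ), T = s.ix P c := by
  obtain ⟨P, hP, c, hc⟩ := s.exists T.2
  exact ⟨⟨P, hP⟩, c, Subtype.ext hc.symm⟩

end perm

/-- sums over the roots of unity -/
theorem sum_roots {R : Type} [Field R] {e : ℕ} (he : 0 < e) {ζ : R} (hζ : IsPrimitiveRoot ζ e) (f : R → ℕ) :
    ∑ i ∈ (range e).filter (0 < ·), f (ζ ^ i) =
      ∑ r ∈ e.divisors.filter (1 < ·), ∑ x ∈ primitiveRoots r R, f x := by
  rw [← sum_biUnion]
  swap
  · intro r hr r' hr' hne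
    rw [Function.onFun, disjoint_left]
    intro x hx hx'
    rw [coe_filter] at hr hr'
    have p1 : 0 < r := by have := hr.2; omega
    have p2 : 0 < r' := by have := hr'.2; omega
    rw [mem_primitiveRoots p1] at hx
    rw [mem_primitiveRoots p2] at hx'
    exact hne (hx.eq_orderOf.trans hx'.eq_orderOf.symm)
  refine sum_bij (fun i _ => ζ ^ i) ?_ ?_ ?_ ?_
  · intro i hi
    rw [mem_filter, mem_range] at hi
    have h1 : (ζ ^ i) ^ e = 1 := by
      rw [← pow_mul, mul_comm, pow_mul, hζ.pow_eq_one, one_pow]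
    have h2 : ζ ^ i ≠ 1 := by
      intro h
      have := hζ.dvd_of_pow_eq_one i h
      have := Nat.le_of_dvd hi.2 this
      omega
    have h3 : 0 < orderOf (ζ ^ i) := orderOf_pos_iff.2 (isOfFinOrder_iff_pow_eq_one.2 ⟨e, he, h1⟩)
    rw [mem_biUnion]
    refine ⟨orderOf (ζ ^ i), ?_, ?_⟩
    · rw [mem_filter, Nat.mem_divisors]
      refine ⟨⟨orderOf_dvd_of_pow_eq_one h1, he.ne'⟩, ?_⟩
      rcases Nat.lt_or_ge 1 (orderOf (ζ ^ i)) with h | h
      · exact h
      · exfalso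
        exact h2 (orderOf_eq_one_iff.1 (by omega))
    · rw [mem_primitiveRoots h3]
      exact IsPrimitiveRoot.orderOf _
  · intro i hi i' hi' h
    rw [mem_filter, mem_range] at hi hi'
    exact hζ.pow_inj hi.1 hi'.1 h
  · intro x hx
    rw [mem_biUnion] at hx
    obtain ⟨r, hr, hx⟩ := hx
    rw [mem_filter, Nat.mem_divisors] at hr
    rw [mem_primitiveRoots (by omega)] at hx
    have h1 : x ^ e = 1 := by
      obtain ⟨m, hm⟩ := hr.1.1
      rw [hm, pow_mul, hx.pow_eq_one, one_pow]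
    haveI : NeZero e := ⟨he.ne'⟩
    obtain ⟨i, hi, hx'⟩ := hζ.eq_pow_of_pow_eq_one h1
    refine ⟨i, ?_, hx'⟩
    rw [mem_filter, mem_range]
    refine ⟨hi, ?_⟩
    rcases Nat.eq_zero_or_pos i with h | h
    · exfalso
      rw [h, pow_zero] at hx'
      rw [← hx'] at hx
      have := hx.unique IsPrimitiveRoot.one
      omega
    · exact h
  · intro i _
    rfl

theorem sum_prim {R : Type} [Field R] {r : ℕ} (hr : 0 < r) {η : R} (hη : IsPrimitiveRoot η r) (f : R → ℕ) :
    ∑ x ∈ primitiveRoots r R, f x = ∑ u ∈ (range r).filter (fun u => Nat.Coprime u r), f (η ^ u) := by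
  symm
  refine sum_bij (fun i _ => η ^ i) ?_ ?_ ?_ ?_
  · intro i hi
    rw [mem_filter] at hi
    rw [mem_primitiveRoots hr]
    exact hη.pow_of_coprime i hi.2
  · intro i hi i' hi' h
    rw [mem_filter, mem_range] at hi hi'
    exact hη.pow_inj hi.1 hi'.1 h
  · intro x hx
    rw [mem_primitiveRoots hr] at hx
    haveI : NeZero r := ⟨hr.ne'⟩
    obtain ⟨i, hi, hx'⟩ := hη.eq_pow_of_pow_eq_one hx.pow_eq_one
    refine ⟨i, ?_, hx'⟩
    rw [mem_filter, mem_range]
    refine ⟨hi, ?_⟩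
    rw [← hx'] at hx
    exact (hη.pow_iff_coprime hr i).1 hx
  · intro i _
    rfl

section fixed

variable {k k' : Type} [Field k] [Fintype k] [Field k'] [Fintype k'] [Algebra k k']

theorem exj : Nonempty (k' →ₐ[k] Om k) := by
  haveI : Module.Finite k k' := Module.Finite.of_finite
  haveI : Algebra.IsAlgebraic k k' := Algebra.IsAlgebraic.of_finite k k'
  exact ⟨IsAlgClosed.lift⟩

theorem ph_it (c : ℕ) {P : k'[X]} (hm : P.Monic) (hi : Irreducible P) :
    ((ph k)^[c] P).Monic ∧ Irreducible ((ph k)^[c] P) ∧ ((ph k)^[c] P).natDegree = P.natDegree := by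
  induction c with
  | zero => exact ⟨hm, hi, rfl⟩
  | succ c ih =>
    rw [Function.iterate_succ_apply']
    exact ⟨ph_monic ih.1, ph_irr.2 ih.2.1, (ph_natDegree _).trans ih.2.2⟩

theorem L_ph_it (h : S_PAS) (hk : ringChar k ≠ 2) (c : ℕ) (f P : k'[X]) (hm : P.Monic)
    (hi : Irreducible P) : L ((ph k)^[c] f) ((ph k)^[c] P) = L f P := by
  induction c with
  | zero => rfl
  | succ c ih =>
    obtain ⟨h1, h2, -⟩ := ph_it (k := k) c hm hi
    rw [Function.iterate_succ_apply', Function.iterate_succ_apply', L_ph h hk _ _ h1 h2, ih]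

theorem ph_alg_it (c : ℕ) (f : k[X]) :
    (ph k)^[c] (f.map (algebraMap k k')) = f.map (algebraMap k k') := by
  induction c with
  | zero => rfl
  | succ c ih => rw [Function.iterate_succ_apply', ih, ph_alg]

/-- the symbol of a polynomial over the small field at a prime factor -/
theorem L_low (h : S_PAS) (h2 : S_SYR) (hk : ringChar k ≠ 2) (ho : Odd (Module.finrank k k'))
    (j : k' →ₐ[k] Om k) (h4 : S_FCT) {P : k[X]} (hm : P.Monic) (hi : Irreducible P) (c : ℕ) (f : k[X]) :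
    L (f.map (algebraMap k k')) ((ph k)^[c] (fp j P)) = L f P := by
  obtain ⟨f1, f2, -⟩ := h4 k k' j P hm hi
  rw [← ph_alg_it (k' := k') c f, L_ph_it h hk c _ _ f1 f2]
  exact (h2 k k' j hk ho P hm hi).2 f

/-- the sum of the symbols of the factors -/
theorem L_sum (h : S_PAS) (h2 : S_SYR) (hk : ringChar k ≠ 2) (ho : Odd (Module.finrank k k'))
    (j : k' →ₐ[k] Om k) (h4 : S_FCT) (h5 : S_FCD) {P P2 : k[X]} (hm : P.Monic) (hi : Irreducible P)
    (hm2 : P2.Monic) (hi2 : Irreducible P2) (hne : P2 ≠ P) (c : ℕ) :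
    ∑ c2 ∈ range (Nat.gcd (Module.finrank k k') P2.natDegree),
      L ((ph k)^[c2] (fp j P2)) ((ph k)^[c] (fp j P)) = L P2 P := by
  obtain ⟨-, -, -, -, g5, g6, -⟩ := h4 k k' j P hm hi
  obtain ⟨-, -, -, -, k5, k6, k7⟩ := h4 k k' j P2 hm2 hi2
  rw [← L_prod_left, ← k7, L_low h h2 hk ho j h4 hm hi c P2]
  · exact (g5 c).2.ne_zero
  · intro c _
    exact (k5 c).2.ne_zero
  · intro c2 _
    exact coprime_irr (k5 c2).1 (g5 c).1 (k5 c2).2 (g5 c).2 ((h5 k k' j).2.1 P2 P hm2 hi2 hm hi hne c2 c)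

theorem gcd_odd (ho : Odd (Module.finrank k k')) (m : ℕ) : Odd (Nat.gcd (Module.finrank k k') m) :=
  Odd.of_dvd_nat ho (Nat.gcd_dvd_left _ _)

theorem cast_odd {g : ℕ} (h : Odd g) : (g : F2) = 1 := (ZMod.natCast_eq_one_iff_odd).2 h

theorem deg_low (ho : Odd (Module.finrank k k')) (j : k' →ₐ[k] Om k) (h4 : S_FCT) {P : k[X]}
    (hm : P.Monic) (hi : Irreducible P) (c : ℕ) :
    ((((ph k)^[c] (fp j P)).natDegree : ℕ) : F2) = (P.natDegree : F2) := by
  obtain ⟨f1, f2, -, -, g5, g6, g7⟩ := h4 k k' j P hm hi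
  have h1 : P.natDegree = Nat.gcd (Module.finrank k k') P.natDegree * (fp j P).natDegree := by
    have h2 := congrArg Polynomial.natDegree g7
    rw [natDegree_map, natDegree_prod_of_monic _ _ (fun c _ => (g5 c).1),
      sum_congr rfl (fun c _ => (ph_it (k := k) c f1 f2).2.2), sum_const, card_range, smul_eq_mul] at h2
    exact h2
  rw [(ph_it (k := k) c f1 f2).2.2]
  conv_rhs => rw [h1]
  rw [Nat.cast_mul, cast_odd (gcd_odd ho _), one_mul]

theorem memT (h5 : S_FCD) (j : k' →ₐ[k] Om k) {D : k[X]} (hD : D ≠ 0) (P : Ip D) (c : ℕ)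
    (hc : c < Nat.gcd (Module.finrank k k') P.1.natDegree) :
    (ph k)^[c] (fp j P.1) ∈ pr (D.map (algebraMap k k')) := by
  rw [(h5 k k' j).1 D hD, mem_biUnion]
  exact ⟨P.1, P.2, mem_image.2 ⟨c, mem_range.2 hc, rfl⟩⟩

/-- the prime factors over the large field -/
noncomputable def eT (h4 : S_FCT) (h5 : S_FCD) (j : k' →ₐ[k] Om k) {D : k[X]} (hD : D ≠ 0) :
    (Σ P : Ip D, Fin (Nat.gcd (Module.finrank k k') P.1.natDegree)) ≃ Ip (D.map (algebraMap k k')) :=
  Equiv.ofBijective (fun x => ⟨(ph k)^[x.2.1] (fp j x.1.1), memT h5 j hD x.1 x.2.1 x.2.2⟩) (by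
    constructor
    · rintro ⟨P, c⟩ ⟨P2, c2⟩ h
      have h1 : (ph k)^[c.1] (fp j P.1) = (ph k)^[c2.1] (fp j P2.1) := congrArg Subtype.val h
      have hP : P = P2 := by
        by_contra hne
        exact (h5 k k' j).2.1 P.1 P2.1 (mem_pr P.2).1 (mem_pr P.2).2 (mem_pr P2.2).1 (mem_pr P2.2).2
          (fun h => hne (Subtype.ext h)) c.1 c2.1 h1
      subst hP
      have h2 := ((h4 k k' j P.1 (mem_pr P.2).1 (mem_pr P.2).2).2.2.2.2.2.1 c.1 c2.1).1 h1
      rw [Nat.ModEq, Nat.mod_eq_of_lt c.2, Nat.mod_eq_of_lt c2.2] at h2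
      have : c = c2 := Fin.ext h2
      rw [this]
    · rintro ⟨T, hT⟩
      rw [(h5 k k' j).1 D hD, mem_biUnion] at hT
      obtain ⟨P, hP, hT2⟩ := hT
      rw [mem_image] at hT2
      obtain ⟨c, hc, rfl⟩ := hT2
      exact ⟨⟨⟨P, hP⟩, ⟨c, mem_range.1 hc⟩⟩, rfl⟩)

theorem eT_val (h4 : S_FCT) (h5 : S_FCD) (j : k' →ₐ[k] Om k) {D : k[X]} (hD : D ≠ 0) (P : Ip D)
    (c : Fin (Nat.gcd (Module.finrank k k') P.1.natDegree)) :
    (eT h4 h5 j hD ⟨P, c⟩).1 = (ph k)^[c.1] (fp j P.1) := rfl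

theorem sum_T {M : Type} [AddCommMonoid M] (h4 : S_FCT) (h5 : S_FCD) (j : k' →ₐ[k] Om k) {D : k[X]}
    (hD : D ≠ 0) (f : Ip (D.map (algebraMap k k')) → M) :
    ∑ T, f T = ∑ P : Ip D, ∑ c : Fin (Nat.gcd (Module.finrank k k') P.1.natDegree),
      f (eT h4 h5 j hD ⟨P, c⟩) := by
  rw [← (eT h4 h5 j hD).sum_comp, Fintype.sum_sigma]

theorem gpos {D : k[X]} (P : Ip D) : 0 < Nat.gcd (Module.finrank k k') P.1.natDegree :=
  Nat.gcd_pos_of_pos_right _ (mem_pr P.2).2.natDegree_pos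

/-- a function fixed by the Frobenius automorphism comes from the small field -/
theorem fix_iff {M : Type} (h4 : S_FCT) (h5 : S_FCD) (j : k' →ₐ[k] Om k) {D : k[X]} (hD : D ≠ 0)
    (w : Ip (D.map (algebraMap k k')) → M) :
    (∀ T T' : Ip (D.map (algebraMap k k')), T'.1 = ph k T.1 → w T' = w T) ↔
      ∀ (P : Ip D) (c : Fin (Nat.gcd (Module.finrank k k') P.1.natDegree)),
        w (eT h4 h5 j hD ⟨P, c⟩) = w (eT h4 h5 j hD ⟨P, ⟨0, gpos P⟩⟩) := by
  constructor
  · rintro h P ⟨c, hc⟩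
    induction c with
    | zero => rfl
    | succ c ih =>
      rw [← ih (by omega)]
      refine h _ _ ?_
      rw [eT_val, eT_val]
      show (ph k)^[c + 1] (fp j P.1) = ph k ((ph k)^[c] (fp j P.1))
      rw [Function.iterate_succ_apply']
  · intro h T T' hT
    obtain ⟨⟨P, c⟩, rfl⟩ := (eT h4 h5 j hD).surjective T
    have h6 := h4 k k' j P.1 (mem_pr P.2).1 (mem_pr P.2).2
    have h1 : T' = eT h4 h5 j hD ⟨P, ⟨(c.1 + 1) % Nat.gcd (Module.finrank k k') P.1.natDegree,
        Nat.mod_lt _ (gpos P)⟩⟩ := by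
      apply Subtype.ext
      rw [hT, eT_val, eT_val, ← Function.iterate_succ_apply' (ph k), h6.2.2.2.2.2.1]
      exact (Nat.mod_modEq _ _).symm
    rw [h1, h, h P c]

end fixed

section bck

open scoped TensorProduct

variable {F F' : Type} [Field F] [Field F']

/-- the kernel of a matrix does not change its dimension under an extension of fields -/
theorem bck_ker [Algebra F F'] (n m : Type) [Fintype n] [Fintype m] (A : Matrix m n F) :
    Module.finrank F' (LinearMap.ker (A.map (algebraMap F F')).mulVecLin) =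
      Module.finrank F (LinearMap.ker A.mulVecLin) := by
  have e1 := (LinearMap.tensorKerEquiv F' F' A.mulVecLin).finrank_eq
  rw [← Module.finrank_baseChange (R := F') (S := F) (M' := LinearMap.ker A.mulVecLin), e1]
  -- transport
  let en := TensorProduct.piScalarRight F F' F' n
  let em := TensorProduct.piScalarRight F F' F' m
  have hcomm : ∀ z : F' ⊗[F] (n → F), em (TensorProduct.AlgebraTensorModule.lTensor F' F' A.mulVecLin z) =
      (A.map (algebraMap F F')).mulVecLin (en z) := by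
    intro z
    induction z using TensorProduct.induction_on with
    | zero => simp
    | add x y hx hy => simp only [map_add, hx, hy]
    | tmul c v =>
      funext i
      simp only [em, en, TensorProduct.AlgebraTensorModule.lTensor_tmul, TensorProduct.piScalarRight_apply,
        TensorProduct.piScalarRightHom_tmul, Matrix.mulVecLin_apply, Matrix.mulVec, dotProduct, Matrix.map_apply]
      rw [Finset.sum_smul]
      refine Finset.sum_congr rfl (fun j _ => ?_)
      rw [Algebra.smul_def, Algebra.smul_def, map_mul]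
      ring
  refine (LinearEquiv.finrank_eq ?_).symm
  refine LinearEquiv.ofSubmodules en _ _ ?_
  ext x
  constructor
  · rintro ⟨z, hz, rfl⟩
    have hz' : TensorProduct.AlgebraTensorModule.lTensor F' F' A.mulVecLin z = 0 := hz
    show (A.map (algebraMap F F')).mulVecLin (en z) = 0
    rw [← hcomm, hz', map_zero]
  · intro hx
    have hx' : (A.map (algebraMap F F')).mulVecLin x = 0 := hx
    refine ⟨en.symm x, ?_, by simp⟩
    show TensorProduct.AlgebraTensorModule.lTensor F' F' A.mulVecLin (en.symm x) = 0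
    apply em.injective
    rw [hcomm, map_zero]
    simpa using hx'

theorem bck_cf [Algebra F2 F] [Algebra F2 F'] (φ : F →+* F') (x : F2) : φ (cf x : F) = (cf x : F') := by
  have : φ.comp (algebraMap F2 F) = algebraMap F2 F' := Subsingleton.elim _ _
  exact congrArg (fun g => g x) this

end bck

end Pool.Agent.Q269.SX.Lt
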