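import Pool.Agent.Q269.SX.StR
import Pool.Agent.Q269.SX.Lt

/-! Project SX (helper269), job BCN: extension of the field of coefficients. -/

set_option autoImplicit false
set_option linter.all false

open scoped Classical
open Finset Polynomial

namespace Pool.Agent.Q269.SX.Bcn

open Pool.Agent.Q269.GR (F2 cf hv own Dn pr Fr xi ph)
open Pool.Agent.Q269.GJ (W0 lap eqn Kn KD KF xb am Ip)
open Pool.Agent.Q269.SX
open Pool.Agent.Y164.PS (L)
open Pool.Agent.Q269.SX.Lt (bck_ker bck_cf)

section lin

/-- a natural linear map has a kernel of the same dimension over a larger field -/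
theorem bck_nat {F F' : Type} [Field F] [Field F'] (φ : F →+* F') {P Q : Type} [Fintype P] [Fintype Q]
    (T : (P → F) →ₗ[F] (Q → F)) (T' : (P → F') →ₗ[F'] (Q → F'))
    (h : ∀ u q, T' (fun p => φ (u p)) q = φ (T u q)) :
    Module.finrank F' (LinearMap.ker T') = Module.finrank F (LinearMap.ker T) := by
  letI : Algebra F F' := φ.toAlgebra
  have h1 := bck_ker (F := F) (F' := F') P Q (LinearMap.toMatrix' T)
  have h2 : (LinearMap.toMatrix' T).map (algebraMap F F') = LinearMap.toMatrix' T' := by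
    ext q p
    rw [Matrix.map_apply, LinearMap.toMatrix'_apply, LinearMap.toMatrix'_apply]
    change φ (T (Pi.single p 1) q) = T' (Pi.single p 1) q
    have h4 : (fun p' => φ ((Pi.single p 1 : P → F) p')) = (Pi.single p 1 : P → F') := by
      funext p'
      rw [Pi.single_apply, Pi.single_apply, apply_ite φ, map_one, map_zero]
    rw [← h, h4]
  have h3 : ∀ {K : Type} [Field K] (S : (P → K) →ₗ[K] (Q → K)),
      (LinearMap.toMatrix' S).mulVecLin = S := fun S => Matrix.toLin'_toMatrix' S
  rw [h2, h3, h3] at h1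
  exact h1

variable {F F' : Type} [Field F] [Field F'] [Algebra F2 F] [Algebra F2 F'] {n : ℕ}

/-- the equation for all vectors -/
noncomputable def eqx {J : Type} [Fintype J] (M : J → J → F) (dd : J → F)
    (x : J → Fin n → Fin n → F2) (v : J → Fin n → F) (i : J) : Fin n → F :=
  ∑ j, (if j = i then (0 : F) else M i j) • v j + dd i • v i + lap (x i) (v i)

theorem eqx_add {J : Type} [Fintype J] (M : J → J → F) (dd : J → F)
    (x : J → Fin n → Fin n → F2) (v w : J → Fin n → F) (i : J) :
    eqx M dd x (v + w) i = eqx M dd x v i + eqx M dd x w i := by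
  simp only [eqx, Pi.add_apply, smul_add, sum_add_distrib, Pool.Agent.Q269.GJ.lap_add]
  abel

theorem eqx_smul {J : Type} [Fintype J] (M : J → J → F) (dd : J → F)
    (x : J → Fin n → Fin n → F2) (t : F) (w : J → Fin n → F) (i : J) :
    eqx M dd x (t • w) i = t • eqx M dd x w i := by
  simp only [eqx, Pi.smul_apply, smul_add, Finset.smul_sum, Pool.Agent.Q269.GJ.lap_smul]
  congr 1
  congr 1
  · exact sum_congr rfl fun j _ => smul_comm _ _ _
  · exact smul_comm _ _ _

theorem eqx_map (φ : F →+* F') {J : Type} [Fintype J] (M : J → J → F) (dd : J → F)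
    (x : J → Fin n → Fin n → F2) (v : J → Fin n → F) (i : J) (l : Fin n) :
    eqx (fun i j => φ (M i j)) (fun i => φ (dd i)) x (fun j l => φ (v j l)) i l =
      φ (eqx M dd x v i l) := by
  simp only [eqx, lap, Pi.add_apply, Finset.sum_apply, Pi.smul_apply, smul_eq_mul, map_add, map_sum,
    map_mul, bck_cf, apply_ite φ, map_zero]

/-- the linear map of the system -/
noncomputable def TT {J R : Type} [Fintype J] {e : ℕ} (M : J → J → F) (dd : J → F)
    (x : J → Fin n → Fin n → F2) (g : R → Fin e → J) :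
    (J × Fin n → F) →ₗ[F] ((J × Fin n) ⊕ (J ⊕ (R × Fin n)) → F) where
  toFun u := Sum.elim (fun p => eqx M dd x (fun j l => u (j, l)) p.1 p.2)
    (Sum.elim (fun j => ∑ l, u (j, l)) (fun p => ∑ c, u (g p.1 c, p.2)))
  map_add' u v := by
    funext q
    rcases q with p | j | p
    · change eqx M dd x ((fun j l => u (j, l)) + fun j l => v (j, l)) p.1 p.2 = _
      rw [eqx_add]
      rfl
    · change ∑ l, (u (j, l) + v (j, l)) = _
      rw [sum_add_distrib]
      rfl
    · change ∑ c, (u (g p.1 c, p.2) + v (g p.1 c, p.2)) = _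
      rw [sum_add_distrib]
      rfl
  map_smul' t u := by
    funext q
    rcases q with p | j | p
    · change eqx M dd x (t • fun j l => u (j, l)) p.1 p.2 = _
      rw [eqx_smul]
      rfl
    · change ∑ l, (t * u (j, l)) = _
      rw [← mul_sum]
      rfl
    · change ∑ c, (t * u (g p.1 c, p.2)) = _
      rw [← mul_sum]
      rfl

theorem fin_U {J R : Type} [Fintype J] {e : ℕ} (M : J → J → F) (dd : J → F)
    (x : J → Fin n → Fin n → F2) (g : R → Fin e → J) (U : Submodule F (J → W0 n F))
    (hU : ∀ w, w ∈ U ↔ (∀ i, eqn M dd x w i = 0) ∧ ∀ r, ∑ c, w (g r c) = 0) :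
    Module.finrank F U = Module.finrank F (LinearMap.ker (TT M dd x g)) := by
  have hk : ∀ w : J → W0 n F, w ∈ U ↔ TT M dd x g (fun p => (w p.1).1 p.2) = 0 := by
    intro w
    rw [hU]
    constructor
    · rintro ⟨h1, h2⟩
      funext q
      rcases q with p | j | p
      · exact congrFun (h1 p.1) p.2
      · exact (w j).2
      · have h3 := congrFun (congrArg Subtype.val (h2 p.1)) p.2
        rw [AddSubmonoidClass.coe_finset_sum, Finset.sum_apply] at h3
        exact h3
    · intro h
      constructor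
      · intro i
        funext l
        exact congrFun h (Sum.inl (i, l))
      · intro r
        apply Subtype.ext
        funext l
        rw [AddSubmonoidClass.coe_finset_sum, Finset.sum_apply]
        exact congrFun h (Sum.inr (Sum.inr (r, l)))
  refine LinearEquiv.finrank_eq
    { toFun := fun w => ⟨fun p => (w.1 p.1).1 p.2, (hk w.1).1 w.2⟩
      map_add' := fun u v => rfl
      map_smul' := fun t u => rfl
      invFun := fun u => ⟨fun j => ⟨fun l => u.1 (j, l),
        congrFun (u.2 : TT M dd x g u.1 = 0) (Sum.inr (Sum.inl j))⟩, (hk _).2 u.2⟩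
      left_inv := fun w => rfl
      right_inv := fun u => rfl }

theorem bck_U (φ : F →+* F') {J R : Type} [Fintype J] [Fintype R] {e : ℕ} (M : J → J → F) (dd : J → F)
    (M' : J → J → F') (dd' : J → F') (hM : ∀ i j, M' i j = φ (M i j)) (hd : ∀ i, dd' i = φ (dd i))
    (x : J → Fin n → Fin n → F2) (g : R → Fin e → J) (U : Submodule F (J → W0 n F))
    (U' : Submodule F' (J → W0 n F'))
    (hU : ∀ w, w ∈ U ↔ (∀ i, eqn M dd x w i = 0) ∧ ∀ r, ∑ c, w (g r c) = 0)
    (hU' : ∀ w, w ∈ U' ↔ (∀ i, eqn M' dd' x w i = 0) ∧ ∀ r, ∑ c, w (g r c) = 0) :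
    Module.finrank F' U' = Module.finrank F U := by
  have e1 : M' = fun i j => φ (M i j) := funext fun i => funext fun j => hM i j
  have e2 : dd' = fun i => φ (dd i) := funext hd
  subst e1 e2
  rw [fin_U _ _ x g U hU, fin_U _ _ x g U' hU']
  apply bck_nat φ
  intro u q
  rcases q with p | j | p
  · exact eqx_map φ M dd x (fun j l => u (j, l)) p.1 p.2
  · change ∑ l, φ (u (j, l)) = φ (∑ l, u (j, l))
    exact (map_sum φ _ _).symm
  · change ∑ c, φ (u (g p.1 c, p.2)) = φ (∑ c, u (g p.1 c, p.2))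
    exact (map_sum φ _ _).symm

end lin

/-- the beginnings of the sequences -/
abbrev NG {k : Type} [Field k] [Fintype k] (k₀ : Type) [Field k₀] [Fintype k₀] [Algebra k₀ k]
    (D : k[X]) : Type :=
  {g : Fin (Module.finrank k₀ k) → Ip D // ∃ f : ℕ → Ip D, (∀ c, (f (c + 1)).1 = ph k₀ (f c).1) ∧
    ∀ c, g c = f c}

theorem mem_KN {F : Type} [Field F] [Algebra F2 F] {k : Type} [Field k] [Fintype k] (k₀ : Type)
    [Field k₀] [Fintype k₀] [Algebra k₀ k] {n : ℕ} (a : Fin n → k[X]) (D : k[X]) (w : Ip D → W0 n F) :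
    w ∈ KSn F a D ⊓ NmN F k₀ n D ↔ (∀ i, eqn (fun i j : Ip D => (cf (L j.1 i.1) : F))
      (fun i => cf (∑ j : Ip D, if j = i then 0 else L j.1 i.1)) (fun i : Ip D => xb a i.1) w i = 0) ∧
      ∀ r : NG k₀ D, ∑ c, w (r.1 c) = 0 := by
  rw [Submodule.mem_inf]
  refine and_congr Iff.rfl ?_
  constructor
  · rintro h ⟨g, f, hf, hg⟩
    have h1 := h f hf
    rw [← Fin.sum_univ_eq_sum_range (fun c => w (f c))] at h1
    exact Eq.trans (Finset.sum_congr rfl (fun c _ => congrArg w (hg c))) h1
  · intro h f hf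
    have h1 := h ⟨fun c => f c, f, hf, fun c => rfl⟩
    rw [← Fin.sum_univ_eq_sum_range (fun c => w (f c))]
    exact h1

theorem bck_KF {F F' : Type} [Field F] [Field F'] [Algebra F2 F] [Algebra F2 F'] (φ : F →+* F')
    {k : Type} [Field k] [Fintype k] (r : ℕ) (ξ : F) {n : ℕ} (a : Fin n → k[X]) {ι : Type} [Fintype ι]
    (P : ι → k[X]) : Module.finrank F' (KF r (φ ξ) a P) = Module.finrank F (KF r ξ a P) := by
  have e1 : ∀ P P' : k[X], hv r (φ ξ) P P' = φ (hv r ξ P P') := by
    intro P P'
    simp only [hv, map_sum, map_mul, map_pow, bck_cf]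
  have e2 : ∀ P : k[X], own r (φ ξ) P = φ (own r ξ P) := by
    intro P
    simp only [own, map_sum, map_mul, map_add, map_one, map_pow, bck_cf]
  refine bck_U φ (R := Empty) (e := 0)
    (fun i j : {i : ι // r ∣ (P i).natDegree} => hv r ξ (P j.1) (P i.1))
    (fun i => own r ξ (P i.1) + cf (∑ j, if j = i.1 then 0 else L (P j) (P i.1)))
    (fun i j => hv r (φ ξ) (P j.1) (P i.1))
    (fun i => own r (φ ξ) (P i.1) + cf (∑ j, if j = i.1 then 0 else L (P j) (P i.1)))
    (fun i j => e1 _ _) (fun i => ?_) (fun i => xb a (P i.1)) (fun r => r.elim) _ _ ?_ ?_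
  · rw [map_add, e2, bck_cf]
  · intro w
    exact ⟨fun h => ⟨h, fun r => r.elim⟩, fun h => h.1⟩
  · intro w
    exact ⟨fun h => ⟨h, fun r => r.elim⟩, fun h => h.1⟩

/-- **BCN** -/
theorem t_BCN : S_BCN := by
  intro F F' _ _ _ _ φ
  constructor
  · intro k _ _ r ξ n a D
    exact bck_KF φ r ξ a (fun P : {P : k[X] // P ∈ pr D} => P.1)
  · intro k k' _ _ _ _ _ n a D hD
    exact bck_U φ (R := NG k (D.map (algebraMap k k'))) _ _ _ _ (fun i j => (bck_cf φ _).symm)
      (fun i => (bck_cf φ _).symm) _ (fun r => r.1) _ _ (mem_KN k (am k' a) _) (mem_KN k (am k' a) _)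

end Pool.Agent.Q269.SX.Bcn
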