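import Pool.Agent.Q269.SX.StX

/-!
# Project SX, job CLS: the classes are equidistributed
-/

set_option autoImplicit false
set_option linter.all false

namespace Pool.Agent.Q269.SX.Cls

open Finset Polynomial Filter Topology
open Pool.Agent.Q269.MF
open Pool.Agent.Q269.SL
open Pool.Agent.Q269.SX
open Pool.Agent.Q269.GR (Dn pr)
open Pool.Agent.Q269.GJ (Ip)
open Pool.Agent.Y164.SZ (ok SYM0 SYM FDat nb)
open Pool.Agent.Y164.HG (Geo Tau QQ EW cur F2 kc Del)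
open Pool.Agent.Y164.PS (Sf mem_Sf Fam)
open Pool.Agent.H341R2.Sharp (Mon mem_Mon)
open scoped Classical

section a
variable {k : Type} [Field k] [Fintype k]
variable {R : Type} [Fintype R] {n : R → ℕ}
  {a : (r : R) → Fin (n r) → k[X]} {N : R → ℕ} (H : ∀ r, Geo (a r) (N r))

include H in
theorem Dn_eq (m : ℕ) : Dn (∏ r, Del (a r)) m = (Sf k m).filter (nb (Q2 a)) := by
  ext D
  constructor
  · intro h
    obtain ⟨h1, h2, h3⟩ := mem_filter.1 h
    have h1' := mem_Mon.1 h1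
    refine mem_filter.2 ⟨mem_Sf.2 ⟨h1'.1, h1'.2, h2⟩, (nb2_iff H h1'.1).2 fun r i j hij => ?_⟩
    exact h3.of_isCoprime_of_dvd_right (((H r).dvd_del hij).trans (dvd_prod_of_mem _ (mem_univ r)))
  · intro h
    obtain ⟨h1, h2⟩ := mem_filter.1 h
    obtain ⟨h3, h4, h5⟩ := mem_Sf.1 h1
    refine mem_filter.2 ⟨mem_Mon.2 ⟨h3, h4⟩, h5, ?_⟩
    have h6 := (nb2_iff H h3).1 h2
    apply IsCoprime.prod_right
    intro r _
    apply IsCoprime.prod_right
    intro x hx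
    exact h6 r x.1 x.2 (ne_of_lt (mem_filter.1 hx).2)

include H in
theorem prod_pr {m : ℕ} {D : k[X]} (hD : D ∈ Dn (∏ r, Del (a r)) m) : ∏ P ∈ pr D, P = D := by
  rw [Dn_eq H] at hD
  have h1 := (mem_filter.1 hD).1
  have h2 := (mem_Sf.1 h1)
  have h3 : pr D = Pool.Agent.Y164.PS.pf D := by
    ext P
    rw [pr, Multiset.mem_toFinset, Pool.Agent.Y164.PS.mem_pf h2.1.ne_zero,
      Polynomial.mem_normalizedFactors_iff h2.1.ne_zero]
    tauto
  rw [h3]
  exact Pool.Agent.Y164.PS.prod_pf h1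

theorem sgD_eq {m : ℕ} {D : k[X]} (hD : D ∈ Dn (∏ r, Del (a r)) m) (r : R) (s : Tau (a r))
    [Fact (Odd (n r))] :
    sgD (H r) D s = Pool.Agent.Y164.SZ.L 2 D (QQ (a r) s) + ((H r).dat 0).g s := by
  have hp := prod_pr H hD
  rw [Dn_eq H] at hD
  obtain ⟨h1, h2⟩ := mem_filter.1 hD
  obtain ⟨h3, h4, h5⟩ := mem_Sf.1 h1
  have hq : Irreducible (QQ (a r) s) := (H r).fam.irr s
  have h6 : Pool.Agent.Y164.PS.L D (QQ (a r) s) = ∑ P ∈ pr D, Pool.Agent.Y164.PS.L P (QQ (a r) s) := by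
    conv_lhs => rw [← hp]
    apply Pool.Agent.Y164.PS.L_prod_left hq.ne_zero
    · intro P hP h0
      rw [h0] at hP
      have : (0 : k[X]) ∣ D := by
        conv_rhs => rw [← hp]
        exact dvd_prod_of_mem (fun P => P) hP
      exact h3.ne_zero (zero_dvd_iff.1 this)
    · intro P hP
      apply Pool.Agent.Y164.PS.coprime_of_not_dvd hq
      intro hd
      apply h2 ⟨r, s⟩
      refine hd.trans ?_
      conv_rhs => rw [← hp]
      exact dvd_prod_of_mem (fun P => P) hP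
  rw [sgD, L_eq (H r).hk, h6, ← sum_coe_sort (pr D) (fun P => Pool.Agent.Y164.PS.L P (QQ (a r) s))]
  rfl

theorem gcla_iff [∀ r, Fact (Odd (n r))] {m : ℕ} {D : k[X]} (hD : D ∈ Dn (∏ r, Del (a r)) m)
    (σ : ∀ r, Tau (a r) → ZMod 2) :
    gcla (fun x : (Σ r, Tau (a r)) => σ x.1 x.2) (gM (datT H 0)) (Q2 a) D ↔
      ∀ r s, sgD (H r) D s = σ r s := by
  have key : ∀ x y z : ZMod 2, x + y + z = 0 ↔ y + z = x := by decide
  constructor
  · intro h r s
    rw [sgD_eq H hD]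
    exact (key _ _ _).1 (h ⟨r, s⟩)
  · intro h x
    have h1 := h x.1 x.2
    rw [sgD_eq H hD] at h1
    exact (key _ _ _).2 h1

/-- the class -/
noncomputable def ClM (H : ∀ r, Geo (a r) (N r)) (σ : ∀ r, Tau (a r) → ZMod 2) (m : ℕ) :
    Finset k[X] :=
  (Dn (∏ r, Del (a r)) m).filter fun D => ∀ r s, sgD (H r) D s = σ r s

theorem ClM_disj (m : ℕ) {σ σ' : ∀ r, Tau (a r) → ZMod 2} (h : σ ≠ σ') :
    Disjoint (ClM H σ m) (ClM H σ' m) := by
  rw [disjoint_left]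
  intro D h1 h2
  apply h
  funext r s
  rw [← (mem_filter.1 h1).2 r s, (mem_filter.1 h2).2 r s]

theorem ClM_sum (m : ℕ) : ∑ σ : (∀ r, Tau (a r) → ZMod 2), (ClM H σ m).card =
    (Dn (∏ r, Del (a r)) m).card := by
  rw [← card_biUnion fun σ _ σ' _ h => ClM_disj H m h]
  congr 1
  ext D
  simp only [mem_biUnion, mem_univ, true_and, ClM, mem_filter]
  constructor
  · rintro ⟨σ, h1, h2⟩
    exact h1
  · intro h1
    exact ⟨fun r s => sgD (H r) D s, h1, fun r s => rfl⟩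

theorem vec_fin (c : R → ZMod 2) {ε : ℝ} (hε : 0 < ε) :
    ∃ 𝒜 : Finset (R → ℕ), 1 - ε ≤ ∑ e ∈ 𝒜, ∏ r, lawc (c r) (e r) := by
  obtain ⟨δ, hδ, hδ1, hδε⟩ : ∃ δ : ℝ, 0 < δ ∧ δ ≤ 1 ∧ (Fintype.card R : ℝ) * δ ≤ ε := by
    refine ⟨min 1 (ε / (Fintype.card R + 1)), lt_min one_pos (by positivity), min_le_left _ _, ?_⟩
    calc (Fintype.card R : ℝ) * min 1 (ε / (Fintype.card R + 1)) ≤
        (Fintype.card R : ℝ) * (ε / (Fintype.card R + 1)) :=
          mul_le_mul_of_nonneg_left (min_le_right _ _) (Nat.cast_nonneg _)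
      _ ≤ ((Fintype.card R : ℝ) + 1) * (ε / (Fintype.card R + 1)) := by
          apply mul_le_mul_of_nonneg_right (by linarith) (by positivity)
      _ = ε := by field_simp
  have h : ∀ r, ∃ S : Finset ℕ, 1 - δ ≤ ∑ e ∈ S, lawc (c r) e := by
    intro r
    obtain ⟨S, -, hS⟩ := probc_fin (c r) Set.univ hδ
    simp only [Set.mem_univ, if_true, (hasSum_lawc _).tsum_eq] at hS
    exact ⟨S, hS⟩
  choose S hS using h
  refine ⟨Fintype.piFinset S, ?_⟩
  rw [← prod_univ_sum]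
  have h1 : (1 - δ) ^ Fintype.card R ≤ ∏ r, ∑ e ∈ S r, lawc (c r) e := by
    rw [← card_univ, ← prod_const]
    exact prod_le_prod (fun r _ => by linarith) fun r _ => hS r
  have h2 : 1 - (Fintype.card R : ℝ) * δ ≤ (1 - δ) ^ Fintype.card R := by
    have := one_add_mul_le_pow (show (-2 : ℝ) ≤ -δ by linarith) (Fintype.card R)
    calc 1 - (Fintype.card R : ℝ) * δ = 1 + (Fintype.card R : ℝ) * (-δ) := by ring
      _ ≤ (1 + -δ) ^ Fintype.card R := this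
      _ = (1 - δ) ^ Fintype.card R := by ring
  linarith

theorem Dn_card_le (hk : ringChar k ≠ 2) (Δ : k[X]) (m : ℕ) :
    ((Dn Δ m).card : ℝ) ≤ (Fintype.card k : ℝ) ^ m := by
  have h1 : (Dn Δ m).card ≤ (Mon k m).card := card_le_card (filter_subset _ _)
  rw [Pool.Agent.Y164.PS.card_Mon hk] at h1
  exact_mod_cast h1

end a

/-- **job CLS** -/
theorem t_CLS : S_CLS := by
  intro k _ _ R _ n a N H hcop ε hε
  rcases isEmpty_or_nonempty R with hR | ⟨⟨r0⟩⟩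
  · refine Eventually.of_forall fun m _ σ => ?_
    have e1 : ((Dn (∏ r, Del (a r)) m).filter fun D => ∀ r s, sgD (H r) D s = σ r s) =
        Dn (∏ r, Del (a r)) m := by
      apply filter_true_of_mem
      intro D _ r
      exact isEmptyElim r
    rw [e1]
    simp only [univ_eq_empty, sum_empty, pow_zero, inv_one, one_mul, sub_self, abs_zero]
    positivity
  haveI : ∀ r, Fact (Odd (n r)) := fun r => ⟨(H r).hn⟩
  have hi := (H r0).hm
  have hchar := (H r0).hk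
  have h2 : (2 : k) ≠ 0 := Ring.two_ne_zero hchar
  have hq := Pool.Agent.Y164.HG.four_le h2 hi
  have hF : Fam (Q2 a) := Q2_fam H hcop
  obtain ⟨t, ht⟩ : ∃ t, t = Fintype.card (Σ r, Tau (a r)) := ⟨_, rfl⟩
  have ht' : ∑ r, Fintype.card (Tau (a r)) = t := by rw [ht, Fintype.card_sigma]
  have h2t : (0 : ℝ) < 2 ^ t := by positivity
  have hδ : 0 < ε / 2 ^ t := by positivity
  have hlow : ∀ σ : (∀ r, Tau (a r) → ZMod 2), ∀ᶠ m : ℕ in atTop, (∀ r, Odd (m + N r)) →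
      (1 - ε / 2 ^ t) * ((Dn (∏ r, Del (a r)) m).card : ℝ) ≤
        (2 : ℝ) ^ t * ((ClM H σ m).card : ℝ) := by
    intro σ
    obtain ⟨𝒜, h𝒜⟩ := vec_fin (R := R) (fun r => (Fintype.card (Tau (a r)) : ZMod 2) + ∑ s, σ r s)
      (half_pos hδ)
    have hc := cls_lower H hi hchar hq hF (FractionRing k[X]) (fun x => σ x.1 x.2) 𝒜 (half_pos hδ)
    filter_upwards [hc] with m hm ho
    have h1 := hm ho
    have e2 : ∑ e ∈ 𝒜, ∏ r, u2 bet (e r) (parx (τ := fun r => Tau (a r)) e (fun x => σ x.1 x.2) r) =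
        ∑ e ∈ 𝒜, ∏ r, lawc ((Fintype.card (Tau (a r)) : ZMod 2) + ∑ s, σ r s) (e r) := rfl
    rw [e2, ← ht, ← Dn_eq H] at h1
    have h3 : (((Sf k m).filter (P2a (GoodX (FractionRing k[X]) a 𝒜) (fun x => σ x.1 x.2)
        (gM (datT H 0)) (Q2 a))).card : ℝ) ≤ ((ClM H σ m).card : ℝ) := by
      have : ((Sf k m).filter (P2a (GoodX (FractionRing k[X]) a 𝒜) (fun x => σ x.1 x.2)
        (gM (datT H 0)) (Q2 a))) ⊆ ClM H σ m := by
        intro D hD
        obtain ⟨g1, ⟨g2, g3⟩, -⟩ := mem_filter.1 hD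
        have hD' : D ∈ Dn (∏ r, Del (a r)) m := by
          rw [Dn_eq H]
          exact mem_filter.2 ⟨g1, g2⟩
        exact mem_filter.2 ⟨hD', (gcla_iff H hD' σ).1 g3⟩
      exact_mod_cast card_le_card this
    have h4 : (1 - ε / 2 ^ t) * ((Dn (∏ r, Del (a r)) m).card : ℝ) ≤
        (∑ e ∈ 𝒜, ∏ r, lawc ((Fintype.card (Tau (a r)) : ZMod 2) + ∑ s, σ r s) (e r) -
          ε / 2 ^ t / 2) * ((Dn (∏ r, Del (a r)) m).card : ℝ) := by
      apply mul_le_mul_of_nonneg_right _ (Nat.cast_nonneg _)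
      linarith
    exact h4.trans (h1.trans (mul_le_mul_of_nonneg_left h3 h2t.le))
  have hall : ∀ᶠ m : ℕ in atTop, ∀ σ ∈ (univ : Finset (∀ r, Tau (a r) → ZMod 2)),
      (∀ r, Odd (m + N r)) →
      (1 - ε / 2 ^ t) * ((Dn (∏ r, Del (a r)) m).card : ℝ) ≤
        (2 : ℝ) ^ t * ((ClM H σ m).card : ℝ) := by
    rw [Filter.eventually_all_finset]
    intro σ _
    exact hlow σ
  filter_upwards [hall] with m hm ho σ
  show |((ClM H σ m).card : ℝ) - _| ≤ _
  rw [ht']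
  set T := ((Dn (∏ r, Del (a r)) m).card : ℝ) with hT
  have hT0 : 0 ≤ T := Nat.cast_nonneg _
  have hT1 : T ≤ (Fintype.card k : ℝ) ^ m := Dn_card_le hchar _ m
  have e1 : ε / 2 ^ t ≤ ε := by
    apply div_le_self hε.le
    exact one_le_pow₀ (by norm_num)
  have hA : (1 - ε) * T ≤ (2 : ℝ) ^ t * ((ClM H σ m).card : ℝ) := by
    refine le_trans ?_ (hm σ (mem_univ σ) ho)
    apply mul_le_mul_of_nonneg_right _ hT0
    linarith
  have hB : (2 : ℝ) ^ t * ((ClM H σ m).card : ℝ) ≤ (1 + ε) * T := by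
    have h1 : ∑ σ' ∈ univ.erase σ, (1 - ε / 2 ^ t) * T ≤
        ∑ σ' ∈ univ.erase σ, (2 : ℝ) ^ t * ((ClM H σ' m).card : ℝ) :=
      sum_le_sum fun σ' _ => hm σ' (mem_univ σ') ho
    have h2 : (2 : ℝ) ^ t * ((ClM H σ m).card : ℝ) +
        ∑ σ' ∈ univ.erase σ, (2 : ℝ) ^ t * ((ClM H σ' m).card : ℝ) = 2 ^ t * T := by
      rw [add_sum_erase univ (fun σ' => (2 : ℝ) ^ t * ((ClM H σ' m).card : ℝ)) (mem_univ σ),
        ← mul_sum, hT, ← ClM_sum H m]
      push_cast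
      rfl
    have h3 : ((univ.erase σ : Finset (∀ r, Tau (a r) → ZMod 2)).card : ℝ) = 2 ^ t - 1 := by
      rw [card_erase_of_mem (mem_univ σ), card_univ]
      have h5 : Fintype.card (∀ r, Tau (a r) → ZMod 2) = 2 ^ t := by
        rw [Fintype.card_pi]
        simp only [Fintype.card_fun, ZMod.card]
        rw [prod_pow_eq_pow_sum, ht']
      rw [h5, Nat.cast_sub Nat.one_le_two_pow]
      push_cast
      rfl
    rw [sum_const, nsmul_eq_mul, h3] at h1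
    have h4 : (2 ^ t - 1) * ((1 - ε / 2 ^ t) * T) = 2 ^ t * T - T - (ε - ε / 2 ^ t) * T := by
      have h5 : ε / 2 ^ t * 2 ^ t = ε := div_mul_cancel₀ _ h2t.ne'
      linear_combination (-T) * h5
    have h6 : 0 ≤ ε / 2 ^ t * T := mul_nonneg hδ.le hT0
    nlinarith
  have hC : |(2 : ℝ) ^ t * (((ClM H σ m).card : ℝ) - ((2 : ℝ) ^ t)⁻¹ * T)| ≤ ε * T := by
    have e3 : (2 : ℝ) ^ t * (((ClM H σ m).card : ℝ) - ((2 : ℝ) ^ t)⁻¹ * T) =
        2 ^ t * ((ClM H σ m).card : ℝ) - T := by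
      rw [mul_sub, ← mul_assoc, mul_inv_cancel₀ h2t.ne', one_mul]
    rw [e3, abs_le]
    constructor <;> linarith
  rw [abs_mul, abs_of_pos h2t] at hC
  have h1t : (1 : ℝ) ≤ 2 ^ t := one_le_pow₀ (by norm_num)
  calc |((ClM H σ m).card : ℝ) - ((2 : ℝ) ^ t)⁻¹ * T| ≤
      2 ^ t * |((ClM H σ m).card : ℝ) - ((2 : ℝ) ^ t)⁻¹ * T| :=
        le_mul_of_one_le_left (abs_nonneg _) h1t
    _ ≤ ε * T := hC
    _ ≤ ε * (Fintype.card k : ℝ) ^ m := mul_le_mul_of_nonneg_left hT1 hε.le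

end Pool.Agent.Q269.SX.Cls
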