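import Pool.Agent.Q269.SX.StR
import Pool.Agent.Q269.SX.Lt

/-!
# Project SX (helper269), job FXN: the solutions over the larger field fixed by the Frobenius automorphism
(adapted from `Pool/Agent/Q257/GL/FXS.lean`)
-/

set_option autoImplicit false
set_option linter.all false

open scoped Classical
open Finset Polynomial

namespace Pool.Agent.Q269.SX.Fxn

open Pool.Agent.Q269.GR (F2 cf Dn pr Om ph fp S_FCD S_SYR S_FCT S_PAS)
open Pool.Agent.Q269.GJ (W0 lap eqn Kn KD xb am Exd Ip EQ1 EQ2)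
open Pool.Agent.Q269.SX
open Pool.Agent.Y164.PS (L L_comm)
open Pool.Agent.Y164.HG (Geo Del Tau QQ EW AT BT V Dat kc e2)
open Pool.Agent.Q202.GR (mem_pr)
open Pool.Agent.Q269.SX.Lt (L_ph_it L_low L_sum gcd_odd cast_odd deg_low eT eT_val sum_T gpos fix_iff exj)

section

variable {k k' : Type} [Field k] [Fintype k] [Field k'] [Fintype k'] [Algebra k k']
variable {n : ℕ} {a : Fin n → k[X]} {N : ℕ}

/-- the correspondence of the bad primes -/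
structure Bad (H : Geo a N) (H' : Geo (am k' a) N) (β : Tau a ≃ Tau (am k' a)) : Prop where
  eq : ∀ s : Tau a, QQ (am k' a) (β s) = (QQ a s).map (algebraMap k k') ∧ H'.p (β s) = H.p s ∧
    H'.q (β s) = H.q s ∧ H'.comb.gg (β s) = H.comb.gg s ∧
    (∀ f : k[X], L (f.map (algebraMap k k')) (QQ (am k' a) (β s)) = L f (QQ a s)) ∧
    ph k (QQ (am k' a) (β s)) = QQ (am k' a) (β s) ∧
    (QQ (am k' a) (β s)).natDegree = (QQ a s).natDegree

theorem L_badT (h2 : S_FCT) (h4 : S_SYR) (h5 : S_PAS) (H : Geo a N) (H' : Geo (am k' a) N)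
    (ho : Odd (Module.finrank k k')) {β : Tau a ≃ Tau (am k' a)} (hβ : Bad H H' β)
    (j : k' →ₐ[k] Om k) {P : k[X]} (hm : P.Monic) (hi : Irreducible P) (c : ℕ) (s : Tau a) :
    L ((ph k)^[c] (fp j P)) (QQ (am k' a) (β s)) = L P (QQ a s) ∧
    L (QQ (am k' a) (β s)) ((ph k)^[c] (fp j P)) = L (QQ a s) P := by
  obtain ⟨e1, -⟩ := hβ.eq s
  have h : L (QQ (am k' a) (β s)) ((ph k)^[c] (fp j P)) = L (QQ a s) P := by
    rw [e1, L_low h5 h4 H.hk ho j h2 hm hi c]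
  exact ⟨by rw [L_comm H'.hm, h, L_comm H.hm], h⟩

theorem sum_fiber (ho : Odd (Module.finrank k k')) (m : ℕ) (x : F2) :
    ∑ _c : Fin (Nat.gcd (Module.finrank k k') m), x = x := by
  rw [sum_const, card_univ, Fintype.card_fin, nsmul_eq_mul]
  have e7 : ((Nat.gcd (Module.finrank k k') m : ℕ) : F2) = 1 := cast_odd (gcd_odd ho _)
  rw [e7, one_mul]

theorem sgD_map (h2 : S_FCT) (h3 : S_FCD) (h4 : S_SYR) (h5 : S_PAS) (H : Geo a N) (H' : Geo (am k' a) N)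
    (ho : Odd (Module.finrank k k')) {β : Tau a ≃ Tau (am k' a)} (hβ : Bad H H' β)
    (j : k' →ₐ[k] Om k) {D : k[X]} (hD : D ≠ 0) (s : Tau a) :
    sgD H' (D.map (algebraMap k k')) (β s) = sgD H D s := by
  unfold sgD
  rw [(hβ.eq s).2.2.2.1]
  congr 1
  rw [sum_T h2 h3 j hD]
  refine sum_congr rfl fun P _ => ?_
  obtain ⟨hm, hi⟩ := mem_pr P.2
  have : ∀ c : Fin (Nat.gcd (Module.finrank k k') P.1.natDegree),
      L (eT h2 h3 j hD ⟨P, c⟩).1 (QQ (am k' a) (β s)) = L P.1 (QQ a s) := by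
    intro c
    rw [eT_val]
    exact (L_badT h2 h4 h5 H H' ho hβ j hm hi c.1 s).1
  rw [sum_congr rfl fun c _ => this c]
  exact sum_fiber ho _ _

theorem xb_low (h2 : S_FCT) (h4 : S_SYR) (h5 : S_PAS) (hk : ringChar k ≠ 2)
    (ho : Odd (Module.finrank k k')) (j : k' →ₐ[k] Om k) {P : k[X]} (hm : P.Monic)
    (hi : Irreducible P) (c : ℕ) : xb (am k' a) ((ph k)^[c] (fp j P)) = xb a P := by
  funext l l'
  show L (am k' a l - am k' a l') ((ph k)^[c] (fp j P)) = L (a l - a l') P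
  have : am k' a l - am k' a l' = (a l - a l').map (algebraMap k k') := by
    rw [Polynomial.map_sub]; rfl
  rw [this, L_low h5 h4 hk ho j h2 hm hi c]

theorem eqN1 (h2 : S_FCT) (h3 : S_FCD) (h4 : S_SYR) (h5 : S_PAS) (H : Geo a N) (H' : Geo (am k' a) N)
    (ho : Odd (Module.finrank k k')) {β : Tau a ≃ Tau (am k' a)} (hβ : Bad H H' β)
    (j : k' →ₐ[k] Om k) {D : k[X]} (hD : D ≠ 0) (w : Ip D → EW n) (z : Tau a → F2) (x0 : EW n)
    (w' : Ip (D.map (algebraMap k k')) → EW n) (z' : Tau (am k' a) → F2)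
    (hw : ∀ P c, w' (eT h2 h3 j hD ⟨P, c⟩) = w P) (hz : ∀ s, z' (β s) = z s) (P : Ip D)
    (c : Fin (Nat.gcd (Module.finrank k k') P.1.natDegree)) (l : Fin n) :
    EQ1 H' (D.map (algebraMap k k')) (w', z') x0 (eT h2 h3 j hD ⟨P, c⟩) l =
      EQ1 H D (w, z) x0 P l := by
  obtain ⟨hm, hi⟩ := mem_pr P.2
  unfold EQ1
  have q1 : ∑ T' : Ip (D.map (algebraMap k k')), L T'.1 (eT h2 h3 j hD ⟨P, c⟩).1 *
      (((w', z').1 T').1 l + ((w', z').1 (eT h2 h3 j hD ⟨P, c⟩)).1 l) =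
      ∑ P2 : Ip D, L P2.1 P.1 * (((w, z).1 P2).1 l + ((w, z).1 P).1 l) := by
    rw [sum_T h2 h3 j hD]
    refine sum_congr rfl fun P2 _ => ?_
    obtain ⟨hm2, hi2⟩ := mem_pr P2.2
    show ∑ c2 : Fin (Nat.gcd (Module.finrank k k') P2.1.natDegree),
      L ((ph k)^[c2.1] (fp j P2.1)) ((ph k)^[c.1] (fp j P.1)) *
        ((w' (eT h2 h3 j hD ⟨P2, c2⟩)).1 l + (w' (eT h2 h3 j hD ⟨P, c⟩)).1 l) =
      L P2.1 P.1 * ((w P2).1 l + (w P).1 l)
    simp only [hw]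
    rw [← sum_mul]
    by_cases hne : P2 = P
    · subst hne
      rw [Pool.Agent.Y164.HG.F2_add_self, mul_zero, mul_zero]
    · congr 1
      rw [← L_sum h5 h4 H.hk ho j h2 h3 hm hi hm2 hi2
        (fun h => hne (Subtype.ext h)) c.1, ← Fin.sum_univ_eq_sum_range
        (fun c2 => L ((ph k)^[c2] (fp j P2.1)) ((ph k)^[c.1] (fp j P.1)))]
  have q2 : lap (xb (am k' a) (eT h2 h3 j hD ⟨P, c⟩).1) ((w', z').1 (eT h2 h3 j hD ⟨P, c⟩)).1 l =
      lap (xb a P.1) ((w, z).1 P).1 l := by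
    have e1 : xb (am k' a) (eT h2 h3 j hD ⟨P, c⟩).1 = xb a P.1 := by
      rw [eT_val]
      exact xb_low h2 h4 h5 H.hk ho j hm hi c.1
    rw [e1]
    show lap (xb a P.1) (w' (eT h2 h3 j hD ⟨P, c⟩)).1 l = lap (xb a P.1) (w P).1 l
    rw [hw]
  have q3 : ∑ s' : Tau (am k' a), L (QQ (am k' a) s') (eT h2 h3 j hD ⟨P, c⟩).1 *
        ((w', z').2 s' * e2 (H'.p s') (H'.q s') l) =
      ∑ s : Tau a, L (QQ a s) P.1 * ((w, z).2 s * e2 (H.p s) (H.q s) l) := by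
    rw [← β.sum_comp]
    refine sum_congr rfl fun s _ => ?_
    obtain ⟨e1, e2', e3, e4, e5, e6, e7⟩ := hβ.eq s
    rw [e2', e3, eT_val]
    show L (QQ (am k' a) (β s)) ((ph k)^[c.1] (fp j P.1)) * (z' (β s) * _) = _ * (z s * _)
    rw [hz, (L_badT h2 h4 h5 H H' ho hβ j hm hi c.1 s).2]
  have q4 : (((eT h2 h3 j hD ⟨P, c⟩).1.natDegree : ℕ) : F2) = (P.1.natDegree : F2) := by
    rw [eT_val]
    exact deg_low ho j h2 hm hi c.1
  rw [q1, q2, q3, q4]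

theorem eqN2 (h2 : S_FCT) (h3 : S_FCD) (h4 : S_SYR) (h5 : S_PAS) (H : Geo a N) (H' : Geo (am k' a) N)
    (ho : Odd (Module.finrank k k')) {β : Tau a ≃ Tau (am k' a)} (hβ : Bad H H' β)
    (j : k' →ₐ[k] Om k) {D : k[X]} (hD : D ≠ 0) (w : Ip D → EW n) (z : Tau a → F2) (x0 : EW n)
    (w' : Ip (D.map (algebraMap k k')) → EW n) (z' : Tau (am k' a) → F2)
    (hw : ∀ P c, w' (eT h2 h3 j hD ⟨P, c⟩) = w P) (hz : ∀ s, z' (β s) = z s) (s : Tau a) :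
    EQ2 H' (D.map (algebraMap k k')) (sgD H' (D.map (algebraMap k k'))) (w', z') x0 (β s) =
      EQ2 H D (sgD H D) (w, z) x0 s := by
  obtain ⟨e1, e2', e3, e4, e5, e6, e7⟩ := hβ.eq s
  unfold EQ2
  have q1 : ∑ T : Ip (D.map (algebraMap k k')), L T.1 (QQ (am k' a) (β s)) *
        (((w', z').1 T).1 (H'.p (β s)) + ((w', z').1 T).1 (H'.q (β s))) =
      ∑ P : Ip D, L P.1 (QQ a s) * (((w, z).1 P).1 (H.p s) + ((w, z).1 P).1 (H.q s)) := by
    rw [sum_T h2 h3 j hD, e2', e3]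
    refine sum_congr rfl fun P _ => ?_
    obtain ⟨hm, hi⟩ := mem_pr P.2
    have e8 : ∀ c : Fin (Nat.gcd (Module.finrank k k') P.1.natDegree),
        L (eT h2 h3 j hD ⟨P, c⟩).1 (QQ (am k' a) (β s)) *
          (((w', z').1 (eT h2 h3 j hD ⟨P, c⟩)).1 (H.p s) + ((w', z').1 (eT h2 h3 j hD ⟨P, c⟩)).1 (H.q s)) =
        L P.1 (QQ a s) * ((w P).1 (H.p s) + (w P).1 (H.q s)) := by
      intro c
      rw [eT_val, (L_badT h2 h4 h5 H H' ho hβ j hm hi c.1 s).1]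
      show _ * ((w' (eT h2 h3 j hD ⟨P, c⟩)).1 (H.p s) + (w' (eT h2 h3 j hD ⟨P, c⟩)).1 (H.q s)) = _
      rw [hw]
    rw [sum_congr rfl (fun c _ => e8 c)]
    exact sum_fiber ho _ _
  have q2 : ∑ s' : Tau (am k' a), L (QQ (am k' a) (β s)) (QQ (am k' a) s') *
        ((w', z').2 s' * (e2 (H'.p s') (H'.q s') (H'.p (β s)) + e2 (H'.p s') (H'.q s') (H'.q (β s)))) =
      ∑ s' : Tau a, L (QQ a s) (QQ a s') * ((w, z).2 s' * (e2 (H.p s') (H.q s') (H.p s) +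
        e2 (H.p s') (H.q s') (H.q s))) := by
    rw [← β.sum_comp]
    refine sum_congr rfl fun s' _ => ?_
    obtain ⟨f1, f2, f3, f4, f5, f6, f7⟩ := hβ.eq s'
    rw [f2, f3, e2', e3, e1, f5]
    show _ * (z' (β s') * _) = _ * (z s' * _)
    rw [hz]
  have q3 : ((w', z').2 (β s) : F2) = (w, z).2 s := hz s
  rw [q1, q2, e7, e2', e3, sgD_map h2 h3 h4 h5 H H' ho hβ j hD s, q3]

end

theorem t_FXN (h1 : Pool.Agent.Q269.GJ.S_BAD) (h2 : S_FCT) (h3 : S_FCD) (h4 : S_SYR) (h5 : S_PAS) :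
    S_FXN := by
  intro k k' _ _ _ _ _ n a N H H' hE m D hDn
  have hD : D ≠ 0 := by
    rw [Dn, mem_filter] at hDn
    exact hDn.2.1.ne_zero
  have ho := hE.odd
  haveI : Fact (Odd n) := ⟨H.hn⟩
  obtain ⟨j⟩ := exj (k := k) (k' := k')
  obtain ⟨ι, hι'⟩ := h1 k k' n a N H H' hE
  have hι : Bad H H' ι := ⟨hι'⟩
  set e := eT h2 h3 j hD with he
  refine Nat.card_congr ⟨fun p => ⟨((fun P => p.1.1.1.1 (e ⟨P, ⟨0, gpos P⟩⟩), fun s => p.1.1.1.2 (ι s)),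
    p.1.1.2), ?_, ?_⟩, fun p => ⟨⟨((fun T => p.1.1.1 (e.symm T).1, fun s' => p.1.1.2 (ι.symm s')),
    p.1.2), ?_, ?_⟩, ?_⟩, ?_, ?_⟩
  · intro P l
    have hf := (fix_iff h2 h3 j hD p.1.1.1.1).1 p.2
    have h := eqN1 h2 h3 h4 h5 H H' ho hι j hD (fun P => p.1.1.1.1 (e ⟨P, ⟨0, gpos P⟩⟩))
      (fun s => p.1.1.1.2 (ι s)) p.1.1.2 p.1.1.1.1 p.1.1.1.2 hf (fun s => rfl) P ⟨0, gpos P⟩ l
    rw [← h]
    exact p.1.2.1 _ l
  · intro s
    have hf := (fix_iff h2 h3 j hD p.1.1.1.1).1 p.2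
    have h := eqN2 h2 h3 h4 h5 H H' ho hι j hD (fun P => p.1.1.1.1 (e ⟨P, ⟨0, gpos P⟩⟩))
      (fun s => p.1.1.1.2 (ι s)) p.1.1.2 p.1.1.1.1 p.1.1.1.2 hf (fun s => rfl) s
    rw [← h]
    exact p.1.2.2 _
  · intro T l
    obtain ⟨⟨P, c⟩, rfl⟩ := e.surjective T
    have h := eqN1 h2 h3 h4 h5 H H' ho hι j hD p.1.1.1 p.1.1.2 p.1.2
      (fun T => p.1.1.1 (e.symm T).1) (fun s' => p.1.1.2 (ι.symm s'))
      (fun P c => by rw [he, Equiv.symm_apply_apply]) (fun s => by rw [Equiv.symm_apply_apply]) P c l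
    rw [h]
    exact p.2.1 _ l
  · intro s'
    obtain ⟨s, rfl⟩ := ι.surjective s'
    have h := eqN2 h2 h3 h4 h5 H H' ho hι j hD p.1.1.1 p.1.1.2 p.1.2
      (fun T => p.1.1.1 (e.symm T).1) (fun s' => p.1.1.2 (ι.symm s'))
      (fun P c => by rw [he, Equiv.symm_apply_apply]) (fun s => by rw [Equiv.symm_apply_apply]) s
    rw [h]
    exact p.2.2 _
  · refine (fix_iff h2 h3 j hD _).2 fun P c => ?_
    show p.1.1.1 (e.symm (e ⟨P, c⟩)).1 = p.1.1.1 (e.symm (e ⟨P, ⟨0, gpos P⟩⟩)).1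
    rw [Equiv.symm_apply_apply, Equiv.symm_apply_apply]
  · intro p
    have hf := (fix_iff h2 h3 j hD p.1.1.1.1).1 p.2
    apply Subtype.ext
    apply Subtype.ext
    apply Prod.ext
    · apply Prod.ext
      · funext T
        obtain ⟨⟨P, c⟩, rfl⟩ := e.surjective T
        show p.1.1.1.1 (e ⟨(e.symm (e ⟨P, c⟩)).1, ⟨0, gpos _⟩⟩) = p.1.1.1.1 (e ⟨P, c⟩)
        rw [hf P c, Equiv.symm_apply_apply]
      · funext s'
        show p.1.1.1.2 (ι (ι.symm s')) = p.1.1.1.2 s'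
        rw [Equiv.apply_symm_apply]
    · rfl
  · intro p
    apply Subtype.ext
    apply Prod.ext
    · apply Prod.ext
      · funext P
        show p.1.1.1 (e.symm (e ⟨P, ⟨0, gpos P⟩⟩)).1 = p.1.1.1 P
        rw [Equiv.symm_apply_apply]
      · funext s
        show p.1.1.2 (ι.symm (ι s)) = p.1.1.2 s
        rw [Equiv.symm_apply_apply]
    · rfl

end Pool.Agent.Q269.SX.Fxn
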