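import Pool.Agent.Q269.SX.StR
import Pool.Agent.Q269.SX.Lt

/-!
# Project SX (helper269), job NKN: the decomposition of the solutions over the larger field
(adapted from `Pool/Agent/Q150/GL/NKS.lean`, `Pool/Agent/Q150/GL/NksA.lean`)
-/

set_option autoImplicit false
set_option linter.all false

open scoped Classical
open Finset Polynomial

namespace Pool.Agent.Q269.SX.Nkn.NK

open Pool.Agent.Q269.GR (F2 cf Dn pr Om ph fp S_FCD S_SYR S_FCT S_PAS)
open Pool.Agent.Q269.GJ (W0 lap eqn Kn KD xb am Exd Ip EQ1 EQ2)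
open Pool.Agent.Q269.SX
open Pool.Agent.Y164.PS (L L_comm)
open Pool.Agent.Y164.HG (Geo Del Tau QQ EW AT BT V Dat kc e2 F2_add_self W_add_self)
open Pool.Agent.Q202.GR (mem_pr)
open Pool.Agent.Q16.GR (ph_natDegree ph_alg)
open Pool.Agent.Q269.SX.Lt (pm pm_val pm_iter pm_fin L_ph)

section NN

variable {ι W : Type} [AddCommGroup W]

/-- the sums over the orbits -/
def NN (θ : ι → ι) (e : ℕ) (w : ι → W) : ι → W := fun i => ∑ c ∈ range e, w (θ^[c] i)

theorem NN_add (θ : ι → ι) (e : ℕ) (w w' : ι → W) : NN θ e (w + w') = NN θ e w + NN θ e w' := by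
  funext i
  simp only [NN, Pi.add_apply, sum_add_distrib]

theorem NN_th (θ : ι → ι) (e : ℕ) (w : ι → W) (hθ : ∀ i, θ^[e] i = i) (i : ι) :
    NN θ e w (θ i) = NN θ e w i := by
  have h1 := sum_range_succ' (fun c => w (θ^[c] i)) e
  have h2 := sum_range_succ (fun c => w (θ^[c] i)) e
  rw [h1] at h2
  have h3 : w (θ^[e] i) = w (θ^[0] i) := by rw [hθ i]; rfl
  rw [h3] at h2
  have h4 := add_right_cancel h2
  simp only [NN]
  rw [← h4]
  rfl

theorem odd_smul {e : ℕ} (he : Odd e) (x : W) (hx : x + x = 0) : e • x = x := by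
  obtain ⟨m, rfl⟩ := he
  rw [add_smul, mul_comm, mul_smul, one_smul, two_nsmul, hx, smul_zero, zero_add]

theorem NN_fix (hW : ∀ x : W, x + x = 0) (θ : ι → ι) {e : ℕ} (he : Odd e) (w : ι → W)
    (hw : ∀ i, w (θ i) = w i) : NN θ e w = w := by
  funext i
  have h1 : ∀ c : ℕ, w (θ^[c] i) = w i := by
    intro c
    induction c with
    | zero => rfl
    | succ c ih => rw [Function.iterate_succ_apply', hw, ih]
  simp only [NN, h1, sum_const, card_range]
  exact odd_smul he _ (hW _)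

end NN

section one

variable {K : Type} [Field K] [Fintype K] {n : ℕ} {a : Fin n → K[X]} {N : ℕ} (H : Geo a N) (D : K[X])

theorem EQ1_add (w w' : V (EW n) (Ip D) (Tau a)) (x x' : EW n) (P : Ip D) (l : Fin n) :
    EQ1 H D (w + w') (x + x') P l = EQ1 H D w x P l + EQ1 H D w' x' P l := by
  unfold EQ1
  have h1 : ∀ Q : Ip D, ((w + w').1 Q).1 l = (w.1 Q).1 l + (w'.1 Q).1 l := fun _ => rfl
  have h2 : lap (xb a P.1) ((w + w').1 P).1 l =
      lap (xb a P.1) (w.1 P).1 l + lap (xb a P.1) (w'.1 P).1 l := by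
    have h : ((w + w').1 P).1 = (w.1 P).1 + (w'.1 P).1 := rfl
    rw [h, Pool.Agent.Q269.GJ.lap_add]
    rfl
  have h3 : ∀ s, (w + w').2 s = w.2 s + w'.2 s := fun _ => rfl
  have h4 : (x + x').1 l = x.1 l + x'.1 l := rfl
  rw [h2, h4]
  simp only [h1, h3]
  have e1 : ∑ P' : Ip D, L P'.1 P.1 * ((w.1 P').1 l + (w'.1 P').1 l + ((w.1 P).1 l + (w'.1 P).1 l)) =
      ∑ P' : Ip D, L P'.1 P.1 * ((w.1 P').1 l + (w.1 P).1 l) +
        ∑ P' : Ip D, L P'.1 P.1 * ((w'.1 P').1 l + (w'.1 P).1 l) := by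
    rw [← sum_add_distrib]
    refine sum_congr rfl fun _ _ => ?_
    ring
  have e3 : ∑ s : Tau a, L (QQ a s) P.1 * ((w.2 s + w'.2 s) * e2 (H.p s) (H.q s) l) =
      ∑ s : Tau a, L (QQ a s) P.1 * (w.2 s * e2 (H.p s) (H.q s) l) +
        ∑ s : Tau a, L (QQ a s) P.1 * (w'.2 s * e2 (H.p s) (H.q s) l) := by
    rw [← sum_add_distrib]
    refine sum_congr rfl fun _ _ => ?_
    ring
  rw [e1, e3]
  ring

theorem EQ2_add (σ : Tau a → F2) (w w' : V (EW n) (Ip D) (Tau a)) (x x' : EW n) (s : Tau a) :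
    EQ2 H D σ (w + w') (x + x') s = EQ2 H D σ w x s + EQ2 H D σ w' x' s := by
  unfold EQ2
  have h1 : ∀ (Q : Ip D) (l : Fin n), ((w + w').1 Q).1 l = (w.1 Q).1 l + (w'.1 Q).1 l := fun _ _ => rfl
  have h3 : ∀ s, (w + w').2 s = w.2 s + w'.2 s := fun _ => rfl
  have h4 : ∀ l, (x + x').1 l = x.1 l + x'.1 l := fun _ => rfl
  simp only [h1, h3, h4]
  have e1 : ∑ P : Ip D, L P.1 (QQ a s) * ((w.1 P).1 (H.p s) + (w'.1 P).1 (H.p s) +
        ((w.1 P).1 (H.q s) + (w'.1 P).1 (H.q s))) =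
      ∑ P : Ip D, L P.1 (QQ a s) * ((w.1 P).1 (H.p s) + (w.1 P).1 (H.q s)) +
        ∑ P : Ip D, L P.1 (QQ a s) * ((w'.1 P).1 (H.p s) + (w'.1 P).1 (H.q s)) := by
    rw [← sum_add_distrib]
    refine sum_congr rfl fun _ _ => ?_
    ring
  have e3 : ∑ s' : Tau a, L (QQ a s) (QQ a s') * ((w.2 s' + w'.2 s') * (e2 (H.p s') (H.q s') (H.p s) +
        e2 (H.p s') (H.q s') (H.q s))) =
      ∑ s' : Tau a, L (QQ a s) (QQ a s') * (w.2 s' * (e2 (H.p s') (H.q s') (H.p s) +
        e2 (H.p s') (H.q s') (H.q s))) +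
      ∑ s' : Tau a, L (QQ a s) (QQ a s') * (w'.2 s' * (e2 (H.p s') (H.q s') (H.p s) +
        e2 (H.p s') (H.q s') (H.q s))) := by
    rw [← sum_add_distrib]
    refine sum_congr rfl fun _ _ => ?_
    ring
  rw [e1, e3]
  ring

/-- a solution -/
def PP (p : V (EW n) (Ip D) (Tau a) × EW n) : Prop :=
  (∀ P l, EQ1 H D p.1 p.2 P l = 0) ∧ ∀ s, EQ2 H D (sgD H D) p.1 p.2 s = 0

variable {H D}

theorem PP_add {p q : V (EW n) (Ip D) (Tau a) × EW n} (hp : PP H D p) (hq : PP H D q) :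
    PP H D (p + q) := by
  constructor
  · intro P l
    rw [Prod.fst_add, Prod.snd_add, EQ1_add, hp.1, hq.1, add_zero]
  · intro s
    rw [Prod.fst_add, Prod.snd_add, EQ2_add, hp.2, hq.2, add_zero]

theorem EQ1_zero (P : Ip D) (l : Fin n) : EQ1 H D (0 : V (EW n) (Ip D) (Tau a)) 0 P l = 0 := by
  have h := EQ1_add H D (0 : V (EW n) (Ip D) (Tau a)) 0 0 0 P l
  rw [add_zero, add_zero, F2_add_self] at h
  exact h

theorem EQ2_zero (σ : Tau a → F2) (s : Tau a) : EQ2 H D σ (0 : V (EW n) (Ip D) (Tau a)) 0 s = 0 := by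
  have h := EQ2_add H D σ (0 : V (EW n) (Ip D) (Tau a)) 0 0 0 s
  rw [add_zero, add_zero, F2_add_self] at h
  exact h

/-- the automorphism -/
structure Th (H : Geo a N) (D : K[X]) (θ : Ip D → Ip D) : Prop where
  hb : Function.Bijective θ
  hA : ∀ i j, L (θ i).1 (θ j).1 = L i.1 j.1
  hX : ∀ i, xb a (θ i).1 = xb a i.1
  hB : ∀ i (s : Tau a), L (θ i).1 (QQ a s) = L i.1 (QQ a s)
  hB' : ∀ i (s : Tau a), L (QQ a s) (θ i).1 = L (QQ a s) i.1
  hd : ∀ i, (((θ i).1.natDegree : ℕ) : F2) = ((i.1.natDegree : ℕ) : F2)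

theorem EQ1_th {θ : Ip D → Ip D} (t : Th H D θ) (w : Ip D → EW n) (z : Tau a → F2)
    (x : EW n) (i : Ip D) (l : Fin n) :
    EQ1 H D ((fun j => w (θ j), z) : V (EW n) (Ip D) (Tau a)) x i l =
      EQ1 H D ((w, z) : V (EW n) (Ip D) (Tau a)) x (θ i) l := by
  unfold EQ1
  have h1 : ∑ j : Ip D, L j.1 i.1 * ((w (θ j)).1 l + (w (θ i)).1 l) =
      ∑ j : Ip D, L j.1 (θ i).1 * ((w j).1 l + (w (θ i)).1 l) := by
    rw [← Function.Bijective.sum_comp t.hb (fun j => L j.1 (θ i).1 * ((w j).1 l + (w (θ i)).1 l))]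
    exact sum_congr rfl fun j _ => by rw [t.hA]
  have h2 : ∀ s : Tau a, L (QQ a s) (θ i).1 = L (QQ a s) i.1 := fun s => t.hB' i s
  show ∑ j : Ip D, L j.1 i.1 * ((w (θ j)).1 l + (w (θ i)).1 l) + lap (xb a i.1) (w (θ i)).1 l + _ + _ =
    ∑ j : Ip D, L j.1 (θ i).1 * ((w j).1 l + (w (θ i)).1 l) + lap (xb a (θ i).1) (w (θ i)).1 l + _ + _
  rw [h1, t.hX, t.hd]
  simp only [h2]

theorem EQ2_th {θ : Ip D → Ip D} (t : Th H D θ) (σ : Tau a → F2) (w : Ip D → EW n) (z : Tau a → F2)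
    (x : EW n) (s : Tau a) :
    EQ2 H D σ ((fun j => w (θ j), z) : V (EW n) (Ip D) (Tau a)) x s =
      EQ2 H D σ ((w, z) : V (EW n) (Ip D) (Tau a)) x s := by
  unfold EQ2
  have h1 : ∑ j : Ip D, L j.1 (QQ a s) * ((w (θ j)).1 (H.p s) + (w (θ j)).1 (H.q s)) =
      ∑ j : Ip D, L j.1 (QQ a s) * ((w j).1 (H.p s) + (w j).1 (H.q s)) := by
    rw [← Function.Bijective.sum_comp t.hb
      (fun j => L j.1 (QQ a s) * ((w j).1 (H.p s) + (w j).1 (H.q s)))]
    exact sum_congr rfl fun j _ => by rw [t.hB]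
  show _ + ∑ j : Ip D, L j.1 (QQ a s) * ((w (θ j)).1 (H.p s) + (w (θ j)).1 (H.q s)) + _ + _ =
    _ + ∑ j : Ip D, L j.1 (QQ a s) * ((w j).1 (H.p s) + (w j).1 (H.q s)) + _ + _
  rw [h1]

theorem PP_th {θ : Ip D → Ip D} (t : Th H D θ) {w : Ip D → EW n} {z : Tau a → F2}
    {x : EW n} (h : PP H D ((w, z), x)) : PP H D ((fun j => w (θ j), z), x) := by
  constructor
  · intro i l
    show EQ1 H D ((fun j => w (θ j), z) : V (EW n) (Ip D) (Tau a)) x i l = 0
    rw [EQ1_th t]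
    exact h.1 _ l
  · intro s
    show EQ2 H D (sgD H D) ((fun j => w (θ j), z) : V (EW n) (Ip D) (Tau a)) x s = 0
    rw [EQ2_th t]
    exact h.2 _

theorem PP_iter {θ : Ip D → Ip D} (t : Th H D θ) {w : Ip D → EW n} {z : Tau a → F2}
    {x : EW n} (h : PP H D ((w, z), x)) (c : ℕ) : PP H D ((fun j => w (θ^[c] j), z), x) := by
  induction c with
  | zero => exact h
  | succ c ih =>
    have := PP_th t ih
    exact this

theorem PP_sum {θ : Ip D → Ip D} (t : Th H D θ) {w : Ip D → EW n} {z : Tau a → F2}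
    {x : EW n} (h : PP H D ((w, z), x)) (m : ℕ) :
    PP H D ((NN θ m w, fun s => m • z s), m • x) := by
  induction m with
  | zero =>
    have e : (((NN θ 0 w, fun s => 0 • z s), 0 • x) : V (EW n) (Ip D) (Tau a) × EW n) = (0, 0) := by
      apply Prod.ext
      · apply Prod.ext
        · funext i
          rfl
        · funext s
          exact zero_smul _ _
      · exact zero_smul _ _
    rw [e]
    exact ⟨fun i l => EQ1_zero i l, fun s => EQ2_zero _ s⟩
  | succ m ih =>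
    have h1 := PP_add ih (PP_iter t h m)
    have e : (((NN θ (m + 1) w, fun s => (m + 1) • z s), (m + 1) • x) : V (EW n) (Ip D) (Tau a) × EW n) =
        ((NN θ m w, fun s => m • z s), m • x) + ((fun j => w (θ^[m] j), z), x) := by
      apply Prod.ext
      · apply Prod.ext
        · funext i
          show ∑ c ∈ range (m + 1), w (θ^[c] i) = ∑ c ∈ range m, w (θ^[c] i) + w (θ^[m] i)
          rw [sum_range_succ]
        · funext s
          exact succ_nsmul _ _
      · exact succ_nsmul _ _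
    rw [e]
    exact h1

theorem PP_NN {θ : Ip D → Ip D} (t : Th H D θ) {e : ℕ} (he : Odd e) {w : Ip D → EW n} {z : Tau a → F2}
    {x : EW n} (h : PP H D ((w, z), x)) : PP H D ((NN θ e w, z), x) := by
  have h1 := PP_sum t h e
  have e1 : (fun s => e • z s) = z := by
    funext s
    exact odd_smul he _ (F2_add_self _)
  rw [e1, odd_smul he x (W_add_self x)] at h1
  exact h1

theorem EQ2_ker {θ : Ip D → Ip D} (t : Th H D θ) {e : ℕ} (he : Odd e)
    {w : Ip D → EW n} (h : NN θ e w = 0) (σ : Tau a → F2) (s : Tau a) :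
    EQ2 H D σ ((w, 0) : V (EW n) (Ip D) (Tau a)) 0 s = 0 := by
  have hB' : ∀ (c : ℕ) i, L ((θ^[c] i : Ip D).1) (QQ a s) = L i.1 (QQ a s) := by
    intro c i
    induction c with
    | zero => rfl
    | succ c ih => rw [Function.iterate_succ_apply', t.hB, ih]
  set S : F2 := ∑ i : Ip D, L i.1 (QQ a s) * ((w i).1 (H.p s) + (w i).1 (H.q s)) with hS
  have h1 : ∀ c : ℕ, S = ∑ i : Ip D, L i.1 (QQ a s) *
      ((w (θ^[c] i)).1 (H.p s) + (w (θ^[c] i)).1 (H.q s)) := by
    intro c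
    rw [hS, ← Function.Bijective.sum_comp (t.hb.iterate c)
      (fun i => L i.1 (QQ a s) * ((w i).1 (H.p s) + (w i).1 (H.q s)))]
    exact sum_congr rfl fun j _ => by rw [hB']
  have hS0 : S = 0 := by
    rw [← odd_smul he S (F2_add_self _)]
    have h2 : e • S = ∑ c ∈ range e, ∑ i : Ip D, L i.1 (QQ a s) *
        ((w (θ^[c] i)).1 (H.p s) + (w (θ^[c] i)).1 (H.q s)) := by
      have : e • S = ∑ _c ∈ range e, S := by rw [sum_const, card_range]
      rw [this]
      exact sum_congr rfl fun c _ => h1 c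
    rw [h2, sum_comm]
    refine sum_eq_zero fun i _ => ?_
    rw [← mul_sum, sum_add_distrib]
    have h3 : ∑ c ∈ range e, w (θ^[c] i) = 0 := congrFun h i
    have h4 : ∀ l, ∑ c ∈ range e, (w (θ^[c] i)).1 l = 0 := by
      intro l
      have h5 := congrArg (fun v : EW n => v.1 l) h3
      have h6 : (fun v : EW n => v.1 l) (∑ c ∈ range e, w (θ^[c] i)) =
          ∑ c ∈ range e, (w (θ^[c] i)).1 l := by
        show (∑ c ∈ range e, w (θ^[c] i) : EW n).1 l = _
        rw [AddSubmonoidClass.coe_finset_sum, Finset.sum_apply]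
      exact h6.symm.trans h5
    rw [h4, h4, add_zero, mul_zero]
  unfold EQ2
  have z1 : ∀ s', ((w, 0) : V (EW n) (Ip D) (Tau a)).2 s' = 0 := fun _ => rfl
  have z2 : ∀ l, (0 : EW n).1 l = 0 := fun _ => rfl
  have z3 : ∀ s' : Tau a, ((0 : Tau a → F2) s' : F2) = 0 := fun _ => rfl
  simp only [z1, z2, z3, zero_mul, mul_zero, sum_const_zero, add_zero, zero_add]
  exact hS0

/-- the decomposition -/
theorem card_dec {θ : Ip D → Ip D} (t : Th H D θ) {e : ℕ} (he : Odd e)
    (hθ : ∀ i, θ^[e] i = i) :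
    Nat.card (SolN H D) = Nat.card {p : SolN H D // ∀ i, p.1.1.1 (θ i) = p.1.1.1 i} *
      Nat.card {w : Ip D → EW n // (∀ i l, EQ1 H D ((w, 0) : V (EW n) (Ip D) (Tau a)) 0 i l = 0) ∧
        NN θ e w = 0} := by
  have hb := t.hb
  rw [← Nat.card_prod]
  refine Nat.card_congr ?_
  have hW : ∀ x : EW n, x + x = 0 := fun x => W_add_self x
  have hcancel : ∀ x y : Ip D → EW n, x + (x + y) = y := by
    intro x y
    funext i
    show x i + (x i + y i) = y i
    rw [← add_assoc, hW, zero_add]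
  refine ⟨fun p => (⟨⟨((NN θ e p.1.1.1, p.1.1.2), p.1.2), PP_NN t he p.2⟩, ?_⟩,
      ⟨NN θ e p.1.1.1 + p.1.1.1, ?_, ?_⟩),
    fun q => ⟨((q.1.1.1.1.1 + q.2.1, q.1.1.1.1.2), q.1.1.1.2), ?_⟩, ?_, ?_⟩
  · intro i
    exact NN_th θ e p.1.1.1 hθ i
  · intro i l
    have h1 := PP_add (PP_NN t he p.2) p.2
    have h2 := h1.1 i l
    have e1 : ((((NN θ e p.1.1.1, p.1.1.2), p.1.2) : V (EW n) (Ip D) (Tau a) × EW n) + p.1) =
        ((NN θ e p.1.1.1 + p.1.1.1, 0), 0) := by
      apply Prod.ext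
      · apply Prod.ext
        · rfl
        · funext s
          exact F2_add_self _
      · exact W_add_self _
    have h3 : PP H D ((((NN θ e p.1.1.1, p.1.1.2), p.1.2) : V (EW n) (Ip D) (Tau a) × EW n) + p.1) := h1
    rw [e1] at h3
    exact h3.1 i l
  · rw [NN_add]
    have h1 : NN θ e (NN θ e p.1.1.1) = NN θ e p.1.1.1 :=
      NN_fix hW θ he _ (NN_th θ e p.1.1.1 hθ)
    rw [h1]
    funext i
    exact W_add_self _
  · have h1 : PP H D (((q.2.1, 0), 0) : V (EW n) (Ip D) (Tau a) × EW n) :=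
      ⟨q.2.2.1, fun s => EQ2_ker t he q.2.2.2 _ s⟩
    have h2 : PP H D q.1.1.1 := q.1.1.2
    have h3 := PP_add h2 h1
    have e1 : (q.1.1.1 + (((q.2.1, 0), 0) : V (EW n) (Ip D) (Tau a) × EW n)) =
        ((q.1.1.1.1.1 + q.2.1, q.1.1.1.1.2), q.1.1.1.2) := by
      apply Prod.ext
      · apply Prod.ext
        · rfl
        · exact add_zero _
      · exact add_zero _
    rw [e1] at h3
    exact h3
  · intro p
    apply Subtype.ext
    apply Prod.ext
    · apply Prod.ext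
      · exact hcancel _ _
      · rfl
    · rfl
  · intro q
    have h1 : NN θ e (q.1.1.1.1.1 + q.2.1) = q.1.1.1.1.1 := by
      rw [NN_add, q.2.2.2, add_zero, NN_fix hW θ he _ q.1.2]
    apply Prod.ext
    · apply Subtype.ext
      apply Subtype.ext
      apply Prod.ext
      · apply Prod.ext
        · exact h1
        · rfl
      · rfl
    · apply Subtype.ext
      show NN θ e (q.1.1.1.1.1 + q.2.1) + (q.1.1.1.1.1 + q.2.1) = q.2.1
      rw [h1]
      exact hcancel _ _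

/-- the equation is that of the system -/
theorem eqn_EQ1 (w : Ip D → EW n) (w' : Ip D → W0 n F2) (hw : ∀ P, (w' P).1 = (w P).1) (P : Ip D)
    (l : Fin n) :
    eqn (F := F2) (fun i j : Ip D => cf (L j.1 i.1))
      (fun i : Ip D => cf (∑ j : Ip D, if j = i then 0 else L j.1 i.1)) (fun i : Ip D => xb a i.1) w' P l =
    EQ1 H D ((w, 0) : V (EW n) (Ip D) (Tau a)) 0 P l := by
  have hcf : ∀ x : F2, (cf x : F2) = x := fun x => rfl
  unfold eqn EQ1
  have z1 : ∀ s', ((w, 0) : V (EW n) (Ip D) (Tau a)).2 s' = 0 := fun _ => rfl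
  have z2 : (0 : EW n).1 l = 0 := rfl
  have z3 : ∀ s' : Tau a, ((0 : Tau a → F2) s' : F2) = 0 := fun _ => rfl
  simp only [z1, z2, z3, zero_mul, mul_zero, sum_const_zero, add_zero, Pi.add_apply, Finset.sum_apply,
    Pi.smul_apply, smul_eq_mul, hw, hcf]
  congr 1
  rw [sum_mul, ← sum_add_distrib]
  refine sum_congr rfl fun j _ => ?_
  by_cases hji : j = P
  · rw [if_pos hji, zero_mul, zero_mul, add_zero, hji, F2_add_self, mul_zero]
  · rw [if_neg hji, mul_add]

end one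

section two

variable {k k' : Type} [Field k] [Fintype k] [Field k'] [Fintype k'] [Algebra k k'] {n : ℕ}

theorem xb_pm' (h : S_PAS) (hk : ringChar k ≠ 2) (a : Fin n → k[X]) {D : k[X]}
    (hD : D ≠ 0) (T : Ip (D.map (algebraMap k k'))) :
    xb (am k' a) (pm hD T).1 = xb (am k' a) T.1 := by
  obtain ⟨hm, hi⟩ := mem_pr T.2
  funext l l'
  show L (am k' a l - am k' a l') (pm hD T).1 = L (am k' a l - am k' a l') T.1
  have : am k' a l - am k' a l' = (a l - a l').map (algebraMap k k') := by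
    rw [Polynomial.map_sub]; rfl
  rw [this, pm_val]
  conv_lhs => rw [← ph_alg (k := k) (k' := k') (a l - a l')]
  exact L_ph h hk _ _ hm hi

theorem mem_NmN' {D : k[X]} (hD : D ≠ 0) (w : Ip (D.map (algebraMap k k')) → W0 n F2) :
    w ∈ NmN F2 k n (D.map (algebraMap k k')) ↔
      NN (fun T => pm hD T) (Module.finrank k k') w = 0 := by
  constructor
  · intro h
    funext T
    exact h (fun c => (fun T => pm hD T)^[c] T) fun c => by
      rw [Function.iterate_succ_apply']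
      rfl
  · intro h f hf
    have h1 : ∀ c, f c = (fun T => pm hD T)^[c] (f 0) := by
      intro c
      induction c with
      | zero => rfl
      | succ c ih =>
        rw [Function.iterate_succ_apply', ← ih]
        apply Subtype.ext
        exact hf c
    have h2 : ∑ c ∈ range (Module.finrank k k'), w ((fun T => pm hD T)^[c] (f 0)) = 0 := congrFun h (f 0)
    rw [← h2]
    exact sum_congr rfl fun c _ => by rw [← h1]

end two

end Pool.Agent.Q269.SX.Nkn.NK

namespace Pool.Agent.Q269.SX.Nkn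

open Pool.Agent.Q269.GR (F2 cf Dn pr Om ph fp S_FCD S_SYR S_FCT S_PAS)
open Pool.Agent.Q269.GJ (W0 lap eqn Kn KD xb am Exd Ip EQ1 EQ2)
open Pool.Agent.Q269.SX
open Pool.Agent.Y164.PS (L L_comm)
open Pool.Agent.Y164.HG (Geo Del Tau QQ EW AT BT V Dat kc e2 F2_add_self W_add_self)
open Pool.Agent.Q202.GR (mem_pr)
open Pool.Agent.Q16.GR (ph_natDegree ph_alg)
open Pool.Agent.Q269.SX.Lt (pm pm_val pm_iter pm_fin L_ph)
open Pool.Agent.Q269.SX.Nkn.NK

/-- **NKN** -/
theorem t_NKN (h1 : Pool.Agent.Q269.GJ.S_BAD) (h2 : S_PAS) (h3 : S_FCD) (h4 : S_SYR) : S_NKN := by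
  intro k k' _ _ _ _ _ n a N H H' hE m D hDn
  have hD0 : D ≠ 0 := by
    rw [Dn, mem_filter] at hDn
    exact hDn.2.1.ne_zero
  have ho := hE.odd
  haveI : Fact (Odd n) := ⟨H.hn⟩
  obtain ⟨β, hβ⟩ := h1 k k' n a N H H' hE
  let θ : Ip (D.map (algebraMap k k')) → Ip (D.map (algebraMap k k')) := fun T => pm hD0 T
  have hm := fun T : Ip (D.map (algebraMap k k')) => mem_pr T.2
  have hB : ∀ (i : Ip (D.map (algebraMap k k'))) (s : Tau (am k' a)),
      L (θ i).1 (QQ (am k' a) s) = L i.1 (QQ (am k' a) s) := by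
    intro i s
    obtain ⟨s', rfl⟩ := β.surjective s
    obtain ⟨e1, -, -, -, -, e6, -⟩ := hβ s'
    have hQ := H'.mem.1 (β s').2
    have h5 := L_ph h2 H.hk i.1 (QQ (am k' a) (β s')) hQ.1 hQ.2.1
    rw [e6] at h5
    exact h5
  have t : Th H' (D.map (algebraMap k k')) θ := by
    refine ⟨(pm hD0).bijective, fun i j => L_ph h2 H.hk i.1 j.1 (hm j).1 (hm j).2,
      fun i => xb_pm' h2 H.hk a hD0 i, hB, fun i s => ?_, fun i => ?_⟩
    · rw [L_comm H'.hm, hB i s, L_comm H'.hm]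
    · show (((ph k i.1).natDegree : ℕ) : F2) = ((i.1.natDegree : ℕ) : F2)
      rw [ph_natDegree]
  have hord : ∀ i, θ^[Module.finrank k k'] i = i := fun i => pm_fin hD0 i
  have hdec := card_dec t ho hord
  have e1 : Nat.card {q : SolN H' (D.map (algebraMap k k')) //
      ∀ T T' : Ip (D.map (algebraMap k k')), T'.1 = ph k T.1 → q.1.1.1 T' = q.1.1.1 T} =
      Nat.card {p : SolN H' (D.map (algebraMap k k')) // ∀ i, p.1.1.1 (θ i) = p.1.1.1 i} := by
    refine Nat.card_congr (Equiv.subtypeEquivRight fun p => ?_)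
    constructor
    · intro h i
      exact h i (θ i) rfl
    · intro h T T' hT
      have e : T' = θ T := Subtype.ext hT
      rw [e]
      exact h T
  have e2 : 2 ^ Module.finrank F2 ↥(KSn F2 (am k' a) (D.map (algebraMap k k')) ⊓
      NmN F2 k n (D.map (algebraMap k k'))) =
      Nat.card {w : Ip (D.map (algebraMap k k')) → EW n //
        (∀ i l, EQ1 H' (D.map (algebraMap k k'))
          ((w, 0) : V (EW n) (Ip (D.map (algebraMap k k'))) (Tau (am k' a))) 0 i l = 0) ∧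
        NN θ (Module.finrank k k') w = 0} := by
    have h5 : Nat.card F2 = 2 := Nat.card_zmod 2
    have h6 := Module.natCard_eq_pow_finrank (K := F2) (V := ↥(KSn F2 (am k' a) (D.map (algebraMap k k')) ⊓
      NmN F2 k n (D.map (algebraMap k k'))))
    rw [h5] at h6
    rw [← h6]
    have hval : ∀ w : Ip (D.map (algebraMap k k')) → W0 n F2,
        w ∈ KSn F2 (am k' a) (D.map (algebraMap k k')) ⊓ NmN F2 k n (D.map (algebraMap k k')) ↔
        (∀ i l, EQ1 H' (D.map (algebraMap k k'))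
          ((fun P => (⟨(w P).1, (w P).2⟩ : EW n), 0) :
            V (EW n) (Ip (D.map (algebraMap k k'))) (Tau (am k' a))) 0 i l = 0) ∧
        NN θ (Module.finrank k k') w = 0 := by
      intro w
      rw [Submodule.mem_inf, mem_NmN' hD0 w]
      refine and_congr ?_ Iff.rfl
      constructor
      · intro h i l
        rw [← eqn_EQ1 (H := H') (fun P => (⟨(w P).1, (w P).2⟩ : EW n)) w (fun _ => rfl) i l]
        exact congrFun (h i) l
      · intro h i
        funext l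
        have := h i l
        rw [← eqn_EQ1 (H := H') (fun P => (⟨(w P).1, (w P).2⟩ : EW n)) w (fun _ => rfl) i l] at this
        exact this
    refine Nat.card_congr ⟨fun w => ⟨fun P => (⟨(w.1 P).1, (w.1 P).2⟩ : EW n), ((hval w.1).1 w.2).1, ?_⟩,
      fun w => ⟨fun P => (⟨(w.1 P).1, (w.1 P).2⟩ : W0 n F2), (hval _).2 ⟨w.2.1, ?_⟩⟩,
      fun w => rfl, fun w => rfl⟩
    · exact ((hval w.1).1 w.2).2
    · exact w.2.2
  rw [e1, e2]
  exact hdec

end Pool.Agent.Q269.SX.Nkn
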