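import Pool.Agent.Q269.SX.StR
import Pool.Agent.Q269.SX.Lt

/-! Project SX (helper269), job SMN: the number of the solutions with vanishing sums over the orbits
(adapted from the job SUM of project GL by helper280). -/

set_option autoImplicit false
set_option linter.all false

open scoped Classical
open Finset Polynomial

namespace Pool.Agent.Q269.SX.Smn

open Pool.Agent.Q269.GR (F2 cf Dn pr ph Fr xi S_XIR)
open Pool.Agent.Q269.GJ (W0 KD am)
open Pool.Agent.Y164.HG (Del)
open Pool.Agent.Q269.SX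
open Pool.Agent.Q269.SX.Lt (sum_roots sum_prim two_F)

/-- **SMN** -/
theorem t_SMN (h1 : S_BCN) (h2 : S_KSN) (h3 : S_ZTN) (h5 : S_XIR) : S_SMN := by
  intro k k' _ _ _ _ _ hk hm hodd n a hab m D hD
  have hD0 : D ≠ 0 := by
    rw [Dn, mem_filter] at hD
    exact hD.2.1.ne_zero
  have he : 0 < Module.finrank k k' := hodd.pos
  haveI : NeZero ((Module.finrank k k' : ℕ) : AlgebraicClosure F2) := by
    refine ⟨fun h => ?_⟩
    obtain ⟨m, hm⟩ := hodd
    rw [hm] at h
    push_cast at h
    rw [two_F, zero_mul, zero_add] at h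
    exact one_ne_zero h
  obtain ⟨ζ, hζ⟩ := HasEnoughRootsOfUnity.exists_primitiveRoot (AlgebraicClosure F2) (Module.finrank k k')
  have q1 := (h1 F2 (AlgebraicClosure F2) (algebraMap F2 (AlgebraicClosure F2))).2 k k' n a D hD0
  rw [← q1, h2 k k' hk (AlgebraicClosure F2) ζ hζ.eq_orderOf.symm n a D hD0]
  have e1 : ∀ i ∈ (range (Module.finrank k k')).filter (0 < ·),
      Module.finrank (AlgebraicClosure F2) ↥(KSn (AlgebraicClosure F2) (am k' a)
        (D.map (algebraMap k k')) ⊓ EgN k n (ζ ^ i) (D.map (algebraMap k k'))) =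
      (fun x : AlgebraicClosure F2 => Module.finrank (AlgebraicClosure F2)
        (KD (orderOf x) x a D)) (ζ ^ i) := by
    intro i hi
    rw [mem_filter, mem_range] at hi
    have g1 : (ζ ^ i) ^ Module.finrank k k' = 1 := by
      rw [← pow_mul, mul_comm, pow_mul, hζ.pow_eq_one, one_pow]
    have g2 : ζ ^ i ≠ 1 := by
      intro h
      have := hζ.dvd_of_pow_eq_one i h
      have := Nat.le_of_dvd hi.2 this
      omega
    have g3 : 0 < orderOf (ζ ^ i) := orderOf_pos_iff.2 (isOfFinOrder_iff_pow_eq_one.2 ⟨_, he, g1⟩)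
    refine h3 k k' hk hodd n a hab m D hD (AlgebraicClosure F2) (ζ ^ i) (orderOf (ζ ^ i)) rfl ?_
      (orderOf_dvd_of_pow_eq_one g1)
    rcases Nat.lt_or_ge 1 (orderOf (ζ ^ i)) with h | h
    · exact h
    · exfalso
      exact g2 (orderOf_eq_one_iff.1 (by omega))
  refine (sum_congr rfl e1).trans ((sum_roots he hζ (fun x : AlgebraicClosure F2 =>
    Module.finrank (AlgebraicClosure F2) (KD (orderOf x) x a D))).trans ?_)
  refine sum_congr rfl fun r hr => ?_
  rw [mem_filter, Nat.mem_divisors] at hr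
  have hro : Odd r := hodd.of_dvd_nat hr.1.1
  have hX := h5 r hro hr.2
  let φ : Fr r →ₐ[F2] AlgebraicClosure F2 := IsAlgClosed.lift
  have hη : IsPrimitiveRoot (φ (xi r)) r := by
    have h6 : IsPrimitiveRoot (xi r) r := by
      have := IsPrimitiveRoot.orderOf (xi r)
      rwa [hX.ord] at this
    exact h6.map_of_injective φ.injective
  rw [sum_prim (by omega) hη]
  refine sum_congr rfl fun u hu => ?_
  rw [mem_filter] at hu
  have e2 : orderOf (φ (xi r) ^ u) = r := (hη.pow_of_coprime u hu.2).eq_orderOf.symm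
  show Module.finrank (AlgebraicClosure F2) (KD (orderOf (φ (xi r) ^ u)) (φ (xi r) ^ u) a D) = _
  rw [e2, ← map_pow]
  exact (h1 (Fr r) (AlgebraicClosure F2) (φ : Fr r →+* AlgebraicClosure F2)).1 k r (xi r ^ u) n a D

end Pool.Agent.Q269.SX.Smn
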