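import Pool.Agent.Q269.SX.Ksn

/-!
# Project SX (helper269), job ZTN: the eigenspace of a root of unity is the kernel for its order
(adapted from `Pool/Agent/Q280/GL/ZET.lean`)
-/

set_option autoImplicit false
set_option linter.all false

open scoped Classical
open Finset Polynomial

namespace Pool.Agent.Q269.SX.Ksn

open Pool.Agent.Q269.GR (F2 cf hv own Dn pr ph fp Om S_PAS S_FCT S_FCD S_SYR IsSg)
open Pool.Agent.Q269.GJ (W0 lap eqn Kn KD KF xb am Ip)
open Pool.Agent.Q269.SX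
open Pool.Agent.Y164.PS (L L_mul_left L_neg_left)
open Pool.Agent.Q202.GR (mem_pr coprime_irr sum_J)
open Pool.Agent.Q269.SX.Lt (St pm pm_val pm_iter)

section

variable {k k' : Type} [Field k] [Fintype k] [Field k'] [Fintype k'] [Algebra k k']
variable {F : Type} [Field F] [Algebra F2 F] {n : ℕ}
variable {V : Type} [AddCommGroup V] [Module F V]

theorem eqnN_smul {J : Type} [Fintype J] (M : J → J → F) (dd : J → F) (x : J → Fin n → Fin n → F2) (t : F)
    (w : J → W0 n F) (i : J) : eqn M dd x (t • w) i = t • eqn M dd x w i := by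
  have h : (t • w) i = t • w i := rfl
  unfold eqn
  rw [h, smul_add, smul_add, Finset.smul_sum]
  have h1 : lap (x i) (t • w i : W0 n F).1 = t • lap (x i) (w i).1 := Pool.Agent.Q269.GJ.lap_smul _ _ _
  rw [h1]
  congr 1
  congr 1
  · exact sum_congr rfl fun j _ => smul_comm _ _ _
  · exact smul_comm _ _ _

variable {j : k' →ₐ[k] Om k} {D : k[X]} {ξ : F} {r : ℕ}

theorem vanishG (s : St k k' j D ξ r) {W : k'[X] → V}
    (hW : ∀ P ∈ pr D, ∀ c, W ((ph k)^[c] (fp j P)) = ξ ^ c • W (fp j P)) {P : k[X]} (hP : P ∈ pr D)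
    (hr : ¬ r ∣ P.natDegree) : W (fp j P) = 0 := by
  have h7 : (ph k)^[Nat.gcd (Module.finrank k k') P.natDegree] (fp j P) = (ph k)^[0] (fp j P) := by
    rw [(s.h2 k k' j P (mem_pr hP).1 (mem_pr hP).2).2.2.2.2.2.1]
    exact (Nat.modEq_zero_iff_dvd.2 dvd_rfl)
  rw [Function.iterate_zero, id] at h7
  have h8 := hW P hP (Nat.gcd (Module.finrank k k') P.natDegree)
  rw [h7] at h8
  have h11 : (1 - ξ ^ Nat.gcd (Module.finrank k k') P.natDegree) • W (fp j P) = 0 := by
    rw [sub_smul, one_smul, ← h8, sub_self]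
  rcases smul_eq_zero.1 h11 with h | h
  · exact absurd (sub_eq_zero.1 h).symm (s.pow_ne hr)
  · exact h

/-- the sum over the primes of the larger field -/
theorem innerG (s : St k k' j D ξ r) {W : k'[X] → V}
    (hWi : ∀ P ∈ pr D, ∀ c, W ((ph k)^[c] (fp j P)) = ξ ^ c • W (fp j P)) {P : k[X]} (hP : P ∈ pr D)
    (hrP : r ∣ P.natDegree) :
    ∑ T' ∈ pr (D.map (algebraMap k k')),
        (if T' = fp j P then (0 : F) else cf (L T' (fp j P))) • (W T' + W (fp j P)) =
      own r ξ P • W (fp j P) + (∑ x ∈ pr D, if r ∣ x.natDegree then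
        (if x = P then (0 : F) else hv r ξ x P) • W (fp j x) else 0) +
        (cf (∑ x ∈ pr D, if x = P then (0 : F2) else L x P) : F) • W (fp j P) := by
  obtain ⟨hm, hi⟩ := mem_pr hP
  obtain ⟨f1, f2, -⟩ := s.h3 k k' j
  have hs3 := s.h4 k k' j s.hk s.odd
  have hfc := fun P hP hP' => s.h2 k k' j P hP hP'
  have hξr : ξ ^ r = 1 := by rw [← s.ord]; exact pow_orderOf_eq_one ξ
  obtain ⟨-, -, -, -, g5, g6, -⟩ := hfc P hm hi
  obtain ⟨s1, s2⟩ := hs3 P hm hi
  have hlt := s.lt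
  rw [f1 D s.hD, sum_biUnion]
  swap
  · intro P1 hP1 P2 hP2 hne
    rw [Function.onFun, disjoint_left]
    intro T hT1 hT2
    rw [mem_image] at hT1 hT2
    obtain ⟨c1, -, rfl⟩ := hT1
    obtain ⟨c2, -, hc2⟩ := hT2
    obtain ⟨m1, i1⟩ := mem_pr hP1
    obtain ⟨m2, i2⟩ := mem_pr hP2
    exact f2 P1 P2 m1 i1 m2 i2 hne c1 c2 hc2.symm
  have hinner : ∀ P2 ∈ pr D,
      ∑ T' ∈ (range (Nat.gcd (Module.finrank k k') P2.natDegree)).image (fun c => (ph k)^[c] (fp j P2)),
        (if T' = fp j P then (0 : F) else cf (L T' (fp j P))) • (W T' + W (fp j P)) =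
      if P2 = P then own r ξ P • W (fp j P) else
        ((if r ∣ P2.natDegree then hv r ξ P2 P • W (fp j P2) else 0) + (cf (L P2 P) : F) • W (fp j P)) := by
    intro P2 hP2
    obtain ⟨m2, i2⟩ := mem_pr hP2
    obtain ⟨-, -, -, -, k5, k6, k7⟩ := hfc P2 m2 i2
    rw [sum_image]
    swap
    · intro c hc c' hc' hcc
      rw [coe_range, Set.mem_Iio] at hc hc'
      have := (k6 c c').1 hcc
      rw [Nat.ModEq, Nat.mod_eq_of_lt hc, Nat.mod_eq_of_lt hc'] at this
      exact this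
    by_cases hPP : P2 = P
    · subst hPP
      rw [if_pos rfl]
      have s3 := (s1 F ξ r (by omega) hξr s.dvd hrP).2
      rw [← s3, sum_smul]
      refine sum_congr rfl fun c hc => ?_
      rw [mem_range] at hc
      by_cases hc0 : c = 0
      · subst hc0
        rw [if_pos (show (ph k)^[0] (fp j P2) = fp j P2 from rfl)]
        simp
      · have hne : (ph k)^[c] (fp j P2) ≠ fp j P2 := by
          intro h
          have h' : (ph k)^[c] (fp j P2) = (ph k)^[0] (fp j P2) := h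
          have := (k6 c 0).1 h'
          rw [Nat.ModEq, Nat.mod_eq_of_lt hc, Nat.zero_mod] at this
          exact hc0 this
        rw [if_neg hne, if_neg hc0, hWi P2 hP2]
        have e3 : ξ ^ c • W (fp j P2) + W (fp j P2) = (1 + ξ ^ c) • W (fp j P2) := by
          rw [add_smul, one_smul, add_comm]
        rw [e3, smul_smul]
    · rw [if_neg hPP]
      have hne : ∀ c, (ph k)^[c] (fp j P2) ≠ fp j P := fun c => f2 P2 P m2 i2 hm hi hPP c 0
      have e1 : ∀ c ∈ range (Nat.gcd (Module.finrank k k') P2.natDegree),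
          (if (ph k)^[c] (fp j P2) = fp j P then (0 : F) else cf (L ((ph k)^[c] (fp j P2)) (fp j P))) •
            (W ((ph k)^[c] (fp j P2)) + W (fp j P)) =
          (cf (L ((ph k)^[c] (fp j P2)) (fp j P)) * ξ ^ c) • W (fp j P2) +
            (cf (L ((ph k)^[c] (fp j P2)) (fp j P)) : F) • W (fp j P) := by
        intro c _
        rw [if_neg (hne c), hWi P2 hP2, smul_add, smul_smul]
      rw [sum_congr rfl e1, sum_add_distrib, ← sum_smul, ← sum_smul]
      have e2 : ∑ c ∈ range (Nat.gcd (Module.finrank k k') P2.natDegree),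
          (cf (L ((ph k)^[c] (fp j P2)) (fp j P)) : F) = cf (L P2 P) := by
        have : ∑ c ∈ range (Nat.gcd (Module.finrank k k') P2.natDegree),
            (cf (L ((ph k)^[c] (fp j P2)) (fp j P)) : F) =
            cf (∑ c ∈ range (Nat.gcd (Module.finrank k k') P2.natDegree),
              L ((ph k)^[c] (fp j P2)) (fp j P)) := by
          unfold cf
          rw [map_sum]
        rw [this, ← Pool.Agent.Y164.PS.L_prod_left, ← k7, s2]
        · exact (g5 0).2.ne_zero
        · intro c _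
          exact (k5 c).2.ne_zero
        · intro c _
          exact coprime_irr (k5 c).1 (g5 0).1 (k5 c).2 (g5 0).2 (hne c)
      rw [e2]
      congr 1
      by_cases hr2 : r ∣ P2.natDegree
      · rw [if_pos hr2]
        congr 1
        exact ((hs3 P2 m2 i2).1 F ξ r (by omega) hξr s.dvd hr2).1 P hm hi hPP hrP
      · rw [if_neg hr2, vanishG s hWi hP2 hr2, smul_zero]
  rw [sum_congr rfl hinner]
  have e4 : (cf (∑ x ∈ pr D, if x = P then (0 : F2) else L x P) : F) =
      ∑ x ∈ pr D, (if x = P then (0 : F) else cf (L x P)) := by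
    unfold cf
    rw [map_sum]
    refine sum_congr rfl fun x _ => ?_
    by_cases h : x = P
    · rw [if_pos h, if_pos h, map_zero]
    · rw [if_neg h, if_neg h]
  have e5 : own r ξ P • W (fp j P) = ∑ x ∈ pr D, if x = P then own r ξ P • W (fp j P) else 0 := by
    rw [Finset.sum_ite_eq', if_pos hP]
  rw [e4, sum_smul, e5, ← sum_add_distrib, ← sum_add_distrib]
  refine sum_congr rfl fun x _ => ?_
  by_cases h : x = P
  · rw [if_pos h, if_pos h, if_pos h, if_pos h, zero_smul, ite_self, zero_smul, add_zero, add_zero,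
      Finset.sum_ite_eq', if_pos hP]
  · rw [if_neg h, if_neg h, if_neg h, if_neg h, zero_add]

theorem iterG (hD : D ≠ 0) {w : Ip (D.map (algebraMap k k')) → V}
    (h : ∀ T, w (pm hD T) = ξ • w T) (c : ℕ) (T : Ip (D.map (algebraMap k k'))) :
    w ((pm hD)^[c] T) = ξ ^ c • w T := by
  induction c with
  | zero => rw [Function.iterate_zero, id, pow_zero, one_smul]
  | succ c ih => rw [Function.iterate_succ_apply', h, ih, smul_smul, pow_succ']

theorem zero_ofG (s : St k k' j D ξ r) {w : Ip (D.map (algebraMap k k')) → V}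
    (hw : ∀ T, w (pm s.hD T) = ξ • w T) (P : {P : k[X] // P ∈ pr D}) (hr : ¬ r ∣ P.1.natDegree) :
    w (s.ix P 0) = 0 := by
  have h7 : (pm s.hD)^[Nat.gcd (Module.finrank k k') P.1.natDegree] (s.ix P 0) = s.ix P 0 := by
    rw [← s.ix_eq]
    refine Subtype.ext ?_
    show (ph k)^[Nat.gcd (Module.finrank k k') P.1.natDegree] (fp j P.1) = (ph k)^[0] (fp j P.1)
    rw [(s.h2 k k' j P.1 (mem_pr P.2).1 (mem_pr P.2).2).2.2.2.2.2.1]
    exact (Nat.modEq_zero_iff_dvd.2 dvd_rfl)
  have h8 := iterG s.hD hw (Nat.gcd (Module.finrank k k') P.1.natDegree) (s.ix P 0)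
  rw [h7] at h8
  have h11 : (1 - ξ ^ Nat.gcd (Module.finrank k k') P.1.natDegree) • w (s.ix P 0) = 0 := by
    rw [sub_smul, one_smul, ← h8, sub_self]
  rcases smul_eq_zero.1 h11 with h | h
  · exact absurd (sub_eq_zero.1 h).symm (s.pow_ne hr)
  · exact h

/-- the restriction -/
noncomputable def rsN (s : St k k' j D ξ r) (w : Ip (D.map (algebraMap k k')) → W0 n F) :
    {i : {P : k[X] // P ∈ pr D} // r ∣ (i.1).natDegree} → W0 n F := fun i => w (s.ix i.1 0)

/-- the equations -/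
theorem eq_fpN (s : St k k' j D ξ r) (a : Fin n → k[X]) {w : Ip (D.map (algebraMap k k')) → W0 n F}
    (hw : ∀ T, w (pm s.hD T) = ξ • w T) (i : {i : {P : k[X] // P ∈ pr D} // r ∣ (i.1).natDegree}) :
    eqKN (am k' a) (D.map (algebraMap k k')) w (s.ix i.1 0) =
      eqn (fun i j => hv r ξ ((j : {i : {P : k[X] // P ∈ pr D} // r ∣ (i.1).natDegree}).1.1) i.1.1)
        (fun i => own r ξ i.1.1 + cf (∑ j : {P : k[X] // P ∈ pr D},
          @ite Pool.Agent.Y164.PS.F2 (j = i.1) (Classical.propDecidable _) 0 (L j.1 i.1.1)))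
        (fun i => xb a i.1.1) (rsN s w) i := by
  obtain ⟨⟨P, hP⟩, hrP⟩ := i
  obtain ⟨hm, hi⟩ := mem_pr hP
  set W : k'[X] → (Fin n → F) := fun T => if h : T ∈ pr (D.map (algebraMap k k')) then (w ⟨T, h⟩).1 else 0
    with hWdef
  have hWT : ∀ T : Ip (D.map (algebraMap k k')), W T.1 = (w T).1 := by
    intro T
    rw [hWdef]
    show (if h : T.1 ∈ pr (D.map (algebraMap k k')) then (w ⟨T.1, h⟩).1 else 0) = (w T).1
    rw [dif_pos T.2]
  have hWi : ∀ P ∈ pr D, ∀ c, W ((ph k)^[c] (fp j P)) = ξ ^ c • W (fp j P) := by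
    intro P hP c
    have e1 := hWT (s.ix ⟨P, hP⟩ c)
    have e2 := hWT (s.ix ⟨P, hP⟩ 0)
    have e3 := congrArg Subtype.val (iterG (V := W0 n F) s.hD hw c (s.ix ⟨P, hP⟩ 0))
    rw [← s.ix_eq, ← e1] at e3
    have e4 : ((ξ ^ c • w (s.ix ⟨P, hP⟩ 0) : W0 n F)).1 = ξ ^ c • (w (s.ix ⟨P, hP⟩ 0)).1 := rfl
    rw [e4, ← e2] at e3
    exact e3
  have key := innerG s hWi hP hrP
  have s2 := (s.h4 k k' j s.hk s.odd P hm hi).2
  have hWP : W (fp j P) = (w (s.ix ⟨P, hP⟩ 0)).1 := hWT (s.ix ⟨P, hP⟩ 0)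
  have hxb : xb (am k' a) (fp j P) = xb a P := by
    funext l l'
    show L (am k' a l - am k' a l') (fp j P) = L (a l - a l') P
    have : am k' a l - am k' a l' = (a l - a l').map (algebraMap k k') := by
      rw [Polynomial.map_sub]; rfl
    rw [this, s2]
  -- left side
  have l1 : eqKN (am k' a) (D.map (algebraMap k k')) w
      (s.ix ⟨P, hP⟩ 0) = ∑ T' ∈ pr (D.map (algebraMap k k')),
        (if T' = fp j P then (0 : F) else cf (L T' (fp j P))) • (W T' + W (fp j P)) +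
        lap (xb a P) (W (fp j P)) := by
    unfold eqKN eqn
    beta_reduce
    have t1 : (s.ix ⟨P, hP⟩ 0).1 = fp j P := rfl
    have t2 : ∑ T' ∈ pr (D.map (algebraMap k k')),
        (if T' = fp j P then (0 : F) else cf (L T' (fp j P))) • (W T' + W (fp j P)) =
        ∑ T' : Ip (D.map (algebraMap k k')), (@ite F (T' = s.ix ⟨P, hP⟩ 0) (Classical.propDecidable _) (0 : F)
          (cf (L T'.1 (fp j P)))) • ((w T').1 + (w (s.ix ⟨P, hP⟩ 0)).1) := by
      rw [← Finset.sum_coe_sort (pr (D.map (algebraMap k k')))]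
      refine sum_congr rfl fun T' _ => ?_
      rw [hWT T', hWP]
      congr 1
      by_cases h : T' = s.ix ⟨P, hP⟩ 0
      · rw [if_pos h, if_pos (show T'.1 = fp j P from congrArg Subtype.val h)]
      · rw [if_neg h, if_neg]
        exact fun h' => h (Subtype.ext h')
    rw [t2, hWP, t1, hxb]
    simp only [smul_add, sum_add_distrib]
    rw [← sum_smul]
    have t3 : ∑ T' : Ip (D.map (algebraMap k k')), (@ite F (T' = s.ix ⟨P, hP⟩ 0) (Classical.propDecidable _)
        (0 : F) (cf (L T'.1 (fp j P)))) =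
        cf (∑ T' : Ip (D.map (algebraMap k k')), if T' = s.ix ⟨P, hP⟩ 0 then (0 : F2) else L T'.1 (fp j P)) := by
      unfold cf
      rw [map_sum]
      refine sum_congr rfl fun x _ => ?_
      by_cases h : x = s.ix ⟨P, hP⟩ 0
      · rw [if_pos h, if_pos h, map_zero]
      · rw [if_neg h, if_neg h]
    rw [t3]
  rw [l1, key]
  -- right side
  unfold eqn
  have q1 : ∑ j' : {i : {P : k[X] // P ∈ pr D} // r ∣ (i.1).natDegree},
      (@ite F (j' = ⟨⟨P, hP⟩, hrP⟩) (Classical.propDecidable _) (0 : F) (hv r ξ j'.1.1 P)) • (rsN s w j').1 =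
      ∑ P2 ∈ pr D, if r ∣ P2.natDegree then
        (if P2 = P then (0 : F) else hv r ξ P2 P) • W (fp j P2) else 0 := by
    rw [← sum_J D r (fun P2 => (if P2 = P then (0 : F) else hv r ξ P2 P) • W (fp j P2))]
    refine sum_congr rfl fun j' _ => ?_
    have hj' : (rsN s w j').1 = W (fp j j'.1.1) := (hWT (s.ix j'.1 0)).symm
    rw [hj']
    congr 1
    by_cases h : j'.1.1 = P
    · rw [if_pos h, if_pos (Subtype.ext (Subtype.ext h))]
    · rw [if_neg h, if_neg]
      intro h'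
      exact h (congrArg (fun z => z.1.1) h')
  have q2 : ∑ j' : {P : k[X] // P ∈ pr D}, (@ite Pool.Agent.Y164.PS.F2 (j' = ⟨P, hP⟩)
        (Classical.propDecidable _) (0 : Pool.Agent.Y164.PS.F2) (L j'.1 P)) =
      ∑ P2 ∈ pr D, if P2 = P then (0 : Pool.Agent.Y164.PS.F2) else L P2 P := by
    rw [← Finset.sum_coe_sort (pr D) (fun P2 => if P2 = P then (0 : Pool.Agent.Y164.PS.F2) else L P2 P)]
    refine sum_congr rfl fun j' _ => ?_
    by_cases h : j'.1 = P
    · rw [if_pos h, if_pos (Subtype.ext h)]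
    · rw [if_neg h, if_neg]
      intro h'
      exact h (congrArg (fun z => z.1) h')
  have q4 : (rsN s w ⟨⟨P, hP⟩, hrP⟩).1 = W (fp j P) := hWP.symm
  rw [q4]
  symm
  show ∑ j' : {i : {P : k[X] // P ∈ pr D} // r ∣ (i.1).natDegree},
      (@ite F (j' = ⟨⟨P, hP⟩, hrP⟩) (Classical.propDecidable _) (0 : F) (hv r ξ j'.1.1 P)) • (rsN s w j').1 +
      (own r ξ P + cf (
        ∑ j' : {P : k[X] // P ∈ pr D}, (@ite Pool.Agent.Y164.PS.F2 (j' = ⟨P, hP⟩)
        (Classical.propDecidable _) (0 : Pool.Agent.Y164.PS.F2) (L j'.1 P)))) • W (fp j P) + _ = _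
  rw [q1, q2, add_smul]
  have e7 : ∀ x y z t : Fin n → F, x + (y + z) + t = y + x + z + t := by
    intro x y z t
    abel
  exact e7 _ _ _ _

/-- the membership -/
theorem mem_iffN (s : St k k' j D ξ r) (h1 : S_PAS) (a : Fin n → k[X])
    {w : Ip (D.map (algebraMap k k')) → W0 n F} (hw : ∀ T, w (pm s.hD T) = ξ • w T) :
    w ∈ KSn F (am k' a) (D.map (algebraMap k k')) ↔ rsN s w ∈ KD r ξ a D := by
  rw [mem_KSn]
  constructor
  · intro h i
    have := eq_fpN s a hw i
    rw [h] at this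
    exact this.symm
  · intro h T
    -- the function `z` is itself an eigenvector
    set z : Ip (D.map (algebraMap k k')) → (Fin n → F) :=
      eqKN (am k' a) (D.map (algebraMap k k')) w with hz
    have hzp : ∀ T, z (pm s.hD T) = ξ • z T := by
      intro T
      rw [hz, ← eqKN_pm h1 s.hk a s.hD w T]
      have : (fun T => w (pm s.hD T)) = ξ • w := by
        funext T
        exact hw T
      rw [this]
      exact eqnN_smul _ _ _ _ _ _
    obtain ⟨P, c, rfl⟩ := s.T_eq T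
    have h3 := iterG s.hD hzp c (s.ix P 0)
    rw [← s.ix_eq] at h3
    show z (s.ix P c) = 0
    rw [h3]
    have h4 : z (s.ix P 0) = 0 := by
      by_cases hr : r ∣ P.1.natDegree
      · have := eq_fpN s a hw ⟨P, hr⟩
        rw [hz, this]
        exact h ⟨P, hr⟩
      · exact zero_ofG s hzp P hr
    rw [h4, smul_zero]

/-- the extension of a vector -/
theorem surjG (s : St k k' j D ξ r) (v : {i : {P : k[X] // P ∈ pr D} // r ∣ (i.1).natDegree} → V) :
    ∃ w : Ip (D.map (algebraMap k k')) → V, (∀ T, w (pm s.hD T) = ξ • w T) ∧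
      (fun i : {i : {P : k[X] // P ∈ pr D} // r ∣ (i.1).natDegree} => w (s.ix i.1 0)) = v := by
  have hξr : ξ ^ r = 1 := by rw [← s.ord]; exact pow_orderOf_eq_one ξ
  choose pp cc hh using fun T => s.T_eq T
  let g : {P : k[X] // P ∈ pr D} → V := fun P => if h : r ∣ P.1.natDegree then v ⟨P, h⟩ else 0
  have hsp : ∀ (P : {P : k[X] // P ∈ pr D}) (c : ℕ),
      ξ ^ cc (s.ix P c) • g (pp (s.ix P c)) = ξ ^ c • g P := by
    intro P c
    have h1 := congrArg Subtype.val (hh (s.ix P c))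
    have h2 : pp (s.ix P c) = P := by
      by_contra hne
      refine (s.h3 k k' j).2.1 P.1 (pp (s.ix P c)).1 (mem_pr P.2).1 (mem_pr P.2).2
        (mem_pr (pp (s.ix P c)).2).1 (mem_pr (pp (s.ix P c)).2).2 (fun h => hne (Subtype.ext h.symm)) c
        (cc (s.ix P c)) ?_
      exact h1
    rw [h2]
    by_cases hr : r ∣ P.1.natDegree
    · congr 1
      have h3 : (ph k)^[c] (fp j P.1) = (ph k)^[cc (s.ix P c)] (fp j P.1) := by
        have h4 : (ph k)^[c] (fp j P.1) = (ph k)^[cc (s.ix P c)] (fp j (pp (s.ix P c)).1) := h1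
        rw [h2] at h4
        exact h4
      rw [(s.h2 k k' j P.1 (mem_pr P.2).1 (mem_pr P.2).2).2.2.2.2.2.1] at h3
      have h5 : c ≡ cc (s.ix P c) [MOD r] := h3.of_dvd (Nat.dvd_gcd s.dvd hr)
      rw [pow_eq_pow_mod c hξr, pow_eq_pow_mod (cc (s.ix P c)) hξr]
      have h6 : c % r = cc (s.ix P c) % r := h5
      rw [h6]
    · show _ • (if h : r ∣ P.1.natDegree then v ⟨P, h⟩ else 0) = _ • (if h : r ∣ P.1.natDegree then v ⟨P, h⟩ else 0)
      rw [dif_neg hr, smul_zero, smul_zero]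
  refine ⟨fun T => ξ ^ cc T • g (pp T), ?_, ?_⟩
  · intro T
    obtain ⟨P, c, rfl⟩ := s.T_eq T
    have h1 : pm s.hD (s.ix P c) = s.ix P (c + 1) := by
      refine Subtype.ext ?_
      rw [pm_val]
      show ph k ((ph k)^[c] (fp j P.1)) = (ph k)^[c + 1] (fp j P.1)
      rw [Function.iterate_succ_apply']
    show ξ ^ cc (pm s.hD (s.ix P c)) • g (pp (pm s.hD (s.ix P c))) = ξ • (ξ ^ cc (s.ix P c) • g (pp (s.ix P c)))
    rw [h1, hsp, hsp, smul_smul, pow_succ']
  · funext i
    show ξ ^ cc (s.ix i.1 0) • g (pp (s.ix i.1 0)) = v i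
    rw [hsp, pow_zero, one_smul]
    show (if h : r ∣ i.1.1.natDegree then v ⟨i.1, h⟩ else 0) = v i
    rw [dif_pos i.2]

end

theorem t_ZTN (h1 : S_PAS) (h2 : S_FCT) (h3 : S_FCD) (h4 : S_SYR) : S_ZTN := by
  intro k k' _ _ _ _ _ hk hodd n a ha m D hD F _ _ ξ r hξ hr hre
  have hD0 : D ≠ 0 := by
    rw [Dn, mem_filter] at hD
    exact hD.2.1.ne_zero
  let j : k' →ₐ[k] Om k := IsAlgClosed.lift
  have s : St k k' j D ξ r := ⟨h2, h3, h4, hk, hodd, hD0, hξ, hr, hre⟩
  let f : ↥(KSn F (am k' a) (D.map (algebraMap k k')) ⊓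
      EgN k n ξ (D.map (algebraMap k k'))) →ₗ[F] ↥(KD r ξ a D) :=
    { toFun := fun w => ⟨rsN s w.1, (mem_iffN s h1 a ((mem_EgN s.hD ξ w.1).1 (Submodule.mem_inf.1 w.2).2)).1
        (Submodule.mem_inf.1 w.2).1⟩
      map_add' := fun w w' => rfl
      map_smul' := fun c w => rfl }
  refine LinearEquiv.finrank_eq (LinearEquiv.ofBijective f ⟨?_, ?_⟩)
  · intro w w' hw
    refine Subtype.ext ?_
    funext T
    have hE := (mem_EgN s.hD ξ w.1).1 (Submodule.mem_inf.1 w.2).2
    have hE' := (mem_EgN s.hD ξ w'.1).1 (Submodule.mem_inf.1 w'.2).2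
    obtain ⟨P, c, rfl⟩ := s.T_eq T
    have h5 := iterG (V := W0 n F) s.hD hE c (s.ix P 0)
    have h5' := iterG (V := W0 n F) s.hD hE' c (s.ix P 0)
    rw [← s.ix_eq] at h5 h5'
    rw [h5, h5']
    have h6 : w.1 (s.ix P 0) = w'.1 (s.ix P 0) := by
      by_cases hrP : r ∣ P.1.natDegree
      · have h7 := congrArg Subtype.val hw
        exact congrFun h7 ⟨P, hrP⟩
      · rw [zero_ofG (V := W0 n F) s hE P hrP, zero_ofG (V := W0 n F) s hE' P hrP]
    rw [h6]
  · intro v
    obtain ⟨w, hw, hv⟩ := surjG s v.1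
    have hv' : rsN s w = v.1 := hv
    refine ⟨⟨w, Submodule.mem_inf.2 ⟨?_, (mem_EgN s.hD ξ w).2 hw⟩⟩, Subtype.ext hv'⟩
    rw [mem_iffN s h1 a hw, hv']
    exact v.2

end Pool.Agent.Q269.SX.Ksn
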