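import Pool.Agent.Q269.SX.StX
import Pool.Agent.Q269.SX.AsmG
import Pool.Agent.Q211.SX.Kum
import Pool.Agent.Q211.SX.Trv
import Pool.Agent.Q211.SX.Idl
import Pool.Agent.Q211.SX.Rpu
import Pool.Agent.Q177.SX.TRL
import Pool.Agent.Q176.SX.LFF
import Pool.Agent.Q176.SX.HEN
import Pool.Agent.Q68.SX.LOC
import Pool.Agent.Q238.SX.LCT
import Pool.Agent.Q241.SX.RPC
import Pool.Agent.Q151.SX.E1C
import Pool.Agent.Q151.SX.E2C
import Pool.Agent.Q151.SX.CNT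
import Pool.Agent.Q151.SX.BDX
import Pool.Agent.Q24.SX.KDX
import Pool.Agent.Q223.SX.BWD
import Pool.Agent.Q238.SX.SEL
import Pool.Agent.Q223.SX.KDR
import Pool.Agent.Q124.SX.ADX
import Pool.Agent.Q124.SX.NSL
import Pool.Agent.Q269.SX.Bcn
import Pool.Agent.Q269.SX.Smn
import Pool.Agent.Q269.SX.Fxn
import Pool.Agent.Q269.SX.Nkn
import Pool.Agent.Q269.SX.Ksn
import Pool.Agent.Q269.SX.Ztn
import Pool.Agent.Q299.SX.SLN
import Pool.Agent.Q299.SX.CRD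
import Pool.Agent.Q193.SX.LWL
import Pool.Agent.Q269.SX.Cls

/-!
# Assembly of the lemmas of project SX

The module and the author of the proof of each statement can be read off from this file. `Fxn`, `Nkn`, `Ksn`, `Ztn` are the files
`FXN`, `NKN`, `KSN`, `ZTN` of helper121, and `Bcn`, `Smn` the files `BCN`, `SMN` of helper124, with other imports.
-/

set_option autoImplicit false

namespace Pool.Agent.Q269.SX.Asm

open Pool.Agent.Q269.SX Pool.Agent.Q269.GR.Asm Pool.Agent.Q269.GJ.Asm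

theorem d_REP : Pool.Agent.Y164.HG.S_REP := Pool.Agent.Y288.HG.Rep.t
theorem d_ADJ : Pool.Agent.Y164.HG.S_ADJ := Pool.Agent.Y31.HG.Adj.t
theorem d_EXT : Pool.Agent.Y164.HG.S_EXT := Pool.Agent.Y500.HG.t
theorem d_INJ : Pool.Agent.Y164.HG.S_INJ := Pool.Agent.Y288.HG.Inj.t
theorem d_KUM : S_KUM := Pool.Agent.Q211.SX.t_KUM
theorem d_TRV : S_TRV := Pool.Agent.Q211.SX.t_TRV d_KUM
theorem d_IDL : S_IDL := Pool.Agent.Q211.SX.t_IDL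
theorem d_TRL : S_TRL := Pool.Agent.Q177.SX.t_TRL d_TRV d_IDL
theorem d_LFF : S_LFF := Pool.Agent.Q176.SX.t_LFF
theorem d_HEN : S_HEN := Pool.Agent.Q176.SX.t_HEN
theorem d_LOC : S_LOC := Pool.Agent.Q68.SX.t_LOC d_LFF d_HEN
theorem d_LCT : S_LCT := Pool.Agent.Q238.SX.t_LCT d_LOC d_TRL
theorem d_RPC : S_RPC := Pool.Agent.Q241.SXR.t_RPC
theorem d_E1C : S_E1C := Pool.Agent.Q151.SX.t_E1C d_RPC
theorem d_E2C : S_E2C := Pool.Agent.Q151.SX.t_E2C d_RPC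
theorem d_KDX : S_KDX := Pool.Agent.Q24.SX.t_KDX
theorem d_BWD : S_BWD := Pool.Agent.Q223.SX.t_BWD d_LCT d_TRL d_RPC d_E1C d_E2C d_KDX d_ADJ
theorem d_CNT : S_CNT := Pool.Agent.Q151.SX.t_CNT b_RAD
theorem d_RPU : S_RPU := Pool.Agent.Q211.SX.t_RPU d_REP
theorem d_SEL : S_SEL := Pool.Agent.Q238.SX.t_SEL d_BWD d_CNT d_EXT d_INJ d_RPU
theorem d_BDX : S_BDX := Pool.Agent.Q151.SX.t_BDX d_INJ
theorem d_KDR : S_KDR := Pool.Agent.Q223.SX.t_KDR a_PRD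
theorem d_ADX : S_ADX := Pool.Agent.Q124.SX.t_ADX
theorem d_NSL : S_NSL := Pool.Agent.Q124.SX.t_NSL d_CNT b_CNV a_PRD
theorem d_FXN : S_FXN := Pool.Agent.Q269.SX.Fxn.t_FXN b_BAD a_FCT a_FCD a_SYR a_PAS
theorem d_NKN : S_NKN := Pool.Agent.Q269.SX.Nkn.t_NKN b_BAD a_PAS a_FCD a_SYR
theorem d_BCN : S_BCN := Pool.Agent.Q269.SX.Bcn.t_BCN
theorem d_KSN : S_KSN := Pool.Agent.Q269.SX.Ksn.t_KSN Pool.Agent.Q269.SX.Lt.t_EIG a_PAS
theorem d_ZTN : S_ZTN := Pool.Agent.Q269.SX.Ksn.t_ZTN a_PAS a_FCT a_FCD a_SYR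
theorem d_SMN : S_SMN := Pool.Agent.Q269.SX.Smn.t_SMN d_BCN d_KSN d_ZTN a_XIR
theorem d_SLN : S_SLN := Pool.Agent.Q299.SX.t_SLN d_NSL d_FXN d_NKN d_SMN b_HYM
theorem d_LWL : S_LWL := Pool.Agent.Q193.SX.t_LWL d_KDR
theorem d_LWM : S_LWM := Pool.Agent.Q193.SX.t_LWM d_LWL
theorem d_CLS : S_CLS := Pool.Agent.Q269.SX.Cls.t_CLS
theorem d_CRD : S_CRD := Pool.Agent.Q299.SX.t_CRD

end Pool.Agent.Q269.SX.Asm
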