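import Pool.Agent.Q269.SL.Bnd
import Pool.Agent.Q269.GJ.StF

/-!
# Project SX (helper269): the local conditions of the 2-descent are sufficient (exactness of the Selmer groups)

Setting of `Pool/Agent/Y164/HG` and `Pool/Agent/Q269/SL`: `k` a finite field of odd characteristic in which `-1` is a square,
`K = Frac k[X]`, `J` the Jacobian of `y² = D ∏ (x - a i)`, `D = ∏ T i` a product of different monic primes which do not divide the
discriminant. In project SL it is proved (`imp_bound`, `Pool/Agent/Q269/SL/Bnd.lean`) that the order `kc` of the kernel of the form `FF` is an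
upper bound for `#(J(K)/(J(K)[2] + 2 J(K))) · #Ш[2]`. Here: it is equal to it. What is missing is the converse of the local
lemmas: every solution `(w, x0)` of the equations `E1 = 0`, `E2 = 0` comes from a cocycle which is locally trivial at all places.
So for every place `v` and every family of local square classes which satisfies the conditions there must be a class of
`J(K_v)` with these square classes; it is written down with the help of the theorem on primes with prescribed quadratic symbols and the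
reciprocity law over the residue field.

Notation: `SD ℓ n K` = `Pool.Agent.Y713.SE.Dat ℓ n K`, data of a superelliptic curve (`Dedekind`: `Pool/Agent/Y713/SE/Ded.lean`; the ring `A`, `y`, the
automorphisms `s j` (`y ↦ ζ^j y`), norms `Nm`, `NI`, `U I` the monic generator of the norm of the ideal `I`: `Ring.lean`, `Idl.lean`; the
evaluation `ev i`, `ord i`, `lead i`, `lam i` at the branch points: `Ev.lean`; classes `cl`: `Cls.lean`; base change `base`, `mp`, `mI`, `mC`:
`Bas.lean`; `PP i`, `PT m`, `sC`, `phi_surj`, `phi_ker`: `Idl.lean`, `Phi.lean`; `Coc`, `Cob`, `Triv`: `Coh.lean`; `KD` (Kummer data), `Pw`: `Glo.lean`).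
The forms `FF`, `E1`, `E2`, `TT`, `kc` of `Pool/Agent/Y164/HG` (`Form.lean`, `Even.lean`) for the data `H.dat σ` (`Geo.lean`); `IsRep`, `Tm`, `S_REP`,
`S_ADJ`, `S_EXT`, `S_INJ` (`Stm.lean`). Their proofs: `t_REP`, `t_ADJ`, `t_EXT`, `t_INJ` are used in `imp_bound`.
-/

set_option autoImplicit false
set_option linter.all false

open scoped Classical
open Polynomial IsDedekindDomain Finset

namespace Pool.Agent.Q269.SX

open Pool.Agent.Y164.HG
open Pool.Agent.Y713.SE (hp Pw cl)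
open Pool.Agent.Y713.SE.Dat (au rs)
open Pool.Agent.Y164.PS (L ch el Fam)
open Pool.Agent.Q269.SL (BoundedBy RepV)

/-- the data of a superelliptic curve -/
abbrev SD (ℓ n : ℕ) (K : Type) [Field K] : Type := Pool.Agent.Y713.SE.Dat ℓ n K

/-! ### from an invariant ideal to a local point -/

/-- **JOB SX-KUM.** The class `R` with `φ(R) = cl B` and the Kummer classes of `B`: the values at the branch points.
Proof. `phi_surj` (`Phi.lean`) for `(cl B)⁻¹`... precisely: there is `R` with `cl B * sC R = R`. For `τ` the class `mC τ R / R` is fixed by `sC`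
(`mC τ` commutes with `sC`, `mC_sC`, and `mI τ B = B`, `mC_cl`), so it is `cl (PT (χ τ))` by `phi_ker` and `cl_PT`. Now copy the first part of the
proof of `locA` (`Loc.lean`) with `B1 = B`, `B2 = ⊤`: `R = cl I`, `span {b} * (B * sI 1 I) = span {a} * (⊤ * I)`, and `key`:
`τ (lead k a) * lead k b * (κ * ζ ^ χ τ k) = τ (lead k b) * lead k a` with `κ ≠ 0` depending only on `τ`. Put `ϑ k = lead k b / lead k a`: then
`τ (ϑ k) = κ ζ ^ χ τ k ϑ k`, which gives the last assertion. Norms: applying `U` (`U_mul`, `U_sI`, `U_span`) `C c₁ * Nm b * U B = C c₂ * Nm a`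
with constants `c₁, c₂ ≠ 0` (the inverses of the leading coefficients). Apply `lam k` (`lam_mul`, `lam_C`, `lead_Nm`, `lam_of_eval`): as
`(U B).eval (e k) ≠ 0` we have `oI k B = 0` and so `ord k a = ord k b` (`oI_mul`, `oI_span`, `oI_sI` applied to the identity of ideals), the
factors `∏ ζ ^ (j * ord k ·)` of `lead_Nm` cancel, and `c₁ lead k b ^ ℓ (U B).eval (e k) = c₂ lead k a ^ ℓ`. -/
def S_KUM : Prop := ∀ (ℓ n : ℕ) (K : Type) [Field K] (D : SD ℓ n K) (F Ω : Type) [Field F] [Algebra K F]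
  [Field Ω] [Algebra K Ω] [Algebra F Ω] [IsScalarTower K F Ω] [IsSepClosed Ω] (p : ℕ) [ExpChar Ω p]
  (B : Ideal (D.base Ω).A), B ≠ ⊥ → (∀ τ : Ω ≃ₐ[F] Ω, D.mI (rs K τ) B = B) →
  (∀ i, ((D.base Ω).U B).eval ((D.base Ω).e i) ≠ 0) →
  ∃ (R : ClassGroup (D.base Ω).A) (χ : (Ω ≃ₐ[F] Ω) → Fin n → ℕ) (ϑ : Fin n → Ω) (c : Ω),
    (∀ τ : Ω ≃ₐ[F] Ω, D.mC (rs K τ) R = R * cl ((D.base Ω).PT (χ τ))) ∧ c ≠ 0 ∧ (∀ i, ϑ i ≠ 0) ∧
    (∀ i, ϑ i ^ ℓ * ((D.base Ω).U B).eval ((D.base Ω).e i) = c) ∧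
    ∀ (τ : Ω ≃ₐ[F] Ω) (i j : Fin n),
      (D.base Ω).ζ ^ χ τ j * (τ (ϑ i) * ϑ j) = (D.base Ω).ζ ^ χ τ i * (ϑ i * τ (ϑ j))

/-- **JOB SX-TRV.** A cocycle with the Kummer classes of an invariant ideal is locally trivial. (`t_TRV (h : S_KUM) : S_TRV`.)
Proof. `R, χv, ϑ, c` from KUM; the point is `P = R`. `(ι θ_ij) ^ ℓ * b_i = z ^ ℓ * b_j`, `b_i = (U B).eval (e i)` (`kd.hd`) and
`ϑ i ^ ℓ * b_i = c = ϑ j ^ ℓ * b_j`, so `ι θ_ij = ω * z * ϑ i / ϑ j` with `ω ^ ℓ = 1`, `ω = ζ ^ m` (`IsPrimitiveRoot.eq_pow_of_pow_eq_one`), fixed by `τ` as `z` is.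
For `τ`, `σ` with `τ (ι x) = ι (σ x)`: `ι` applied to `kd.hθ` gives `ζ ^ χ σ j * τ (ι θ_ij) = ζ ^ χ σ i * ι θ_ij`, so
`ζ ^ χ σ j * τ (ϑ i) * ϑ j = ζ ^ χ σ i * ϑ i * τ (ϑ j)`, and with the last assertion of KUM `ζ ^ (χ σ i + χv τ j) = ζ ^ (χ σ j + χv τ i)`: by `ζ_modEq`
`χ σ i + χv τ j ≡ χ σ j + χv τ i` modulo `ℓ`. So `m i = χ σ i + (ℓ - 1) χv τ i` is constant modulo `ℓ`, `cl (PT m) = 1` (`cl_PT_of_modEq`), and
`cl (PT (χ σ)) = cl (PT (χv τ))` (`cl_PT`, `cl_PP_pow`; `Pool/Agent/Q269/SL/Pig.lean` has `cl_PT_add`). Finally `mC ι (cl (PT (χ σ))) = cl (PT (χ σ))`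
(`mC_PT`) and `mC τ R / R = cl (PT (χv τ))`. -/
def S_TRV : Prop := ∀ (ℓ n : ℕ) (K : Type) [Field K] (D : SD ℓ n K) (E : Type) [Field E] [Algebra K E] [IsGalois K E]
  (F Ω : Type) [Field F] [Algebra K F] [Field Ω] [Algebra K Ω] [Algebra F Ω] [IsScalarTower K F Ω] [IsSepClosed Ω]
  (p : ℕ) [ExpChar Ω p] (ι : E →ₐ[K] Ω) (χ : (E ≃ₐ[K] E) → Fin n → ℕ) (kd : D.KD χ)
  (B : Ideal (D.base Ω).A), B ≠ ⊥ → (∀ τ : Ω ≃ₐ[F] Ω, D.mI (rs K τ) B = B) →
  (∀ i, ((D.base Ω).U B).eval ((D.base Ω).e i) ≠ 0) →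
  (∀ i j, ∃ z : F, z ≠ 0 ∧ algebraMap K Ω (kd.d i j) * ((D.base Ω).U B).eval ((D.base Ω).e i) =
    algebraMap F Ω z ^ ℓ * ((D.base Ω).U B).eval ((D.base Ω).e j)) →
  D.Triv F Ω (fun σ => cl ((D.base E).PT (χ σ)))

/-- **JOB SX-IDL.** The ideal `(U, y - R)` for `U ∣ R² - f` (the divisor with the Mumford representation `(U, R)`).
Proof. `I = span {algebraMap U, y - algebraMap R}`, `I ≠ ⊥`. `NI I = I * sI 1 I` (`ℓ = 2`, `Finset.prod_range_succ`, `sI_zero`),
`sI 1 I = span {U, -y - R}` (`s_y`, `ζ = -1` as `ζ` is a primitive square root of one). The product is generated by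
`U², U (-y - R), (y - R) U, (y - R)(-y - R) = R² - f = U V`, all divisible by `U`; so `NI I = span {U} * Z`,
`Z = span {U, y + R, y - R, V}`. `2` is a unit (`D.hne`), so `y, R ∈ Z`, `y² = f ∈ Z`; `U` and `f` are coprime in `F[X]` (`f = C δ * ∏ (X - C (e i))`, `U` does not
vanish at the `e i`), so `1 ∈ Z`. Conclude with `U_eq_of`. -/
def S_IDL : Prop := ∀ (n : ℕ) (F : Type) [Field F] (D : SD 2 n F) (U R : F[X]), U.Monic → U ∣ R ^ 2 - D.f →
  (∀ i, U.eval (D.e i) ≠ 0) → ∃ I : Ideal D.A, I ≠ ⊥ ∧ D.U I = U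

/-- **JOB SX-TRL.** Local triviality from a Mumford representation. (`t_TRL (h1 : S_TRV) (h2 : S_IDL) : S_TRL`.)
Proof. `I ⊆ (D.base F).A` from IDL for the data `D.base F`; `B = mI φ I`, `φ : F →ₐ[K] Ω` (`IsScalarTower.toAlgHom K F Ω`), not zero (`mI_ne`), invariant
(`mI_mI`; `(rs K τ).comp φ = φ` since `τ` fixes `F`), `U B = U.map` (`U_mI`; `(D.base F).e i` is mapped to `(D.base Ω).e i`), so its values at the `e i` are
the images of `U.eval (e i)` (`eval_map`, `eval₂_at_apply`). TRV. -/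
def S_TRL : Prop := ∀ (n : ℕ) (K : Type) [Field K] (D : SD 2 n K) (E : Type) [Field E] [Algebra K E] [IsGalois K E]
  (F Ω : Type) [Field F] [Algebra K F] [Field Ω] [Algebra K Ω] [Algebra F Ω] [IsScalarTower K F Ω] [IsSepClosed Ω]
  (p : ℕ) [ExpChar Ω p] (ι : E →ₐ[K] Ω) (χ : (E ≃ₐ[K] E) → Fin n → ℕ) (kd : D.KD χ)
  (U R : F[X]), U.Monic → U ∣ R ^ 2 - (D.base F).f → (∀ i, U.eval ((D.base F).e i) ≠ 0) →
  (∀ i j, ∃ z : F, z ≠ 0 ∧ algebraMap K F (kd.d i j) * U.eval ((D.base F).e i) = z ^ 2 * U.eval ((D.base F).e j)) →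
  D.Triv F Ω (fun σ => cl ((D.base E).PT (χ σ)))

/-! ### local points with prescribed square classes -/

/-- **JOB SX-LFF.** Over a finite field: a prime `u` modulo which `f = δ ∏ (X - e i)` is a square, with prescribed square classes at the
zeros of `f`, up to a common factor.
Proof. `s = ∏ y i`. Let `S` be the set of the values of `e`; for `c ∈ S` put `ε c = ch (s * y i)` for an `i` with `e i = c` (independent of the choice: `y i * y j`
is a square if `e i = e j`; `ch` is the quadratic symbol of a constant, `Pool/Agent/Y164/PS/Sym.lean`). There is a monic irreducible `u` of large even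
degree `d` with `L (X - C c) u = ε c` for all `c ∈ S`: the number of these `u ∈ Pr κ d` is `∑_u ∏_(c∈S) (1 + sg (ε c) sg (L (X - C c) u))/2`; expand the
product; the term of the subset `∅` is `2^(-|S|) #Pr`, and for a nonempty subset `S'` the sum over `u` of `∏_(c∈S') sg (L (X - C c) u) = lam M u`,
`M = ∏_(c∈S') (X - C c)` (not a constant times a square; `sg_L`, `lam_mul_left`/`L_prod_left`) is at most `(5 |S'| + 2) q^(d/2)/d` by `char_sum`, while
`#Pr ≥ (q^d - 2 q^(d/2))/d` (`card_Pr_ge`), both in `Pool/Agent/Y164/PS/Chr.lean`: positive for large `d`. By the reciprocity law `L_comm`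
(`-1` is a square) `L (X - C c) u = L u (X - C c) = ch (u.eval c)` (`L_congr` modulo `X - C c` and `L_C`; the degree of `X - C c` is one; `u.eval c ≠ 0` as `u` is
irreducible of degree `≥ 2`). So `s * y i * u.eval (e i)` is a square (`ch_mul`, `ch_eq_zero_iff`). Finally
`L f u = d * ch δ + ∑_i L (X - C (e i)) u = ∑_i ch (s * y i) = n ch s + ch (∏ y i) = 0` (`d` even, `n` odd, `s = ∏ y i`; `L_mul_left`, `L_prod_left`, `L_C`), and
`L_eq_zero_iff` gives `r` with `u ∣ r² - f`. -/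
def S_LFF : Prop := ∀ (κ : Type) [Field κ] [Fintype κ] (n : ℕ), ringChar κ ≠ 2 → IsSquare (-1 : κ) → Odd n →
  ∀ (e y : Fin n → κ) (δ : κ), δ ≠ 0 → (∀ i, y i ≠ 0) → (∀ i j, e i = e j → IsSquare (y i * y j)) →
  ∃ (u r : κ[X]) (s : κ), u.Monic ∧ Irreducible u ∧ (∀ i, u.eval (e i) ≠ 0) ∧ s ≠ 0 ∧
    u ∣ r ^ 2 - C δ * ∏ i, (X - C (e i)) ∧ ∀ i, IsSquare (s * y i * u.eval (e i))

/-- **JOB SX-HEN.** Hensel's lemma in the unramified extensions of a completion, and for units. `O = v.adicCompletionIntegers K`, a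
complete discrete valuation ring, `residue` the map to its residue field.
Proof. (1) Let `2` be a unit of `O`, `d = deg U`. Construct `R_m ∈ O[X]` of degree `< d` with `U ∣ R_m² - f + ϖ^m V_m` for some `V_m` (that is
`R_m² ≡ f` modulo `(U, ϖ^m)`) and `R_(m+1) ≡ R_m` modulo `ϖ^m`: since `u = U mod ϖ` is irreducible and does not divide `f mod ϖ`, `R_m` is a unit modulo
`(U, ϖ)` (`R_m² ≡ f`), so there is `W` with `2 R_m W ≡ 1` modulo `(U, ϖ)`, and `R_(m+1) = R_m - ϖ^m V'`, `V' ≡ W V''` with `R_m² - f ≡ ϖ^m V''` modulo `U`. The coefficients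
of the `R_m` are Cauchy sequences; the limit `R` has `R² - f ∈ (U)` (division with remainder by the monic `U` is continuous in the coefficients,
the remainder of `R² - f` is divisible by all `ϖ^m`). Other way: `B = O[X]/(U)` is a finite free `O`-module, complete for the ideal `ϖ B`
(`IsAdicComplete.henselianRing`). (2) is the case `U = X` or `Henselian` for `O` itself. -/
def S_HEN : Prop := ∀ (R K : Type) [CommRing R] [IsDedekindDomain R] [Field K] [Algebra R K] [IsFractionRing R K]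
  (v : HeightOneSpectrum R), IsUnit (2 : v.adicCompletionIntegers K) →
  (∀ U f r : (v.adicCompletionIntegers K)[X], U.Monic →
    Irreducible (U.map (IsLocalRing.residue (v.adicCompletionIntegers K))) →
    ¬ U.map (IsLocalRing.residue (v.adicCompletionIntegers K)) ∣ f.map (IsLocalRing.residue (v.adicCompletionIntegers K)) →
    U.map (IsLocalRing.residue (v.adicCompletionIntegers K)) ∣
      (r ^ 2 - f).map (IsLocalRing.residue (v.adicCompletionIntegers K)) →
    ∃ R' : (v.adicCompletionIntegers K)[X], U ∣ R' ^ 2 - f) ∧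
  ∀ x : v.adicCompletionIntegers K, IsUnit x → IsSquare (IsLocalRing.residue (v.adicCompletionIntegers K) x) → IsSquare x

/-- **JOB SX-LOC.** Local points with prescribed square classes at a place at which the twist is a unit.
(`t_LOC (h1 : S_LFF) (h2 : S_HEN) : S_LOC`.)
Proof. `O = v.adicCompletionIntegers K`, `κ` = its residue field, which is finite of the characteristic of `k` (`k[X]/v` is finite and maps onto `κ`:
`k[X] → O → κ` is surjective, as `k[X]` is dense in `O`; Mathlib has the isomorphism of `R ⧸ v.asIdeal` with the residue field of the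
completion), and `-1` is a square in it. `δ`, `e i`, `y i` are in `O`, `δ`, `y i` units; `e i ≡ e j` in `κ` iff `v (e i - e j) < 1`, and a square of `K_v` which is a unit
of `O` is the square of an element of `O`. LFF for the reductions gives `u`, `r`, `s`. Lift `u` to a monic `U ∈ O[X]` (`Polynomial.lifts`…: lift the coefficients,
leading coefficient one; `Polynomial.lifts_and_degree_eq_and_monic`), `r` and `s` arbitrarily (`s` to a unit). `u` does not divide the reduction of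
`f = C δ ∏ (X - C (e i))` (it is irreducible and does not vanish at the `e i`). HEN (1) gives `R'` with `U ∣ R'² - f`, and HEN (2) shows that the units
`s * y i * U.eval (e i)` are squares. Map everything to `K_v`. -/
def S_LOC : Prop := ∀ (k K : Type) [Field k] [Fintype k] [Field K] [Algebra k[X] K] [IsFractionRing k[X] K],
  ringChar k ≠ 2 → IsSquare (-1 : k) → ∀ (n : ℕ), Odd n → ∀ (v : HeightOneSpectrum k[X])
  (δ : v.adicCompletion K) (e y : Fin n → v.adicCompletion K),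
  Valued.v δ = (1 : WithZero (Multiplicative ℤ)) → (∀ i, Valued.v (e i) ≤ (1 : WithZero (Multiplicative ℤ))) →
  (∀ i, Valued.v (y i) = (1 : WithZero (Multiplicative ℤ))) →
  (∀ i j, Valued.v (e i - e j) < (1 : WithZero (Multiplicative ℤ)) → IsSquare (y i * y j)) →
  ∃ (U R : (v.adicCompletion K)[X]) (s : v.adicCompletion K), U.Monic ∧
    U ∣ R ^ 2 - C δ * ∏ i, (X - C (e i)) ∧ s ≠ 0 ∧
    ∀ i, U.eval (e i) ≠ 0 ∧ IsSquare (s * y i * U.eval (e i))

/-- **JOB SX-LCT.** Local triviality at a place at which the twist is a unit. (`t_LCT (h1 : S_LOC) (h2 : S_TRL) : S_LCT`.)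
Proof. Fix an index `0 : Fin n` (`n` is odd). `y i * y 0` has even valuation (`Pw 2`): write `y i * y 0 = g i * (z i)²` in `K_v` with `v (g i) = 1`, `z i ≠ 0` (divide by the square of an
element of `K` of the right valuation: `Pw` gives `β` with `v (y i * y 0) = β²`; the valuation is surjective onto the nonzero elements,
`v.valuation_surjective` or `val_hp_self` and `exists_gen`; `val_coe` in `Pool/Agent/Y713/SE/Plc.lean` compares `Valued.v` and `v.valuation K`). If
`v (e i - e j) < 1` then `y i * y j` is a square in `K_v`, so `g i * g j = y i * y j * (y 0/(z i z j))²` is one. LOC with `δ`, `e`, `g` gives `U`, `R`, `s`, where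
`s * g i * U(e i)` is a nonzero square for all `i`: so `g i g j U(e i) U(e j)` is a nonzero square, and as `kd.d i j = x² (y i * y j) = (square) g i g j` we get that
`kd.d i j * U (e i) * U (e j)` is a nonzero square `z²`, `kd.d i j * U (e i) = (z / U (e j))² U (e j)`. TRL (`(D.base K_v).f = C δ * ∏ (X - C (e i))`). -/
def S_LCT : Prop := ∀ (k K : Type) [Field k] [Fintype k] [Field K] [Algebra k[X] K] [IsFractionRing k[X] K],
  ringChar k ≠ 2 → IsSquare (-1 : k) → ∀ (n : ℕ), Odd n → ∀ (D : SD 2 n K) (v : HeightOneSpectrum k[X]),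
  v.valuation K D.δ = 1 → (∀ i, v.valuation K (D.e i) ≤ 1) →
  ∀ (E : Type) [Field E] [Algebra K E] [IsGalois K E] (Ω : Type) [Field Ω] [Algebra K Ω]
  [Algebra (v.adicCompletion K) Ω] [IsScalarTower K (v.adicCompletion K) Ω] [IsSepClosed Ω]
  (p : ℕ) [ExpChar Ω p] (ι : E →ₐ[K] Ω) (χ : (E ≃ₐ[K] E) → Fin n → ℕ) (kd : D.KD χ) (y : Fin n → K),
  (∀ i, y i ≠ 0) → (∀ i j, Pw 2 (v.valuation K (y i * y j))) →
  (∀ i j, v.valuation K (D.e i - D.e j) < 1 →
    ∃ z : v.adicCompletion K, algebraMap K (v.adicCompletion K) (y i * y j) = z ^ 2) →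
  (∀ i j, ∃ x : K, x ≠ 0 ∧ kd.d i j = x ^ 2 * (y i * y j)) →
  D.Triv (v.adicCompletion K) Ω (fun σ => cl ((D.base E).PT (χ σ)))

/-! ### the converse of the local lemmas -/

/-- **JOB SX-RPC.** Converse of `S_REP`.
Proof. `d = r * ∏ R y ^ n y * z²`. (1) `R y` is a unit at `hp (R x)` for `y ≠ x` and at the places not containing any `R y` (`val_eq_one_iff`), constants are units, and
`n x` is even. (2) `n x` is even: up to the square of `R x ^ (n x/2) * z` the element is `el' R x r n` (`Pool/Agent/Y164/PS/El0.lean`), not divisible by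
`R x`, with `L (el' R x r n) (R x) = Lm R r n (R x) = 0` (`L_el'`): it is a square modulo `R x` (`L_eq_zero_iff`), and a local square by Hensel's lemma (the
proof of `S_REP`, second part, has the converse; a unit `g ∈ k[X]` with `R x ∣ t² - g` is a square in the completion: `HenselianLocalRing` or
Newton's iteration, complete valuation ring, `2` a unit; or search `Pool/Agent/Y713/SE`, `Pool/Agent/Y164/PS/Sel.lean` for a lemma on local squares). -/
def S_RPC : Prop := ∀ (k K : Type) [Field k] [Fintype k] [Field K] [Algebra k[X] K]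
    [IsFractionRing k[X] K] (κ : Type) [Fintype κ] (R : κ → k[X]) (hR : Fam R), ringChar k ≠ 2 →
  (∀ (d : K) (c : ZMod 2) (u : κ → ZMod 2), IsRep R d c u →
    (∀ x : κ, u x = 0 → Pw 2 ((hp (R x) (hR.irr x)).valuation K d)) ∧
    ∀ v : HeightOneSpectrum k[X], (∀ x, R x ∉ v.asIdeal) → Pw 2 (v.valuation K d)) ∧
  ∀ (d : K) (c : ZMod 2) (u : κ → ZMod 2), IsRep R d c u → ∀ x : κ, u x = 0 →
    ∑ y, u y * L (R y) (R x) + ((R x).natDegree : ZMod 2) * c = 0 →
    ∃ z : (hp (R x) (hR.irr x)).adicCompletion K, algebraMap K _ d = z ^ 2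

/-- **JOB SX-E1C.** Converse of `E1_of_loc` (`Pool/Agent/Y164/HG/Eqs.lean`). (`t_E1C (h : S_RPC) : S_E1C`.)
Proof. Read the proof of `E1_of_loc`: the element `mi i * mi j * (Tm D0 mv i * Tm D0 mv j)` has the representation computed there; its exponent at `T x` is
`(w.1 x) i + (w.1 x) j + mv i + mv j = 0`, and its symbol at `T x` is the sum of the `i`-th and the `j`-th coordinate of `E1 … x`
(`E1_coord`), so it is zero. RPC (2). -/
def S_E1C : Prop := ∀ (k K : Type) [Field k] [Fintype k] [Field K] [Algebra k[X] K] [IsFractionRing k[X] K]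
  (n : ℕ) (a : Fin n → k[X]) (N : ℕ) (H : Geo a N) (ι : Type) [Fintype ι] (T : ι → k[X]) [Fact (Odd n)]
  (hR : Fam (RR a T)) (D0 : SD 2 n K), D0.δ = algebraMap k[X] K (∏ i, T i) → (∀ i, D0.e i = algebraMap k[X] K (a i)) →
  ∀ (σ : Tau a → F2) (w : V (EW n) ι (Tau a)) (x0 : EW n) (mi : Fin n → K),
  (∀ i, IsRep (RR a T) (mi i) (x0.1 i) (uu H.p H.q w i)) → ∀ (x : ι) (mv : Fin n → ℕ),
  (∀ i, (mv i : F2) = (w.1 x).1 i) →
  E1 (A := AT T) (H.dat σ) (BT (QQ a) T) (fun i => ((T i).natDegree : F2)) w x0 x = 0 →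
  ∀ i j, ∃ z : (hp (RR a T (Sum.inl x)) (hR.irr (Sum.inl x))).adicCompletion K,
    algebraMap K _ (mi i * mi j * (Tm D0 mv i * Tm D0 mv j)) = z ^ 2

/-- **JOB SX-E2C.** Converse of `E2_of_loc` (`Pool/Agent/Y164/HG/Eqs.lean`), and the valuations. (`t_E2C (h : S_RPC) : S_E2C`.)
Proof. Read the proof of `E2_of_loc` (representation of `mi (p s) * mi (q s) * (Tm … (p s) * Tm … (q s))`): its exponent at `QQ a s` is `w.2 s + w.2 s + r + r = 0` and
its symbol is `E2 … s` (with `hcl`), RPC (2). Valuations at `QQ a s`: `mi i` has the exponent `w.2 s * e2 (p s) (q s) i`, `Tm … i` with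
`mv l = if l = q s then r else 0` has the exponent `r` at `i = p s` (`a (p s) - a (q s)` is divisible exactly once), `-r` at `i = q s`, `0` otherwise (`val_sub_node`,
`val_sub_pq`, `val_twist_one` in `Kda.lean`; `T` is prime to `QQ a s`), `r ≡ w.2 s`: all even. -/
def S_E2C : Prop := ∀ (k K : Type) [Field k] [Fintype k] [Field K] [Algebra k[X] K] [IsFractionRing k[X] K]
  (n : ℕ) (a : Fin n → k[X]) (N : ℕ) (H : Geo a N) (ι : Type) [Fintype ι] (T : ι → k[X]) [Fact (Odd n)]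
  (hR : Fam (RR a T)) (D0 : SD 2 n K), D0.δ = algebraMap k[X] K (∏ i, T i) → (∀ i, D0.e i = algebraMap k[X] K (a i)) →
  ∀ (σ : Tau a → F2), (∀ s, σ s + ∑ i, BT (QQ a) T i s + H.comb.gg s = 0) →
  ∀ (w : V (EW n) ι (Tau a)) (x0 : EW n) (mi : Fin n → K),
  (∀ i, IsRep (RR a T) (mi i) (x0.1 i) (uu H.p H.q w i)) → ∀ (s : Tau a) (r : ℕ), (r : F2) = w.2 s →
  E2 (H.dat σ) (BT (QQ a) T) w x0 s = 0 →
  (∃ z : (hp (RR a T (Sum.inr s)) (hR.irr (Sum.inr s))).adicCompletion K,
    algebraMap K _ (mi (H.p s) * mi (H.q s) * (Tm D0 (fun l => if l = H.q s then r else 0) (H.p s) *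
      Tm D0 (fun l => if l = H.q s then r else 0) (H.q s))) = z ^ 2) ∧
  ∀ i j, Pw 2 ((hp (RR a T (Sum.inr s)) (hR.irr (Sum.inr s))).valuation K
    (mi i * mi j * (Tm D0 (fun l => if l = H.q s then r else 0) i * Tm D0 (fun l => if l = H.q s then r else 0) j)))

/-- **JOB SX-KDX.** The cocycle of a family of elements of `K`.
Proof. `ζ = -1`. Choose `θ i ∈ E`, `θ i ^ 2 = mi i` (`IsSepClosed.exists_pow_nat_eq` or `exists_eq_mul_self`; `2 ≠ 0` by `D.hne`), not zero. For `σ` put `χ σ i = 0` if `σ (θ i) = θ i`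
and `1` otherwise (then `σ (θ i) = - θ i`, the square is fixed). `kd.θ i j = θ i / θ j`, `kd.d i j = mi i / mi j`. `χ` is locally constant (`locConst_apply`) and
`χ (σ τ) i ≡ χ σ i + χ τ i` modulo `2`, so `cl (PT (χ (σ τ))) = cl (PT (χ σ)) * cl (PT (χ τ))` (`cl_PT_add`, `cl_PT`, `cl_PP_pow`), and `mC (au σ)` fixes the classes
`cl (PT m)` (`mC_PT`). -/
def S_KDX : Prop := ∀ (n : ℕ) (K : Type) [Field K] (D : SD 2 n K) (E : Type) [Field E] [Algebra K E] [IsGalois K E]
  [IsSepClosed E] (mi : Fin n → K), (∀ i, mi i ≠ 0) →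
  ∃ (χ : (E ≃ₐ[K] E) → Fin n → ℕ) (kd : D.KD χ), D.Coc (fun σ => cl ((D.base E).PT (χ σ))) ∧
    ∀ i j, ∃ z : K, z ≠ 0 ∧ mi i * mi j = z ^ 2 * kd.d i j

section glob
variable {k K : Type} [Field k] [Fintype k] [Field K] [Algebra k[X] K] [IsFractionRing k[X] K]
variable {n : ℕ} {a : Fin n → k[X]} {N : ℕ} (H : Geo a N) {ι : Type} [Fintype ι] [Fact (Odd n)]

/-- `(w, x0)` solves all the local equations -/
def IsSol (T : ι → k[X]) (σ : Tau a → F2) (w : V (EW n) ι (Tau a)) (x0 : EW n) : Prop :=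
  (∀ x, E1 (A := AT T) (H.dat σ) (BT (QQ a) T) (fun i => ((T i).natDegree : F2)) w x0 x = 0) ∧
    ∀ s, E2 (H.dat σ) (BT (QQ a) T) w x0 s = 0

end glob

/-- **JOB SX-BWD.** Every solution of the local equations comes from a cocycle which is locally trivial at all places.
(`t_BWD (h1 : S_LCT) (h2 : S_TRL) (h3 : S_RPC) (h4 : S_E1C) (h5 : S_E2C) (h6 : S_KDX) (h7 : S_ADJ) : S_BWD`.)
Proof. `mi i = el (RR a T) r n` with `ch r = x0.1 i`, `n x ≡ uu H.p H.q w i x` (there is a non-square in `k`, `isRep_el`): `IsRep (RR a T) (mi i) (x0.1 i) (uu H.p H.q w i)`. KDX gives `χ`, `kd`: `RepV` holds.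
Let `v` be a place and `ι₀ : E →ₐ[K] Ω v` (`IsSepClosed.lift`). (a) no element of `RR a T` is in `v`: `v D0.δ = 1` (`val_twist_one`), `v (e i - e j) = 1` for `i ≠ j` (`val_sub_one`),
`mi i * mi j` has even valuation (RPC (1) for the product, `IsRep.mul`): LCT with `y = mi`. (b) `v = hp (T x)` (`eq_hp`): let `mv i` be the natural number `0` or `1` with the residue class
`(w.1 x).1 i`. `exists_adj` (`Pool/Agent/Y713/SE/Glo3.lean`) with `m = mv` gives `Q`, `χ'`, and `exists_KD` `kd'` for `χ'`; by `S_ADJ` and E1C `kd'.d i j` is a nonzero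
square in `K_v` (`kd.d i j` is `mi i * mi j` up to squares), so TRL with `U = 1`, `R = 0` gives `Triv` for `χ'`, and `Triv.div` (`Red.lean`) with the class `Q⁻¹`:
`cl (PT (χ σ)) = cl (PT (χ' σ)) / (mC σ Q⁻¹ / Q⁻¹)`. (c) `v = hp (QQ a s)`: `r` = `0` or `1` with the class `w.2 s`, `m l = if l = H.q s then r else 0`, `χ'`, `kd'`, `Q` as before; LCT for `χ'`
with `y i = mi i * Tm D0 m i`: `v D0.δ = 1`, `v (e i - e j) < 1` only for `i = j` and `{i, j} = {p s, q s}` (`val_sub_node`), E2C. Then `Triv.div`. -/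
def S_BWD : Prop := ∀ (k K : Type) [Field k] [Fintype k] [Field K] [Algebra k[X] K] [IsFractionRing k[X] K]
  (n : ℕ) (a : Fin n → k[X]) (N : ℕ) (H : Geo a N) (ι : Type) [Fintype ι] (T : ι → k[X]) [Fact (Odd n)]
  (hR : Fam (RR a T)) (D0 : SD 2 n K), D0.δ = algebraMap k[X] K (∏ i, T i) → (∀ i, D0.e i = algebraMap k[X] K (a i)) →
  ∀ (σ : Tau a → F2), (∀ s, σ s + ∑ i, BT (QQ a) T i s + H.comb.gg s = 0) →
  ∀ (E : Type) [Field E] [Algebra K E] [IsGalois K E] [IsSepClosed E] (p : ℕ) [ExpChar E p]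
  (Ω : HeightOneSpectrum k[X] → Type) [∀ v, Field (Ω v)] [∀ v, Algebra (v.adicCompletion K) (Ω v)]
  [∀ v, Algebra K (Ω v)] [∀ v, IsScalarTower K (v.adicCompletion K) (Ω v)] [∀ v, IsSepClosed (Ω v)]
  [∀ v, IsGalois (v.adicCompletion K) (Ω v)] [∀ v, ExpChar (Ω v) p]
  (w : V (EW n) ι (Tau a)) (x0 : EW n), IsSol H T σ w x0 →
  ∃ χ : (E ≃ₐ[K] E) → Fin n → ℕ, D0.Coc (fun τ => cl ((D0.base E).PT (χ τ))) ∧ RepV H T D0 χ w x0 ∧
    ∀ v, D0.Triv (v.adicCompletion K) (Ω v) (fun τ => cl ((D0.base E).PT (χ τ)))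

/-- **JOB SX-CNT.** The number of the solutions. (`t_CNT (h : Pool.Agent.Q269.GJ.S_RAD) : S_CNT`.)
Proof. `(w, x0) ↦ (w + TT (dg w), x0 + ks (dg w)), dg w` is a bijection of the solutions onto (solutions with `dg w = 0`) × `W` (`E1_TT`, `E2_TT`, `E1_add`, `E2_add`,
`dg_TT' : dg (TT y) = y`, `Pool/Agent/Q269/SL/Pig.lean`). The solutions with `dg w = 0` correspond to the `w` in the kernel: `FF_eq` in one direction, `S_RAD` gives `x0` in the other,
and `x0` is unique: if `(w, x0)`, `(w, x0')` are solutions then `(0, x0 + x0')` is one, and `FF_eq` gives `om (x0 + x0') (dg w') = 0` for all `w'`, `dg` is surjective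
(`dg (TT y) = y`), so `x0 + x0' = 0` (`eq_zero_of_om`). -/
def S_CNT : Prop := ∀ (W : Type) [AddCommGroup W] [Module F2 W] [Finite W] [Symp W] (ι τ : Type) [Fintype ι]
  [Fintype τ] (D : Dat W τ) (A : ι → ι → F2) (B : ι → τ → F2) (d : ι → F2), (∀ i j, A i j = A j i) →
  (∀ s, D.sp s + ∑ i, B i s + D.g s = 0) → ∑ i, d i + D.N = 1 →
  Nat.card {q : V W ι τ × W // (∀ i, E1 (A := A) D B d q.1 q.2 i = 0) ∧ ∀ s, E2 (ι := ι) D B q.1 q.2 s = 0} =
    kc D A B d * Nat.card W

/-- **JOB SX-RPU.** The solution determines the cocycle and conversely. (`t_RPU (h : S_REP) : S_RPU`.)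
Proof. Let `kd`, `mi` and `kd'`, `mi'` be the data of the two `RepV`. (←) `mi i * mi' i * (mi j * mi' j)` has the representation `0, 0` (`IsRep.mul`, characteristic two), so it is
a square (`S_REP`, third part), so `kd.d i j * kd'.d i j = z²`, `z ≠ 0`, `kd.θ i j * kd'.θ i j = ± z` is fixed by `σ`, and `hθ` gives
`ζ ^ (χ σ j + χ' σ j) = ζ ^ (χ σ i + χ' σ i)`, that is `χ σ i + χ' σ i ≡ χ σ j + χ' σ j` modulo `2` (`ζ_modEq`; see `modEq_of_pow` for `kdMul`), so `cl (PT (χ σ)) * cl (PT (χ' σ)) = 1`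
(`cl_PT_add`, `cl_PT_of_modEq`) and both have square one. (→) `PT_indep` (`Phi.lean`) gives `χ σ i + χ' σ j ≡ χ σ j + χ' σ i`, so `kd.θ i j * kd'.θ i j` is fixed by all `σ`, in `K`, and
`kd.d i j * kd'.d i j` is a square of `K`, so `mi i * mi' i * (mi j * mi' j)` is the square of a nonzero element. Its valuations are even: `S_REP` (1) gives that the exponents
`uu … (w + w') i x + uu … (w + w') j x` vanish for all `i, j, x`. For `x = inl y`: `(w + w').1 y` is constant and of even weight, `n` odd: zero. For `x = inr s`: take `i = p s` and `j ≠ p s, q s`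
(`third`, `n ≥ 3`): `(w + w').2 s = 0`. The constant `r` with `ch r = (x0 + x0') i + (x0 + x0') j` is then a square in `K`, so in `k[X]`, so in `k`: `ch r = 0`, `x0 + x0'` is constant: zero. -/
def S_RPU : Prop := ∀ (k K : Type) [Field k] [Fintype k] [Field K] [Algebra k[X] K] [IsFractionRing k[X] K]
  (n : ℕ) (a : Fin n → k[X]) (N : ℕ) (H : Geo a N) (ι : Type) [Fintype ι] (T : ι → k[X]) [Fact (Odd n)]
  (hR : Fam (RR a T)) (D0 : SD 2 n K), D0.δ = algebraMap k[X] K (∏ i, T i) → (∀ i, D0.e i = algebraMap k[X] K (a i)) →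
  ∀ (E : Type) [Field E] [Algebra K E] [IsGalois K E] (χ χ' : (E ≃ₐ[K] E) → Fin n → ℕ)
  (w w' : V (EW n) ι (Tau a)) (x0 x0' : EW n), RepV H T D0 χ w x0 → RepV H T D0 χ' w' x0' →
  ((∀ σ, cl ((D0.base E).PT (χ σ)) = cl ((D0.base E).PT (χ' σ))) ↔ (w = w' ∧ x0 = x0'))

/-- **JOB SX-SEL.** The Selmer group is as large as the kernel: many rational classes and many elements of `Ш[2]`.
(`t_SEL (h1 : S_BWD) (h2 : S_CNT) (h3 : S_EXT) (h4 : S_INJ) (h5 : S_RPU) : S_SEL`.)
Proof. `G` = the finite set of the solutions `g = (w, x0)`, a subgroup (`E1_add`, `E2_add`) of order `kc * |W|` (CNT; `AT_comm`, `hcl`), `W = EW n`. For `g` choose `χ_g` (BWD),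
`c_g σ = cl (PT (χ_g σ))`. (i) By `RepV.mul` and RPU `c_(g+g') = c_g c_(g')`, and `c_g = c_(g')` only for `g = g'`. (ii) `G₀ = {g : Cob c_g}` is a subgroup; `B = |G/G₀|`, `c` = the `c_g` for
representatives of the cosets: `Cob (c_g / c_g')` iff `g - g' ∈ G₀` (`c_g² = 1`, `cl_PT`, `cl_PP_pow`); `c_g² = 1` is a coboundary. (iii) For `g ∈ G₀` choose `Q_g` with `c_g σ = mC σ Q_g / Q_g`. `c_g² = 1`,
so `Q_g²` is invariant and `Q_g² = mC (Algebra.ofId K E) y_g`, `y_g ∈ ClassGroup (D0.base K).A` (`descend` in `Pool/Agent/Q269/SL/Selb.lean`). Say `g ~ g'` if `y_g = y_g' * cl (PT m) * z²` for some `m`,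
`z` (an equivalence relation, as `cl (PT m)² = 1`, `cl_PT_add`). If `g ~ g'` then `t = Q_g / (Q_g' * mC z)` has `t² = cl (PT m)` and `c_g σ / c_g' σ = mC σ t / t`. If also `g₁ ~ g'` with `m₁`, `t₁` and `m i + m₁ i ≡ m j + m₁ j`
modulo `2` for all `i, j` then `(t/t₁)² = cl (PT (m + m₁)) = 1` (`cl_PT_of_modEq`), so `sC (t/t₁) = (t/t₁)⁻¹ = t/t₁` (`prod_sC` for `ℓ = 2`) and `t/t₁ = cl (PT m₂)` (`phi_ker`, `cl_PT`), which is fixed by `mC σ` (`mC_PT`): so
`c_g = c_(g₁)`, `g = g₁`. So a class of `~` injects into `(Fin n → F2)` modulo the constants, a set with `2^(n-1) = |W|` elements (or: into `W`, by adding a constant to `m` modulo `2` such that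
the weight is even, `n` odd). So for `A` = the number of the classes of `~`, `A |W| ≥ |G₀|`, `x` = the `y_g` of representatives: the first condition holds (`x i = x j * cl (PT m) * y²` is `~`).
`A * B ≥ |G₀|/|W| * |G|/|G₀| = kc` (all as `kc * |W| = |G| = |G₀| B ≤ A |W| B`). -/
def S_SEL : Prop := ∀ (k K : Type) [Field k] [Fintype k] [Field K] [Algebra k[X] K] [IsFractionRing k[X] K]
  (n : ℕ) (a : Fin n → k[X]) (N : ℕ) (H : Geo a N) (ι : Type) [Fintype ι] (T : ι → k[X]) [Fact (Odd n)]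
  (hR : Fam (RR a T)) (D0 : SD 2 n K), D0.δ = algebraMap k[X] K (∏ i, T i) → (∀ i, D0.e i = algebraMap k[X] K (a i)) →
  ∀ (σ : Tau a → F2), (∀ s, σ s + ∑ i, BT (QQ a) T i s + H.comb.gg s = 0) →
  ∑ i, ((T i).natDegree : F2) + (N : F2) = 1 →
  ∀ (E : Type) [Field E] [Algebra K E] [IsGalois K E] [IsSepClosed E] (p : ℕ) [ExpChar E p]
  (Ω : HeightOneSpectrum k[X] → Type) [∀ v, Field (Ω v)] [∀ v, Algebra (v.adicCompletion K) (Ω v)]
  [∀ v, Algebra K (Ω v)] [∀ v, IsScalarTower K (v.adicCompletion K) (Ω v)] [∀ v, IsSepClosed (Ω v)]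
  [∀ v, IsGalois (v.adicCompletion K) (Ω v)] [∀ v, ExpChar (Ω v) p],
  ∃ (A B : ℕ) (x : Fin A → ClassGroup (D0.base K).A) (c : Fin B → (E ≃ₐ[K] E) → ClassGroup (D0.base E).A),
    kc (H.dat σ) (AT T) (BT (QQ a) T) (fun i => ((T i).natDegree : F2)) ≤ A * B ∧
    (∀ i j, i ≠ j → ¬ ∃ (m : Fin n → ℕ) (y : ClassGroup (D0.base K).A),
      x i = x j * cl ((D0.base K).PT m) * y ^ 2) ∧
    (∀ j, D0.Coc (c j)) ∧ (∀ j v, D0.Triv (v.adicCompletion K) (Ω v) (c j)) ∧
    (∀ j, D0.Cob (fun σ => c j σ ^ 2)) ∧ ∀ i j, i ≠ j → ¬ D0.Cob (fun σ => c i σ / c j σ)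

/-- **JOB SX-BDX.** Transport to the groups of the statement. (`t_BDX (h : S_INJ) : S_BDX`.)
Proof. The converse of `bounded_of` (`Pool/Agent/Q269/SL/Bnd.lean`): the families `Te ∘ x` (`Te : Cl ≃ J`, `Pool/Agent/Y713/SE/StmT.lean`; `Te K` composed with `D.base K`…, see how
`bounded_of` identifies `J 2 D.f K` with `ClassGroup (D.base K).A`) and `fun j σ => Te (c j σ)` satisfy the hypotheses of `BoundedBy`. Cocycles, coboundaries and triviality over
the completions are transported by `Th_nat` / `Te_symm_nat`. If `Te (x i) = Te (x j) * T' * y'²` with `T'² = 1` then `T' = Te t`, `t² = 1`, and `t = cl (PT m)`: over the separable closure `sC t = t⁻¹ = t`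
(`prod_sC`), so `mC t = cl (PT m) = mC (cl (PT m))` by `phi_ker`, `cl_PT`, `mC_PT`, and `S_INJ`. -/
def S_BDX : Prop := ∀ (n : ℕ) (K : Type) [Field K] (D : SD 2 n K) (R : Type) [CommRing R] [IsDedekindDomain R]
  [Algebra R K] [IsFractionRing R K] (p : ℕ) [ExpChar (SeparableClosure K) p] (A B M : ℕ)
  (x : Fin A → ClassGroup (D.base K).A)
  (c : Fin B → Pool.Agent.Y713.Jac.Gal K → ClassGroup (D.base (SeparableClosure K)).A),
  (∀ i j, i ≠ j → ¬ ∃ (m : Fin n → ℕ) (y : ClassGroup (D.base K).A),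
      x i = x j * cl ((D.base K).PT m) * y ^ 2) →
  (∀ j, D.Coc (c j)) →
  (∀ j, ∀ v : HeightOneSpectrum R, D.Triv (v.adicCompletion K) (SeparableClosure (v.adicCompletion K)) (c j)) →
  (∀ j, D.Cob (fun σ => c j σ ^ 2)) → (∀ i j, i ≠ j → ¬ D.Cob (fun σ => c i σ / c j σ)) →
  BoundedBy D.f R M → A * B ≤ M

end Pool.Agent.Q269.SX
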