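import Pool.Agent.Q269.AV.A6
import Pool.Agent.Q269.SX.Lv

/-!
# Project SX: the moments of the laws, and the convergence of mean values
-/

set_option autoImplicit false
set_option linter.all false
set_option maxHeartbeats 800000

open scoped Classical
open Finset Polynomial Filter Topology

namespace Pool.Agent.Q269.SX

open Pool.Agent.Q269.SL (lawc law2 hasSum_lawc lawc_nonneg)
open Pool.Agent.Q269.MF (bet)
open Pool.Agent.Q269.AV (bb bb_pos bb_succ bb_zero bc lawc_bc bc_nonneg)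

/-- the series of the moments converges -/
theorem summable_bb (j : ℕ) : Summable fun e : ℕ => bb e * ((2 : ℝ) ^ j) ^ e := by
  refine summable_of_ratio_norm_eventually_le (r := 1 / 2) (by norm_num) ?_
  filter_upwards [eventually_ge_atTop (j + 2)] with e he
  have h1 := bb_succ e
  have h2 : (2 : ℝ) ^ (j + 2) ≤ 2 ^ (e + 1) - 1 := by
    have h3 : (2 : ℝ) ^ (j + 3) ≤ 2 ^ (e + 1) := pow_le_pow_right₀ (by norm_num) (by omega)
    have h4 : (1 : ℝ) ≤ 2 ^ (j + 2) := one_le_pow₀ (by norm_num)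
    have h5 : (2 : ℝ) ^ (j + 3) = 2 * 2 ^ (j + 2) := by ring
    linarith
  have h6 : (0 : ℝ) < 2 ^ (e + 1) - 1 := lt_of_lt_of_le (by positivity) h2
  have hb := bb_pos e
  have hb' := bb_pos (e + 1)
  rw [Real.norm_of_nonneg (by positivity), Real.norm_of_nonneg (by positivity)]
  have h7 : bb (e + 1) = 2 * bb e / (2 ^ (e + 1) - 1) := by
    rw [eq_div_iff h6.ne']
    exact h1
  rw [h7, pow_succ ((2 : ℝ) ^ j) e, div_mul_eq_mul_div, div_le_iff₀ h6]
  have h8 : 0 < ((2 : ℝ) ^ j) ^ e := by positivity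
  have h9 : (2 : ℝ) ^ (j + 2) = 4 * 2 ^ j := by ring
  rw [h9] at h2
  have h10 : 2 * bb e * (((2 : ℝ) ^ j) ^ e * 2 ^ j) = 1 / 2 * (bb e * ((2 : ℝ) ^ j) ^ e) * (4 * 2 ^ j) := by ring
  rw [h10]
  exact mul_le_mul_of_nonneg_left h2 (by positivity)

theorem summable_bc (c : ZMod 2) (j : ℕ) : Summable fun e : ℕ => bc c e * ((2 : ℝ) ^ j) ^ e := by
  refine Summable.of_nonneg_of_le (fun e => mul_nonneg (bc_nonneg c e) (by positivity)) (fun e => ?_) (summable_bb j)
  refine mul_le_mul_of_nonneg_right ?_ (by positivity)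
  unfold bc
  split_ifs
  · exact le_rfl
  · exact (bb_pos e).le

/-- the moments -/
noncomputable def Aj (c : ZMod 2) (j : ℕ) : ℝ := ∑' e : ℕ, bc c e * ((2 : ℝ) ^ j) ^ e

theorem bc_succ (c : ZMod 2) (e : ℕ) : bc c (e + 1) * (2 ^ (e + 1) - 1) = 2 * bc (c + 1) e := by
  have h : ((e + 1 : ℕ) : ZMod 2) = c ↔ (e : ZMod 2) = c + 1 := by
    push_cast
    have : ∀ x y : ZMod 2, x + 1 = y ↔ x = y + 1 := by decide
    exact this _ _
  unfold bc
  by_cases h1 : ((e + 1 : ℕ) : ZMod 2) = c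
  · rw [if_pos h1, if_pos (h.1 h1)]
    exact bb_succ e
  · rw [if_neg h1, if_neg (fun h2 => h1 (h.2 h2))]
    ring

theorem Aj_succ (c : ZMod 2) (j : ℕ) : Aj c (j + 1) = Aj c j + 2 ^ (j + 1) * Aj (c + 1) j := by
  have h1 : HasSum (fun e : ℕ => bc c e * (2 ^ e - 1) * ((2 : ℝ) ^ j) ^ e) (Aj c (j + 1) - Aj c j) := by
    refine ((summable_bc c (j + 1)).hasSum.sub (summable_bc c j).hasSum).congr_fun fun e => ?_
    rw [← mul_sub]
    have : ((2 : ℝ) ^ (j + 1)) ^ e = 2 ^ e * (2 ^ j) ^ e := by rw [pow_succ, mul_pow]; ring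
    rw [this]
    ring
  have h2 : HasSum (fun e : ℕ => bc c (e + 1) * (2 ^ (e + 1) - 1) * ((2 : ℝ) ^ j) ^ (e + 1))
      (Aj c (j + 1) - Aj c j) := by
    have h3 := (hasSum_nat_add_iff' (f := fun e : ℕ => bc c e * (2 ^ e - 1) * ((2 : ℝ) ^ j) ^ e)
      (g := Aj c (j + 1) - Aj c j) 1).2 h1
    rw [sum_range_one, pow_zero, sub_self, mul_zero, zero_mul, sub_zero] at h3
    exact h3
  have h4 : HasSum (fun e : ℕ => 2 ^ (j + 1) * (bc (c + 1) e * ((2 : ℝ) ^ j) ^ e)) (2 ^ (j + 1) * Aj (c + 1) j) :=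
    (summable_bc (c + 1) j).hasSum.mul_left _
  have h5 : Aj c (j + 1) - Aj c j = 2 ^ (j + 1) * Aj (c + 1) j := by
    refine h2.unique (h4.congr_fun fun e => ?_)
    rw [bc_succ]
    ring
  linarith

/-- **the moments of the law** -/
theorem bet_Aj (j : ℕ) : ∀ c : ZMod 2, bet * Aj c j = ∏ i ∈ range j, (1 + (2 : ℝ) ^ (i + 1)) := by
  induction j with
  | zero =>
    intro c
    rw [prod_range_zero, Aj, ← tsum_mul_left]
    have h := (hasSum_lawc c).tsum_eq
    rw [← h]
    refine tsum_congr fun e => ?_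
    rw [lawc_bc, pow_zero, one_pow, mul_one]
  | succ j ih =>
    intro c
    rw [Aj_succ, mul_add, ih c, prod_range_succ, mul_add, mul_one]
    congr 1
    have h := ih (c + 1)
    rw [← h]
    ring

theorem mom_lawc (c : ZMod 2) (j : ℕ) :
    HasSum (fun e : ℕ => lawc c e * ((2 : ℝ) ^ j) ^ e) (∏ i ∈ range j, (1 + (2 : ℝ) ^ (i + 1))) := by
  rw [← bet_Aj j c]
  refine ((summable_bc c j).hasSum.mul_left bet).congr_fun fun e => ?_
  rw [lawc_bc, mul_assoc]

theorem law2_lawc (e : ℕ) : law2 e = (lawc 0 e + lawc 1 e) / 2 := by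
  rw [Pool.Agent.Q269.SL.lawc_eq, Pool.Agent.Q269.SL.lawc_eq]
  have h1 : ∀ x : ZMod 2, (x = 0 ∧ ¬ x = 1) ∨ (¬ x = 0 ∧ x = 1) := by decide
  rcases h1 (e : ZMod 2) with ⟨h2, h3⟩ | ⟨h2, h3⟩
  · rw [if_pos h2, if_neg h3]
    ring
  · rw [if_neg h2, if_pos h3]
    ring

theorem mom_law2 (j : ℕ) :
    HasSum (fun e : ℕ => law2 e * ((2 : ℝ) ^ j) ^ e) (∏ i ∈ range j, (1 + (2 : ℝ) ^ (i + 1))) := by
  have h := ((mom_lawc 0 j).add (mom_lawc 1 j)).div_const 2
  have e1 : (∏ i ∈ range j, (1 + (2 : ℝ) ^ (i + 1)) + ∏ i ∈ range j, (1 + (2 : ℝ) ^ (i + 1))) / 2 =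
      ∏ i ∈ range j, (1 + (2 : ℝ) ^ (i + 1)) := by ring
  rw [e1] at h
  refine h.congr_fun fun e => ?_
  rw [law2_lawc]
  ring

/-- products of series -/
theorem hasSum_prod {κ : Type} [Fintype κ] (g : κ → ℕ → ℝ) (s : κ → ℝ) (h0 : ∀ c r, 0 ≤ g c r)
    (hs : ∀ c, HasSum (g c) (s c)) : HasSum (fun t : κ → ℕ => ∏ c, g c (t c)) (∏ c, s c) := by
  have e := Fintype.equivFin κ
  have h := Pool.Agent.Q269.SX.Lv.hasSum_pi (fun i => g (e.symm i)) (fun i => s (e.symm i)) (fun _ _ => h0 _ _) (fun _ => hs _)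
  rw [e.symm.prod_comp s] at h
  rw [← (Equiv.arrowCongr e (Equiv.refl ℕ)).symm.hasSum_iff]
  refine h.congr_fun fun t => ?_
  show ∏ c, g c (t (e c)) = ∏ i, g (e.symm i) (t i)
  rw [← e.symm.prod_comp]
  simp

/-- convergence of mean values: pointwise convergence and bounded second moments of a weight `w` imply the convergence
for the functions bounded by `w` -/
theorem expect {β α ι : Type} (l : Filter β) (S : β → Finset α) (g : α → ι) (p w : ι → ℝ)
    (hw : ∀ T : ℝ, {i | w i ≤ T}.Finite) (hw1 : ∀ i, 1 ≤ w i) (hp : ∀ i, 0 ≤ p i)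
    (hs : Summable fun i => w i ^ 2 * p i)
    (h : ∀ i, Tendsto (fun X => (((S X).filter fun a => g a = i).card : ℝ) / ((S X).card : ℝ))
      l (nhds (p i)))
    {B : ℝ} (hB : ∀ᶠ X in l, ∑ D ∈ S X, w (g D) ^ 2 ≤ B * ((S X).card : ℝ))
    (f : ι → ℝ) {C : ℝ} (hf : ∀ i, |f i| ≤ C * w i) :
    (Summable fun i => f i * p i) ∧
    Tendsto (fun X => (∑ D ∈ S X, f (g D)) / ((S X).card : ℝ)) l (nhds (∑' i, f i * p i)) := by
  have hw0 : ∀ i, 0 ≤ w i := fun i => zero_le_one.trans (hw1 i)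
  obtain ⟨C', hC', hf'⟩ : ∃ C' : ℝ, 0 ≤ C' ∧ ∀ i, |f i| ≤ C' * w i :=
    ⟨|C|, abs_nonneg C, fun i => (hf i).trans (mul_le_mul_of_nonneg_right (le_abs_self C) (hw0 i))⟩
  obtain ⟨B', hB'0, hB'⟩ : ∃ B' : ℝ, 0 ≤ B' ∧ ∀ᶠ X in l, ∑ D ∈ S X, w (g D) ^ 2 ≤ B' * ((S X).card : ℝ) := by
    refine ⟨|B|, abs_nonneg B, ?_⟩
    filter_upwards [hB] with X hX
    exact hX.trans (mul_le_mul_of_nonneg_right (le_abs_self B) (Nat.cast_nonneg _))
  obtain ⟨M, hM⟩ : ∃ M : ℝ, M = ∑' i, w i ^ 2 * p i := ⟨_, rfl⟩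
  have hM0 : 0 ≤ M := by
    rw [hM]
    exact tsum_nonneg fun i => mul_nonneg (sq_nonneg _) (hp i)
  have hsq : ∀ i, w i ≤ w i ^ 2 := fun i => by nlinarith [hw1 i]
  have hsum : Summable fun i => |f i| * p i := by
    refine Summable.of_nonneg_of_le (fun i => mul_nonneg (abs_nonneg _) (hp i)) (fun i => ?_) (hs.mul_left C')
    calc |f i| * p i ≤ C' * w i * p i := mul_le_mul_of_nonneg_right (hf' i) (hp i)
      _ ≤ C' * w i ^ 2 * p i :=
        mul_le_mul_of_nonneg_right (mul_le_mul_of_nonneg_left (hsq i) hC') (hp i)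
      _ = C' * (w i ^ 2 * p i) := by ring
  have hsum' : Summable fun i => f i * p i := by
    refine Summable.of_norm (hsum.congr fun i => ?_)
    rw [norm_mul, Real.norm_eq_abs, Real.norm_of_nonneg (hp i)]
  refine ⟨hsum', ?_⟩
  rw [Metric.tendsto_nhds]
  intro ε hε
  obtain ⟨T, hT0, hT1⟩ : ∃ T : ℝ, 0 < T ∧ C' * (B' + M) / T < ε / 2 := by
    refine ⟨2 * (C' * (B' + M) + 1) / ε, by positivity, ?_⟩
    have h0 : 0 ≤ C' * (B' + M) := by positivity
    rw [div_lt_iff₀ (by positivity)]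
    have : ε / 2 * (2 * (C' * (B' + M) + 1) / ε) = C' * (B' + M) + 1 := by field_simp
    rw [this]
    linarith
  obtain ⟨E, hE⟩ : ∃ E : Finset ι, ∀ i, i ∈ E ↔ w i ≤ T := ⟨(hw T).toFinset, fun i => by simp⟩
  -- the tail of the series
  have htail : |∑' i, f i * p i - ∑ i ∈ E, f i * p i| ≤ C' / T * M := by
    have h1 := hsum'.sum_add_tsum_compl (s := E)
    have h2 : ∑' i, f i * p i - ∑ i ∈ E, f i * p i = ∑' i : ↑((E : Set ι)ᶜ), f i * p i := by
      rw [← h1]
      ring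
    rw [h2]
    have h3 : Summable fun i : ↑((E : Set ι)ᶜ) => |f i| * p i := hsum.subtype _
    have h4 : Summable fun i : ↑((E : Set ι)ᶜ) => C' / T * (w i ^ 2 * p i) := (hs.mul_left _).subtype _
    have h5 : |∑' i : ↑((E : Set ι)ᶜ), f i * p i| ≤ ∑' i : ↑((E : Set ι)ᶜ), |f i| * p i := by
      have h6 := norm_tsum_le_tsum_norm (f := fun i : ↑((E : Set ι)ᶜ) => f i * p i) (h3.congr fun i => by
        rw [norm_mul, Real.norm_eq_abs, Real.norm_of_nonneg (hp i)])
      rw [Real.norm_eq_abs] at h6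
      refine h6.trans (le_of_eq (tsum_congr fun i => ?_))
      rw [norm_mul, Real.norm_eq_abs, Real.norm_of_nonneg (hp i)]
    refine h5.trans ?_
    calc ∑' i : ↑((E : Set ι)ᶜ), |f i| * p i ≤ ∑' i : ↑((E : Set ι)ᶜ), C' / T * (w i ^ 2 * p i) := by
          refine h3.tsum_le_tsum (fun i => ?_) h4
          have hi : T < w i := by
            have := i.2
            rw [Set.mem_compl_iff, mem_coe, hE, not_le] at this
            exact this
          have h7 : w i ≤ w i ^ 2 / T := by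
            rw [le_div_iff₀ hT0, sq]
            exact mul_le_mul_of_nonneg_left hi.le (hw0 i)
          calc |f i| * p i ≤ C' * w i * p i := mul_le_mul_of_nonneg_right (hf' i) (hp i)
            _ ≤ C' * (w i ^ 2 / T) * p i :=
              mul_le_mul_of_nonneg_right (mul_le_mul_of_nonneg_left h7 hC') (hp i)
            _ = C' / T * (w i ^ 2 * p i) := by ring
      _ ≤ ∑' i, C' / T * (w i ^ 2 * p i) := by
          refine (hs.mul_left (C' / T)).tsum_subtype_le _ _ fun i => ?_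
          exact mul_nonneg (by positivity) (mul_nonneg (sq_nonneg _) (hp i))
      _ = C' / T * M := by rw [tsum_mul_left, hM]
  -- the finite part
  have hfin : Tendsto (fun X => ∑ i ∈ E, f i * ((((S X).filter fun a => g a = i).card : ℝ) / ((S X).card : ℝ))) l
      (nhds (∑ i ∈ E, f i * p i)) := tendsto_finsetSum _ fun i _ => (h i).const_mul _
  have hfin' := (Metric.tendsto_nhds.1 hfin) (ε / 2) (by positivity)
  filter_upwards [hfin', hB'] with X h1 h2
  rw [Real.dist_eq] at h1 ⊢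
  rcases (Nat.eq_zero_or_pos (S X).card) with h0 | hpos
  · have hS : S X = ∅ := card_eq_zero.1 h0
    rw [hS] at h1 ⊢
    simp only [filter_empty, card_empty, Nat.cast_zero, div_zero, mul_zero, sum_const_zero, zero_sub, sum_empty,
      abs_neg] at h1 ⊢
    have h3 : |∑' i, f i * p i| ≤ |∑' i, f i * p i - ∑ i ∈ E, f i * p i| + |∑ i ∈ E, f i * p i| := by
      have := abs_add_le (∑' i, f i * p i - ∑ i ∈ E, f i * p i) (∑ i ∈ E, f i * p i)
      rwa [sub_add_cancel] at this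
    have h4 : C' / T * M ≤ C' * (B' + M) / T := by
      rw [div_mul_eq_mul_div]
      refine div_le_div_of_nonneg_right ?_ hT0.le
      exact mul_le_mul_of_nonneg_left (by linarith) hC'
    linarith
  · have hpos' : (0 : ℝ) < ((S X).card : ℝ) := by exact_mod_cast hpos
    have e1 : ∑ D ∈ S X, f (g D) = ∑ D ∈ (S X).filter (fun D => g D ∈ E), f (g D) +
        ∑ D ∈ (S X).filter (fun D => ¬ g D ∈ E), f (g D) := (sum_filter_add_sum_filter_not _ _ _).symm
    have e2 : ∑ D ∈ (S X).filter (fun D => g D ∈ E), f (g D) =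
        ∑ i ∈ E, f i * (((S X).filter fun a => g a = i).card : ℝ) := by
      rw [← sum_fiberwise_of_maps_to (s := (S X).filter fun D => g D ∈ E) (t := E) (g := g)
        (fun D hD => (mem_filter.1 hD).2)]
      refine sum_congr rfl fun i hi => ?_
      have e3 : ((S X).filter (fun D => g D ∈ E)).filter (fun D => g D = i) = (S X).filter fun a => g a = i := by
        ext D
        simp only [mem_filter]
        constructor
        · rintro ⟨⟨a1, -⟩, a2⟩
          exact ⟨a1, a2⟩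
        · rintro ⟨a1, a2⟩
          exact ⟨⟨a1, a2 ▸ hi⟩, a2⟩
      rw [e3, sum_congr rfl (g := fun _ => f i) fun D hD => by rw [(mem_filter.1 hD).2], sum_const, nsmul_eq_mul,
        mul_comm]
    have e4 : |∑ D ∈ (S X).filter (fun D => ¬ g D ∈ E), f (g D)| ≤ C' / T * (B' * ((S X).card : ℝ)) := by
      refine (abs_sum_le_sum_abs _ _).trans ?_
      calc ∑ D ∈ (S X).filter (fun D => ¬ g D ∈ E), |f (g D)|
          ≤ ∑ D ∈ (S X).filter (fun D => ¬ g D ∈ E), C' / T * w (g D) ^ 2 := by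
            refine sum_le_sum fun D hD => ?_
            have hi : T < w (g D) := by
              have := (mem_filter.1 hD).2
              rw [hE, not_le] at this
              exact this
            have h7 : w (g D) ≤ w (g D) ^ 2 / T := by
              rw [le_div_iff₀ hT0, sq]
              exact mul_le_mul_of_nonneg_left hi.le (hw0 _)
            calc |f (g D)| ≤ C' * w (g D) := hf' _
              _ ≤ C' * (w (g D) ^ 2 / T) := mul_le_mul_of_nonneg_left h7 hC'
              _ = C' / T * w (g D) ^ 2 := by ring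
        _ ≤ ∑ D ∈ S X, C' / T * w (g D) ^ 2 :=
            sum_le_sum_of_subset_of_nonneg (filter_subset _ _) fun D _ _ => by positivity
        _ ≤ C' / T * (B' * ((S X).card : ℝ)) := by
            rw [← mul_sum]
            exact mul_le_mul_of_nonneg_left h2 (by positivity)
    have e5 : (∑ D ∈ S X, f (g D)) / ((S X).card : ℝ) - ∑' i, f i * p i =
        (∑ i ∈ E, f i * ((((S X).filter fun a => g a = i).card : ℝ) / ((S X).card : ℝ)) - ∑ i ∈ E, f i * p i) +
        ((∑ D ∈ (S X).filter (fun D => ¬ g D ∈ E), f (g D)) / ((S X).card : ℝ) -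
          (∑' i, f i * p i - ∑ i ∈ E, f i * p i)) := by
      rw [e1, e2, add_div, sum_div]
      simp only [mul_div_assoc]
      ring
    have e6 : |(∑ D ∈ (S X).filter (fun D => ¬ g D ∈ E), f (g D)) / ((S X).card : ℝ)| ≤ C' / T * B' := by
      rw [abs_div, abs_of_pos hpos', div_le_iff₀ hpos', mul_assoc]
      exact e4
    rw [e5]
    have h8 : C' / T * B' + C' / T * M = C' * (B' + M) / T := by ring
    calc _ ≤ |∑ i ∈ E, f i * ((((S X).filter fun a => g a = i).card : ℝ) / ((S X).card : ℝ)) -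
          ∑ i ∈ E, f i * p i| + |(∑ D ∈ (S X).filter (fun D => ¬ g D ∈ E), f (g D)) / ((S X).card : ℝ) -
          (∑' i, f i * p i - ∑ i ∈ E, f i * p i)| := abs_add_le _ _
      _ ≤ |∑ i ∈ E, f i * ((((S X).filter fun a => g a = i).card : ℝ) / ((S X).card : ℝ)) -
          ∑ i ∈ E, f i * p i| + (C' / T * B' + C' / T * M) :=
          add_le_add le_rfl ((abs_sub _ _).trans (add_le_add e6 htail))
      _ < ε := by
          rw [h8]
          linarith

end Pool.Agent.Q269.SX
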