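import Pool.Agent.Q269.SX.Spn
import Pool.Agent.Q269.SX.Mom
import Pool.Agent.Q269.AV.A2

/-!
# Project SX: mean values over all the twists and over the classes
-/

set_option autoImplicit false
set_option linter.all false
set_option maxHeartbeats 800000

open scoped Classical
open Finset Polynomial Filter

namespace Pool.Agent.Q269.SX

open Pool.Agent.Q269.GR (F2 Dn pr Fr xi mem_Dn')
open Pool.Agent.Y164.HG (Geo Del Tau QQ kc AT BT cur)
open Pool.Agent.Y164.PS (L Fam)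
open Pool.Agent.Q269.SL (lawc law2 BoundedBy lawc_nonneg law2_nonneg)

/-- the weight -/
noncomputable def wt {R : Type} [Fintype R] (u : ℕ) (e : R → ℕ) : ℝ := ∏ r, ((2 : ℝ) ^ u) ^ e r

section wt
variable {R : Type} [Fintype R]

theorem one_le_wt (u : ℕ) (e : R → ℕ) : 1 ≤ wt u e := by
  unfold wt
  calc (1 : ℝ) = ∏ _s : R, (1 : ℝ) := by rw [prod_const_one]
    _ ≤ ∏ s, ((2 : ℝ) ^ u) ^ e s :=
      prod_le_prod (fun _ _ => zero_le_one) fun s _ => one_le_pow₀ (one_le_pow₀ (by norm_num))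

theorem wt_fin {u : ℕ} (hu : 1 ≤ u) (T : ℝ) : {e : R → ℕ | wt u e ≤ T}.Finite := by
  obtain ⟨M, hM⟩ := exists_nat_ge T
  refine (Set.Finite.pi' (t := fun _ : R => Set.Iic M) fun _ => Set.finite_Iic M).subset ?_
  intro e he r
  rw [Set.mem_Iic]
  have he : wt u e ≤ T := he
  have h1 : ((2 : ℝ) ^ u) ^ e r ≤ wt u e := by
    unfold wt
    rw [← mul_prod_erase univ (fun r => ((2 : ℝ) ^ u) ^ e r) (mem_univ r)]
    refine le_mul_of_one_le_right (by positivity) ?_
    calc (1 : ℝ) = ∏ _s ∈ univ.erase r, (1 : ℝ) := by rw [prod_const_one]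
      _ ≤ ∏ s ∈ univ.erase r, ((2 : ℝ) ^ u) ^ e s :=
        prod_le_prod (fun _ _ => zero_le_one) fun s _ => one_le_pow₀ (one_le_pow₀ (by norm_num))
  have h2 : ((2 : ℝ)) ^ e r ≤ ((2 : ℝ) ^ u) ^ e r := by
    refine pow_le_pow_left₀ (by norm_num) ?_ _
    calc (2 : ℝ) = 2 ^ 1 := (pow_one 2).symm
      _ ≤ 2 ^ u := pow_le_pow_right₀ (by norm_num) hu
  have h3 : (e r : ℝ) ≤ 2 ^ e r := by exact_mod_cast (Nat.lt_two_pow_self (n := e r)).le
  have h4 : (e r : ℝ) ≤ M := by linarith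
  exact_mod_cast h4

theorem wt_sq (u : ℕ) (e : R → ℕ) : wt u e ^ 2 = wt (2 * u) e := by
  unfold wt
  rw [← prod_pow]
  refine prod_congr rfl fun r _ => ?_
  rw [← pow_mul, ← pow_mul, ← pow_mul]
  congr 1
  ring

theorem sum_wt (g : R → ℕ → ℝ) (h0 : ∀ r e, 0 ≤ g r e) (u : ℕ)
    (h : ∀ r, HasSum (fun e : ℕ => g r e * ((2 : ℝ) ^ u) ^ e) (∏ i ∈ range u, (1 + (2 : ℝ) ^ (i + 1)))) :
    HasSum (fun e : R → ℕ => wt u e * ∏ r, g r (e r)) (∏ _r : R, ∏ i ∈ range u, (1 + (2 : ℝ) ^ (i + 1))) := by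
  have h1 := hasSum_prod (fun r e => g r e * ((2 : ℝ) ^ u) ^ e)
    (fun _ : R => ∏ i ∈ range u, (1 + (2 : ℝ) ^ (i + 1)))
    (fun r e => mul_nonneg (h0 r e) (by positivity)) h
  refine h1.congr_fun fun e => ?_
  rw [prod_mul_distrib, mul_comm]
  rfl

end wt

section

variable {k : Type} [Field k] [Fintype k] {R : Type} [Fintype R] {n : R → ℕ} {a : ∀ r, Fin (n r) → k[X]}
  {N : R → ℕ} (H : ∀ r, Geo (a r) (N r))

theorem degR_le (N : R → ℕ) : degR N ≤ atTop := inf_le_left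

theorem degR_odd (N : R → ℕ) : ∀ᶠ m : ℕ in degR N, ∀ r, Odd (m + N r) := by
  rw [degR, eventually_inf_principal]
  exact Eventually.of_forall fun m h => h

theorem mem_of {m : ℕ} {D : k[X]} (hD : D ∈ Dn (∏ r, Del (a r)) m) (r : R) : D ∈ Dn (Del (a r)) m := by
  rw [mem_Dn'] at hD ⊢
  exact ⟨hD.1, hD.2.1, hD.2.2.of_isCoprime_of_dvd_right (dvd_prod_of_mem _ (mem_univ r))⟩

/-- `sz` is the order of the kernel -/
theorem sz_eq (hSEL : S_SEL) (hBDX : S_BDX) (hKDR : S_KDR) {m : ℕ} (hm : ∀ r, Odd (m + N r)) {D : k[X]}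
    (hD : D ∈ Dn (∏ r, Del (a r)) m) (r : R) :
    Pool.Agent.Q269.AV.sz (cur (FractionRing k[X]) (a r) D) k[X] = 2 ^ ex (H r) D := by
  have h1 := exact_kD (K := FractionRing k[X]) (H r) hSEL hBDX hKDR m (hm r) D (mem_of hD r)
  rw [← (kD_pow (H r) hKDR (hm r) (mem_of hD r)).1]
  unfold Pool.Agent.Q269.AV.sz
  have h2 : {M | BoundedBy (cur (FractionRing k[X]) (a r) D) k[X] M} = Set.Ici (kD (H r) D) := by
    ext M
    exact h1 M
  rw [h2]
  exact csInf_Ici

/-- the moments are bounded -/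
theorem mom_bd (hSEL : S_SEL) (hBDX : S_BDX) (hKDR : S_KDR)
    (hcop : ∀ r r', r ≠ r' → IsCoprime (Del (a r)) (Del (a r'))) (hk : ringChar k ≠ 2)
    (hm : IsSquare (-1 : k)) (u : ℕ) : ∃ B : ℝ, 0 ≤ B ∧ ∀ᶠ m : ℕ in degR N,
      ∑ D ∈ Dn (∏ r, Del (a r)) m, wt u (fun r => ex (H r) D) ≤ B * ((Dn (∏ r, Del (a r)) m).card : ℝ) := by
  have h := (Pool.Agent.Q269.AV.final_mom (Ring.two_ne_zero hk) hm (FractionRing k[X])
    (fun r => (H r).hn) (fun r => (H r).hn3) N (fun r => (H r).hN) a (fun r => (H r).hdeg)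
    (fun r => (H r).hsq) hcop).2 (fun _ => u) 1 one_pos
  refine ⟨∏ _r : R, ∏ i ∈ range u, (1 + (2 : ℝ) ^ (i + 1)) + 1, by positivity, ?_⟩
  filter_upwards [h.filter_mono (degR_le N), degR_odd N] with m h1 ho
  have h2 := h1 ho
  have e1 : Pool.Agent.Q269.MF.twm a m = ((Dn (∏ r, Del (a r)) m : Finset k[X]) : Set k[X]) := by
    ext D
    rw [Finset.mem_coe]
    exact mem_twm
  rw [card_twm, e1, finsum_mem_coe_finset] at h2
  refine le_trans (le_of_eq ?_) h2
  refine sum_congr rfl fun D hD => ?_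
  unfold Pool.Agent.Q269.AV.GG wt
  refine prod_congr rfl fun r _ => ?_
  rw [sz_eq H hSEL hBDX hKDR ho hD r]
  push_cast
  rw [← pow_mul, ← pow_mul, mul_comm]

/-- **mean values over all the twists** -/
theorem mean_all (hSEL : S_SEL) (hBDX : S_BDX) (hKDR : S_KDR) (h1 : S_LWM) (h2 : S_CLS)
    (hcop : ∀ r r', r ≠ r' → IsCoprime (Del (a r)) (Del (a r'))) (hk : ringChar k ≠ 2)
    (hm : IsSquare (-1 : k)) (f : (R → ℕ) → ℝ) (u : ℕ) (C : ℝ) (hf : ∀ e, |f e| ≤ C * wt u e) :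
    (Summable fun e : R → ℕ => f e * ∏ r, law2 (e r)) ∧
    Tendsto (fun m => (∑ D ∈ Dn (∏ r, Del (a r)) m, f (fun r => ex (H r) D)) /
      ((Dn (∏ r, Del (a r)) m).card : ℝ)) (degR N) (nhds (∑' e : R → ℕ, f e * ∏ r, law2 (e r))) := by
  obtain ⟨B, hB0, hB⟩ := mom_bd H hSEL hBDX hKDR hcop hk hm (2 * (u + 1))
  obtain ⟨S, hS⟩ : ∃ S : ℕ → Finset k[X], S = fun m => Dn (∏ r, Del (a r)) m := ⟨_, rfl⟩
  obtain ⟨g, hg⟩ : ∃ g : k[X] → (R → ℕ), g = fun D => fun r => ex (H r) D := ⟨_, rfl⟩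
  obtain ⟨p, hp⟩ : ∃ p : (R → ℕ) → ℝ, p = fun e => ∏ r, law2 (e r) := ⟨_, rfl⟩
  have h3 := expect (degR N) S g p (wt (u + 1)) (wt_fin (by omega)) (one_le_wt (u + 1))
    (fun e => by rw [hp]; exact prod_nonneg fun r _ => law2_nonneg _)
    (by
      rw [hp]
      simp only [wt_sq]
      exact (sum_wt (fun _ : R => law2) (fun _ => law2_nonneg) (2 * (u + 1)) fun _ => mom_law2 _).summable)
    (fun e => by
      have h4 := law_pt H hKDR h1 h2 hcop hk hm e
      have e1 : p e = ∏ r, law2 (e r) := by rw [hp]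
      rw [e1]
      refine h4.congr fun m => ?_
      rw [hS, hg]
      congr 2
      exact Pool.Agent.Q269.SX.Lv.fil_card _ _ _ _ _ fun D => Iff.rfl)
    (B := B) (by
      filter_upwards [hB] with m hm'
      rw [hS, hg]
      simp only [wt_sq]
      exact hm') f (C := |C|) (fun e => by
        have h5 : wt u e ≤ wt (u + 1) e := by
          unfold wt
          refine prod_le_prod (fun _ _ => by positivity) fun r _ => ?_
          exact pow_le_pow_left₀ (by positivity) (pow_le_pow_right₀ (by norm_num) (by omega)) _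
        calc |f e| ≤ C * wt u e := hf e
          _ ≤ |C| * wt u e := mul_le_mul_of_nonneg_right (le_abs_self C) (zero_le_one.trans (one_le_wt u e))
          _ ≤ |C| * wt (u + 1) e := mul_le_mul_of_nonneg_left h5 (abs_nonneg C))
  rw [hS, hg, hp] at h3
  exact h3

/-- the class -/
noncomputable def clF (H : ∀ r, Geo (a r) (N r)) (σ : ∀ r, Tau (a r) → F2) (m : ℕ) : Finset k[X] :=
  (Dn (∏ r, Del (a r)) m).filter fun D => ∀ r s, sgD (H r) D s = σ r s

theorem ratioL {l : Filter ℕ} {q : ℝ} (hq : 0 < q) {A B : ℕ → ℝ} {π c : ℝ} (hc : 0 < c)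
    (hlow : ∀ᶠ m : ℕ in l, c * q ^ m ≤ B m)
    (h1 : ∀ ε : ℝ, 0 < ε → ∀ᶠ m : ℕ in l, |A m - π * B m| ≤ ε * q ^ m) :
    Tendsto (fun m => A m / B m) l (nhds π) := by
  rw [Metric.tendsto_nhds]
  intro δ hδ
  have h3 := h1 (c * δ / 2) (by positivity)
  filter_upwards [h3, hlow] with n g1 g2
  have hpos : (0 : ℝ) < B n := lt_of_lt_of_le (by positivity) g2
  rw [Real.dist_eq]
  have e : A n / B n - π = (A n - π * B n) / B n := by
    field_simp
  rw [e, abs_div, abs_of_pos hpos, div_lt_iff₀ hpos]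
  calc |A n - π * B n| ≤ (c * δ / 2) * q ^ n := g1
    _ = δ / 2 * (c * q ^ n) := by ring
    _ ≤ δ / 2 * B n := mul_le_mul_of_nonneg_left g2 (by positivity)
    _ < δ * B n := by
      have : 0 < δ * B n := by positivity
      linarith

/-- the proportion of a class -/
theorem cls_prop (h2 : S_CLS) (hcop : ∀ r r', r ≠ r' → IsCoprime (Del (a r)) (Del (a r'))) (hk : ringChar k ≠ 2)
    (hm : IsSquare (-1 : k)) (σ : ∀ r, Tau (a r) → F2) :
    Tendsto (fun m => ((clF H σ m).card : ℝ) / ((Dn (∏ r, Del (a r)) m).card : ℝ)) (degR N)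
      (nhds ((2 : ℝ) ^ (∑ r, Fintype.card (Tau (a r))))⁻¹) := by
  obtain ⟨c, hc, hlow⟩ := lowD H hcop hk hm
  have hq : (0 : ℝ) < Fintype.card k := by
    have : 0 < Fintype.card k := Fintype.card_pos
    exact_mod_cast this
  refine ratioR (degR_le N) hq hc hlow fun ε hε => ?_
  filter_upwards [(h2 k R n a N H hcop ε hε).filter_mono (degR_le N), degR_odd N] with m g1 g2
  exact g1 g2 σ

/-- the number of the elements of a class -/
theorem lowC (h2 : S_CLS) (hcop : ∀ r r', r ≠ r' → IsCoprime (Del (a r)) (Del (a r'))) (hk : ringChar k ≠ 2)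
    (hm : IsSquare (-1 : k)) (σ : ∀ r, Tau (a r) → F2) :
    ∃ c : ℝ, 0 < c ∧ ∀ᶠ m : ℕ in degR N, c * ((Dn (∏ r, Del (a r)) m).card : ℝ) ≤ ((clF H σ m).card : ℝ) := by
  have h := cls_prop H h2 hcop hk hm σ
  have hpos : 0 < ((2 : ℝ) ^ (∑ r, Fintype.card (Tau (a r))))⁻¹ := by positivity
  refine ⟨((2 : ℝ) ^ (∑ r, Fintype.card (Tau (a r))))⁻¹ / 2, by positivity, ?_⟩
  have h3 := (tendsto_order.1 h).1 _ (half_lt_self hpos)
  obtain ⟨c, hc, hlow⟩ := lowD H hcop hk hm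
  filter_upwards [h3, hlow.filter_mono (degR_le N)] with m g1 g2
  have hq : (0 : ℝ) < Fintype.card k := by
    have : 0 < Fintype.card k := Fintype.card_pos
    exact_mod_cast this
  have hD : (0 : ℝ) < ((Dn (∏ r, Del (a r)) m).card : ℝ) := lt_of_lt_of_le (by positivity) g2
  rw [lt_div_iff₀ hD] at g1
  exact g1.le

/-- the law in a class -/
theorem cls_pt (hKDR : S_KDR) (h1 : S_LWM) (h2 : S_CLS)
    (hcop : ∀ r r', r ≠ r' → IsCoprime (Del (a r)) (Del (a r'))) (hk : ringChar k ≠ 2)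
    (hm : IsSquare (-1 : k)) (σ : ∀ r, Tau (a r) → F2) (e : R → ℕ) :
    Tendsto (fun m => (((clF H σ m).filter fun D => (fun r => ex (H r) D) = e).card : ℝ) /
      ((clF H σ m).card : ℝ)) (degR N) (nhds (pcl a e σ)) := by
  obtain ⟨c, hc, hlow⟩ := lowC H h2 hcop hk hm σ
  obtain ⟨c', hc', hlow'⟩ := lowD H hcop hk hm
  have hq : (0 : ℝ) < Fintype.card k := by
    have : 0 < Fintype.card k := Fintype.card_pos
    exact_mod_cast this
  refine ratioL hq (mul_pos hc hc') ?_ fun ε hε => ?_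
  · filter_upwards [hlow, hlow'.filter_mono (degR_le N)] with m g1 g2
    calc c * c' * (Fintype.card k : ℝ) ^ m = c * (c' * (Fintype.card k : ℝ) ^ m) := by ring
      _ ≤ c * ((Dn (∏ r, Del (a r)) m).card : ℝ) := mul_le_mul_of_nonneg_left g2 hc.le
      _ ≤ _ := g1
  · filter_upwards [(h1 k R n a N H hcop e ε hε).filter_mono (degR_le N), degR_odd N] with m g1 g2
    have g3 := g1 g2 σ
    have e1 : (clF H σ m).filter (fun D => (fun r => ex (H r) D) = e) =
        (Dn (∏ r, Del (a r)) m).filter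
          (fun D => (∀ r s, sgD (H r) D s = σ r s) ∧ ∀ r, kD (H r) D = 2 ^ e r) := by
      ext D
      unfold clF
      simp only [mem_filter, and_assoc]
      refine and_congr_right fun hD => and_congr_right fun _ => ?_
      constructor
      · intro h r
        rw [kD_iff (H r) hKDR (g2 r) (mem_of hD r)]
        exact congrFun h r
      · intro h
        funext r
        exact (kD_iff (H r) hKDR (g2 r) (mem_of hD r) (e r)).1 (h r)
    rw [e1]
    exact g3

/-- **mean values over a class** -/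
theorem mean_cls (hSEL : S_SEL) (hBDX : S_BDX) (hKDR : S_KDR) (h1 : S_LWM) (h2 : S_CLS)
    (hcop : ∀ r r', r ≠ r' → IsCoprime (Del (a r)) (Del (a r'))) (hk : ringChar k ≠ 2)
    (hm : IsSquare (-1 : k)) (σ : ∀ r, Tau (a r) → F2) (f : (R → ℕ) → ℝ) (u : ℕ) (C : ℝ)
    (hf : ∀ e, |f e| ≤ C * wt u e) :
    (Summable fun e : R → ℕ => f e * pcl a e σ) ∧
    Tendsto (fun m => (∑ D ∈ clF H σ m, f (fun r => ex (H r) D)) /
      ((clF H σ m).card : ℝ)) (degR N) (nhds (∑' e : R → ℕ, f e * pcl a e σ)) := by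
  obtain ⟨B, hB0, hB⟩ := mom_bd H hSEL hBDX hKDR hcop hk hm (2 * (u + 1))
  obtain ⟨c, hc, hlow⟩ := lowC H h2 hcop hk hm σ
  obtain ⟨S, hS⟩ : ∃ S : ℕ → Finset k[X], S = fun m => clF H σ m := ⟨_, rfl⟩
  obtain ⟨g, hg⟩ : ∃ g : k[X] → (R → ℕ), g = fun D => fun r => ex (H r) D := ⟨_, rfl⟩
  obtain ⟨p, hp⟩ : ∃ p : (R → ℕ) → ℝ, p = fun e => pcl a e σ := ⟨_, rfl⟩
  have h3 := expect (degR N) S g p (wt (u + 1)) (wt_fin (by omega)) (one_le_wt (u + 1))
    (fun e => by rw [hp]; exact pcl_nonneg e σ)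
    (by
      rw [hp]
      simp only [wt_sq]
      exact (sum_wt (fun r : R => lawc ((Fintype.card (Tau (a r)) : ZMod 2) + ∑ s, σ r s))
        (fun _ => lawc_nonneg _) (2 * (u + 1)) fun _ => mom_lawc _ _).summable)
    (fun e => by
      have h4 := cls_pt H hKDR h1 h2 hcop hk hm σ e
      have e1 : p e = pcl a e σ := by rw [hp]
      rw [e1]
      refine h4.congr fun m => ?_
      rw [hS, hg]
      congr 2
      exact Pool.Agent.Q269.SX.Lv.fil_card _ _ _ _ _ fun D => Iff.rfl)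
    (B := B / c) (by
      filter_upwards [hB, hlow] with m hm' hl
      rw [hS, hg]
      simp only [wt_sq]
      calc ∑ D ∈ clF H σ m, wt (2 * (u + 1)) (fun r => ex (H r) D)
          ≤ ∑ D ∈ Dn (∏ r, Del (a r)) m, wt (2 * (u + 1)) (fun r => ex (H r) D) :=
            sum_le_sum_of_subset_of_nonneg (filter_subset _ _) fun D _ _ =>
              zero_le_one.trans (one_le_wt _ _)
        _ ≤ B * ((Dn (∏ r, Del (a r)) m).card : ℝ) := hm'
        _ = B / c * (c * ((Dn (∏ r, Del (a r)) m).card : ℝ)) := by field_simp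
        _ ≤ B / c * ((clF H σ m).card : ℝ) := mul_le_mul_of_nonneg_left hl (by positivity)) f (C := |C|)
      (fun e => by
        have h5 : wt u e ≤ wt (u + 1) e := by
          unfold wt
          refine prod_le_prod (fun _ _ => by positivity) fun r _ => ?_
          exact pow_le_pow_left₀ (by positivity) (pow_le_pow_right₀ (by norm_num) (by omega)) _
        calc |f e| ≤ C * wt u e := hf e
          _ ≤ |C| * wt u e := mul_le_mul_of_nonneg_right (le_abs_self C) (zero_le_one.trans (one_le_wt u e))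
          _ ≤ |C| * wt (u + 1) e := mul_le_mul_of_nonneg_left h5 (abs_nonneg C))
  rw [hS, hg, hp] at h3
  exact h3

/-- the law in a class, for sets -/
theorem cls_sets (hKDR : S_KDR) (h1 : S_LWM) (h2 : S_CLS)
    (hcop : ∀ r r', r ≠ r' → IsCoprime (Del (a r)) (Del (a r'))) (hk : ringChar k ≠ 2)
    (hm : IsSquare (-1 : k)) (σ : ∀ r, Tau (a r) → F2) (T : Set (R → ℕ)) :
    Tendsto (fun m => (((clF H σ m).filter fun D => (fun r => ex (H r) D) ∈ T).card : ℝ) /
      ((clF H σ m).card : ℝ)) (degR N) (nhds (∑' e : T, pcl a e.1 σ)) := by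
  obtain ⟨c, hc, hlow⟩ := lowC H h2 hcop hk hm σ
  obtain ⟨c', hc', hlow'⟩ := lowD H hcop hk hm
  have hq : (0 : ℝ) < Fintype.card k := by
    have : 0 < Fintype.card k := Fintype.card_pos
    exact_mod_cast this
  have hne : ∀ᶠ m : ℕ in degR N, (clF H σ m).Nonempty := by
    filter_upwards [hlow, hlow'.filter_mono (degR_le N)] with m g1 g2
    rw [← card_pos]
    have h3 : (0 : ℝ) < ((Dn (∏ r, Del (a r)) m).card : ℝ) := lt_of_lt_of_le (by positivity) g2
    have : (0 : ℝ) < ((clF H σ m).card : ℝ) := lt_of_lt_of_le (by positivity) g1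
    exact_mod_cast this
  obtain ⟨S, hS⟩ : ∃ S : ℕ → Finset k[X], S = fun m => clF H σ m := ⟨_, rfl⟩
  obtain ⟨f, hf⟩ : ∃ f : k[X] → (R → ℕ), f = fun D => fun r => ex (H r) D := ⟨_, rfl⟩
  obtain ⟨g, hg⟩ : ∃ g : (R → ℕ) → ℝ, g = fun e => pcl a e σ := ⟨_, rfl⟩
  have hs : HasSum (fun e : R → ℕ => pcl a e σ) 1 := by
    have h := hasSum_prod (fun r : R => lawc ((Fintype.card (Tau (a r)) : ZMod 2) + ∑ s, σ r s))
      (fun _ => (1 : ℝ)) (fun _ => lawc_nonneg _) (fun _ => Pool.Agent.Q269.SL.hasSum_lawc _)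
    rw [prod_const_one] at h
    exact h
  have h5 := scheffe (degR N) S f g (by rw [hg]; exact hs) (by rw [hS]; exact hne)
    (fun e => by
      have h4 := cls_pt H hKDR h1 h2 hcop hk hm σ e
      have e1 : g e = pcl a e σ := by rw [hg]
      rw [e1]
      refine h4.congr fun m => ?_
      rw [hS, hf]
      congr 2
      exact Pool.Agent.Q269.SX.Lv.fil_card _ _ _ _ _ fun D => Iff.rfl) T
  rw [hg, hS, hf] at h5
  exact h5

end

end Pool.Agent.Q269.SX
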