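import Pool.Agent.Q269.SX.Law
import Pool.Agent.Q269.SL.Sp2

/-!
# Project SX: the class of a twist and the split nodes
-/

set_option autoImplicit false
set_option linter.all false
set_option maxHeartbeats 800000

open scoped Classical
open Finset Polynomial Filter

namespace Pool.Agent.Q269.SX

open Pool.Agent.Q269.GR (F2 Dn pr mem_Dn')
open Pool.Agent.Y164.HG (Geo Del Tau QQ kc AT BT)
open Pool.Agent.Y164.PS (L Fam L_eq_zero_iff L_mul_left coprime_of_not_dvd L_prod_left)
open Pool.Agent.Q269.GJ (Ip)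

section defs
variable {k : Type} [Field k] {n : ℕ}

/-- the bad places -/
def BadN (a : Fin n → k[X]) : Set k[X] := {Q | Q.Monic ∧ Irreducible Q ∧ Q ∣ Del a}

/-- the tangents at the node are rational -/
def SplitN (a : Fin n → k[X]) (D Q : k[X]) : Prop :=
  ∃ i j : Fin n, i ≠ j ∧ Q ∣ a i - a j ∧
    ∃ h : k[X], Q ∣ h ^ 2 - D * ∏ l ∈ univ.filter (fun l => l ≠ i ∧ l ≠ j), (a i - a l)

/-- the class attached to a set of places -/
noncomputable def sgT (a : Fin n → k[X]) [Fintype k] (S : Set k[X]) (s : Tau a) : F2 :=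
  if QQ a s ∈ S then 0 else 1

end defs

section
variable {k : Type} [Field k] [Fintype k] {n : ℕ} {a : Fin n → k[X]} {N : ℕ} (H : Geo a N)

include H in
theorem badN_eq : BadN a = Set.range (QQ a) := by
  ext Q
  constructor
  · intro hQ
    exact ⟨⟨Q, H.mem.2 hQ⟩, rfl⟩
  · rintro ⟨s, rfl⟩
    exact H.mem.1 s.2

include H in
theorem badN_card : (BadN a).ncard = Fintype.card (Tau a) := by
  rw [badN_eq H, ← Set.image_univ, Set.ncard_image_of_injective _ H.fam.inj, Set.ncard_univ,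
    Nat.card_eq_fintype_card]

include H in
/-- the parity -/
theorem sgT_sum {S : Set k[X]} (hS : S ⊆ BadN a) :
    (Fintype.card (Tau a) : F2) + ∑ s, sgT a S s = (S.ncard : F2) := by
  have h1 : S.ncard = (univ.filter fun s : Tau a => QQ a s ∈ S).card := by
    have h2 : S = QQ a '' {s : Tau a | QQ a s ∈ S} := by
      ext Q
      constructor
      · intro hQ
        have := hS hQ
        rw [badN_eq H] at this
        obtain ⟨s, rfl⟩ := this
        exact ⟨s, hQ, rfl⟩
      · rintro ⟨s, hs, rfl⟩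
        exact hs
    conv_lhs => rw [h2]
    rw [Set.ncard_image_of_injective _ H.fam.inj, ← Set.ncard_coe_finset]
    congr 1
    ext s
    simp
  have h3 : ∑ s, sgT a S s = ((univ.filter fun s : Tau a => ¬ (QQ a s ∈ S)).card : F2) := by
    unfold sgT
    rw [card_filter]
    push_cast
    refine sum_congr rfl fun s _ => ?_
    by_cases h : QQ a s ∈ S
    · simp [h]
    · simp [h]
  have h4 : Fintype.card (Tau a) = (univ.filter fun s : Tau a => QQ a s ∈ S).card +
      (univ.filter fun s : Tau a => ¬ (QQ a s ∈ S)).card := by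
    rw [card_filter_add_card_filter_not, card_univ]
  rw [h1, h3, h4]
  push_cast
  have h5 : ∀ x y : F2, x + y + y = x := by decide
  exact h5 _ _

/-- the class in terms of the symbols -/
theorem sgD_eq (hKDR : S_KDR) {m : ℕ} {D : k[X]} (hD : D ∈ Dn (Del a) m) (s : Tau a) :
    sgD H D s = L (D * ∏ l ∈ univ.filter (fun l => l ≠ H.p s ∧ l ≠ H.q s), (a (H.p s) - a l)) (QQ a s) ∧
    ¬ QQ a s ∣ D * ∏ l ∈ univ.filter (fun l => l ≠ H.p s ∧ l ≠ H.q s), (a (H.p s) - a l) := by
  haveI : Fact (Odd n) := ⟨H.hn⟩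
  obtain ⟨hF, hprod, -⟩ := (hKDR k n a N H).2 m D hD
  have hirr := H.fam.irr s
  have hmon := H.fam.mon s
  have hnd : ∀ l ∈ univ.filter (fun l => l ≠ H.p s ∧ l ≠ H.q s), ¬ QQ a s ∣ a (H.p s) - a l := by
    intro l hl hd
    rw [mem_filter] at hl
    rcases (H.dvd_iff s hl.2.1.symm).1 hd with ⟨e1, e2⟩ | ⟨e1, e2⟩
    · exact hl.2.2 e2.symm
    · exact hl.2.1 e1.symm
  have hne : ∀ l ∈ univ.filter (fun l => l ≠ H.p s ∧ l ≠ H.q s), a (H.p s) - a l ≠ 0 :=
    fun l hl h => hnd l hl (h ▸ dvd_zero _)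
  have hDn : ¬ QQ a s ∣ D := by
    intro h
    have hc := (mem_Dn'.1 hD).2.2
    exact hirr.not_isUnit (hc.isUnit_of_dvd' h (H.mem.1 s.2).2.2)
  have hD0 : D ≠ 0 := fun h => hDn (h ▸ dvd_zero _)
  have hPn : ¬ QQ a s ∣ ∏ l ∈ univ.filter (fun l => l ≠ H.p s ∧ l ≠ H.q s), (a (H.p s) - a l) := by
    intro h
    obtain ⟨l, hl, h2⟩ := (hirr.prime.dvd_finset_prod_iff _).1 h
    exact hnd l hl h2
  have hP0 : ∏ l ∈ univ.filter (fun l => l ≠ H.p s ∧ l ≠ H.q s), (a (H.p s) - a l) ≠ 0 :=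
    prod_ne_zero_iff.2 hne
  refine ⟨?_, ?_⟩
  · rw [L_mul_left hirr.ne_zero hD0 hP0 (coprime_of_not_dvd hirr hDn) (coprime_of_not_dvd hirr hPn)]
    have e1 : L D (QQ a s) = ∑ P : Ip D, L P.1 (QQ a s) := by
      conv_lhs => rw [← hprod]
      rw [L_prod_left hirr.ne_zero]
      · intro P _
        exact (hF.irr (Sum.inl P)).ne_zero
      · intro P _
        have hPD : P.1 ∣ D := (dvd_prod_of_mem (fun P : Ip D => P.1) (mem_univ P)).trans hprod.dvd
        exact coprime_of_not_dvd hirr fun h => hDn (h.trans hPD)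
    have e2 : L (∏ l ∈ univ.filter (fun l => l ≠ H.p s ∧ l ≠ H.q s), (a (H.p s) - a l)) (QQ a s) =
        H.comb.gg s := by
      rw [L_prod_left hirr.ne_zero (fun l hl => hne l hl) (fun l hl => coprime_of_not_dvd hirr (hnd l hl))]
      show _ = ∑ l, if l = H.p s ∨ l = H.q s then (0 : F2) else L (a (H.p s) - a l) (QQ a s)
      rw [sum_filter]
      refine sum_congr rfl fun l _ => ?_
      by_cases h : l = H.p s ∨ l = H.q s
      · rw [if_pos h, if_neg (by tauto)]
      · rw [if_neg h, if_pos (by tauto)]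
    rw [e1, e2]
    rfl
  · intro h
    rcases hirr.prime.dvd_or_dvd h with h | h
    · exact hDn h
    · exact hPn h

/-- splitness in terms of symbols -/
theorem split_iff (hKDR : S_KDR) {m : ℕ} {D : k[X]} (hD : D ∈ Dn (Del a) m) (s : Tau a) :
    sgD H D s = 0 ↔ SplitN a D (QQ a s) := by
  have hirr := H.fam.irr s
  have hmon := H.fam.mon s
  obtain ⟨key, hnp⟩ := sgD_eq H hKDR hD s
  rw [key, L_eq_zero_iff H.hk hmon hirr hnp]
  have hpq : H.p s ≠ H.q s := ne_of_lt (H.lt s)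
  constructor
  · rintro ⟨z, hz⟩
    exact ⟨H.p s, H.q s, hpq, H.dvd s, z, hz⟩
  · rintro ⟨i, j, hij, hd, z, hz⟩
    refine ⟨z, ?_⟩
    have hset : univ.filter (fun l => l ≠ i ∧ l ≠ j) = univ.filter (fun l => l ≠ H.p s ∧ l ≠ H.q s) ∧
        QQ a s ∣ a (H.p s) - a i := by
      rcases (H.dvd_iff s hij).1 hd with ⟨f1, f2⟩ | ⟨f1, f2⟩
      · rw [f1, f2, sub_self]
        exact ⟨rfl, dvd_zero _⟩
      · rw [← f1, ← f2] at *
        refine ⟨?_, ?_⟩
        · ext l
          simp only [mem_filter, mem_univ, true_and]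
          tauto
        · rw [f1, f2]
          exact H.dvd s
    obtain ⟨e1, e2⟩ := hset
    rw [e1] at hz
    have h4 : QQ a s ∣ ∏ l ∈ univ.filter (fun l => l ≠ H.p s ∧ l ≠ H.q s), (a (H.p s) - a l) -
        ∏ l ∈ univ.filter (fun l => l ≠ H.p s ∧ l ≠ H.q s), (a i - a l) := by
      have h5 : ∀ t : Finset (Fin n), QQ a s ∣ ∏ l ∈ t, (a (H.p s) - a l) - ∏ l ∈ t, (a i - a l) := by
        intro t
        induction t using Finset.induction_on with
        | empty => rw [prod_empty, prod_empty, sub_self]; exact dvd_zero _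
        | insert x t hx ih =>
          rw [prod_insert hx, prod_insert hx]
          have e : (a (H.p s) - a x) * ∏ l ∈ t, (a (H.p s) - a l) - (a i - a x) * ∏ l ∈ t, (a i - a l) =
              (a (H.p s) - a i) * ∏ l ∈ t, (a (H.p s) - a l) +
              (a i - a x) * (∏ l ∈ t, (a (H.p s) - a l) - ∏ l ∈ t, (a i - a l)) := by ring
          rw [e]
          exact dvd_add (e2.mul_right _) (ih.mul_left _)
      exact h5 _
    have e3 : z ^ 2 - D * ∏ l ∈ univ.filter (fun l => l ≠ H.p s ∧ l ≠ H.q s), (a (H.p s) - a l) =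
        (z ^ 2 - D * ∏ l ∈ univ.filter (fun l => l ≠ H.p s ∧ l ≠ H.q s), (a i - a l)) -
        D * (∏ l ∈ univ.filter (fun l => l ≠ H.p s ∧ l ≠ H.q s), (a (H.p s) - a l) -
          ∏ l ∈ univ.filter (fun l => l ≠ H.p s ∧ l ≠ H.q s), (a i - a l)) := by ring
    rw [e3]
    exact dvd_sub hz (h4.mul_left D)

/-- the class and the set of the split places -/
theorem cls_iff (hKDR : S_KDR) {m : ℕ} {D : k[X]} (hD : D ∈ Dn (Del a) m) {S : Set k[X]} (hS : S ⊆ BadN a) :
    (∀ s, sgD H D s = sgT a S s) ↔ {Q ∈ BadN a | SplitN a D Q} = S := by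
  have h1 : ∀ s : Tau a, sgD H D s = 0 ↔ SplitN a D (QQ a s) := fun s => split_iff H hKDR hD s
  have h2 : ∀ x : F2, x ≠ 0 → x = 1 := by decide
  constructor
  · intro hc
    ext Q
    constructor
    · rintro ⟨hQ, hs⟩
      rw [badN_eq H] at hQ
      obtain ⟨s, rfl⟩ := hQ
      have h3 := hc s
      rw [(h1 s).2 hs, sgT] at h3
      by_contra hQ
      rw [if_neg hQ] at h3
      exact absurd h3 (by decide)
    · intro hQ
      have hb := hS hQ
      have hb' := hb
      rw [badN_eq H] at hb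
      obtain ⟨s, rfl⟩ := hb
      have h3 := hc s
      rw [sgT, if_pos hQ] at h3
      exact ⟨hb', (h1 s).1 h3⟩
  · intro he s
    rw [sgT]
    by_cases hQ : QQ a s ∈ S
    · rw [if_pos hQ]
      rw [← he] at hQ
      exact (h1 s).2 hQ.2
    · rw [if_neg hQ]
      apply h2
      intro h0
      apply hQ
      rw [← he]
      exact ⟨H.mem.1 s.2, (h1 s).1 h0⟩

/-- the set of the split places is the set of its class -/
theorem parity (hKDR : S_KDR) {m : ℕ} (hm : Odd (m + N)) {D : k[X]} (hD : D ∈ Dn (Del a) m) :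
    ex H D % 2 = {Q ∈ BadN a | SplitN a D Q}.ncard % 2 := by
  have hS : {Q ∈ BadN a | SplitN a D Q} ⊆ BadN a := fun Q hQ => hQ.1
  have h1 := (cls_iff H hKDR hD hS).2 rfl
  have h2 := (kD_pow H hKDR hm hD).2
  have h3 := sgT_sum H hS
  have h4 : ((ex H D : ℕ) : F2) = (({Q ∈ BadN a | SplitN a D Q}.ncard : ℕ) : F2) := by
    rw [h2, ← h3]
    congr 1
    exact sum_congr rfl fun s _ => h1 s
  exact (ZMod.natCast_eq_natCast_iff' _ _ _).1 h4

end

end Pool.Agent.Q269.SX
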