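import Pool.Agent.Q269.SX.St
import Pool.Agent.Q269.SL.Cl1

/-!
# Project SX: the order of the kernel over the constant extensions, for all genera and all twists

`a : Fin n → k[X]` with `Geo a N` (`n ≥ 3` odd), `D ∈ Dn (Del a) m`. `kD H D` is the order of the kernel `kc` for the family of the
prime factors of `D` and the class `sgD H D` of `D` (every `D` has a class). These jobs generalise those of the same kind of project GL
(`Pool/Agent/Q269/GL/StF.lean`; `n = 3`, the polynomials `0, a, b`; modules of the proofs: `Pool/Agent/Q269/GL/Asm.lean`), whose proofs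
can be adapted; `EQ1`, `EQ2` (the equations in terms of the symbols), `am`, `Exd`, `Ip` are those of `Pool/Agent/Q269/GJ/StF.lean` (proofs:
`Pool/Agent/Q269/GJ/Asm.lean`), `KD`, `GoodA`, `AdmD`, `TR` those of `Pool/Agent/Q269/GJ/Def.lean`.
-/

set_option autoImplicit false
set_option linter.all false

open scoped Classical
open Finset Polynomial

namespace Pool.Agent.Q269.SX

open Pool.Agent.Q269.GR (F2 cf hv own Irn Dn pr Fr xi ph fp Om rt Pfam)
open Pool.Agent.Q269.GJ (W0 lap eqn Kn KD GoodA AdmD xb am Exd Ip EQ1 EQ2)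
open Pool.Agent.Y164.PS (L Fam)
open Pool.Agent.Y164.HG (Geo Del Tau QQ EW AT BT V Dat kc e2)

section defs

variable {k : Type} [Field k] [Fintype k] {n : ℕ} {a : Fin n → k[X]} {N : ℕ}

/-- the class of the twist by `D` -/
noncomputable def sgD (H : Geo a N) (D : k[X]) (s : Tau a) : F2 := ∑ P : Ip D, L P.1 (QQ a s) + H.comb.gg s

/-- the order of the kernel -/
noncomputable def kD (H : Geo a N) (D : k[X]) : ℕ :=
  haveI : Fact (Odd n) := ⟨H.hn⟩
  kc (H.dat (sgD H D)) (AT fun P : Ip D => P.1) (BT (QQ a) fun P : Ip D => P.1)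
    (fun P : Ip D => (P.1.natDegree : F2))

/-- the solutions of the local equations -/
abbrev SolN (H : Geo a N) (D : k[X]) : Type :=
  {q : V (EW n) (Ip D) (Tau a) × EW n // (∀ P l, EQ1 H D q.1 q.2 P l = 0) ∧ ∀ s, EQ2 H D (sgD H D) q.1 q.2 s = 0}

variable (F : Type) [Field F] [Algebra F2 F]

/-- the system attached to all the prime divisors of `D`, with coefficients in `F` -/
noncomputable def KSn (a : Fin n → k[X]) (D : k[X]) : Submodule F (Ip D → W0 n F) :=
  Kn (fun i j => cf (L j.1 i.1)) (fun i => cf (∑ j : Ip D, if j = i then 0 else L j.1 i.1)) (fun i => xb a i.1)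

variable {F}

/-- the vectors with `w (ph T) = ξ w (T)` (`k₀` is the small field, `D` a polynomial over the large one) -/
noncomputable def EgN (k₀ : Type) [Field k₀] [Fintype k₀] [Algebra k₀ k] (n : ℕ) (ξ : F) (D : k[X]) :
    Submodule F (Ip D → W0 n F) where
  carrier := {w | ∀ T T' : Ip D, T'.1 = ph k₀ T.1 → w T' = ξ • w T}
  add_mem' := by
    intro u v hu hv T T' h
    rw [Pi.add_apply, Pi.add_apply, hu T T' h, hv T T' h, smul_add]
  zero_mem' := by
    intro T T' h
    rw [Pi.zero_apply, Pi.zero_apply, smul_zero]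
  smul_mem' := by
    intro c v hv T T' h
    rw [Pi.smul_apply, Pi.smul_apply, hv T T' h, smul_comm]

/-- the vectors whose sums over the orbits of `ph` vanish -/
noncomputable def NmN (F : Type) [Field F] (k₀ : Type) [Field k₀] [Fintype k₀] [Algebra k₀ k] (n : ℕ) (D : k[X]) :
    Submodule F (Ip D → W0 n F) where
  carrier := {w | ∀ f : ℕ → Ip D, (∀ c, (f (c + 1)).1 = ph k₀ (f c).1) →
    ∑ c ∈ range (Module.finrank k₀ k), w (f c) = 0}
  add_mem' := by
    intro u v hu hv f hf
    simp only [Pi.add_apply]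
    rw [sum_add_distrib, hu f hf, hv f hf, add_zero]
  zero_mem' := by
    intro f hf
    exact sum_const_zero
  smul_mem' := by
    intro c v hv f hf
    simp only [Pi.smul_apply]
    rw [← smul_sum, hv f hf, smul_zero]

/-- the exponent: the sum of the dimensions over the orders which divide `e` -/
noncomputable def sjN (a : Fin n → k[X]) (e : ℕ) (D : k[X]) : ℕ :=
  ∑ r ∈ e.divisors.filter (1 < ·), ∑ u ∈ (range r).filter (fun u => Nat.Coprime u r),
    Module.finrank (Fr r) (KD r (xi r ^ u) a D)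

end defs

/-- **JOB SX-KDR.** The order of the kernel of any family. (`t_KDR (h : GR.S_PRD) : S_KDR`.)
Proof. The prime factors of `∏ i, T i` are the `T i` (`GR.S_PRD` or unique factorisation; the `T i` are different monic primes), a bijection `ι ≃ Ip D`;
`σ = sgD H D` by the class condition (characteristic two); `kc` is invariant under bijections of the index type (reindex the vectors: `V W ι τ` is a
product). `D ∈ Dn (Del a) m` with `m = ∑ deg`: the `T i` are different from all `QQ a s`, which are the monic prime divisors of `Del a`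
(`Geo.mem`, `mem_bpF`); see the proof of `GJ.S_IMP` (module in `Pool/Agent/Q269/GJ/Asm.lean`). Second part: conversely every `D ∈ Dn (Del a) m` is
`∏ P : Ip D, P.1`, and this is a family with `Fam`. -/
def S_KDR : Prop := ∀ (k : Type) [Field k] [Fintype k] (n : ℕ) [Fact (Odd n)] (a : Fin n → k[X]) (N : ℕ) (H : Geo a N),
  (∀ (ι : Type) [Fintype ι] (T : ι → k[X]), Fam (Sum.elim T (QQ a)) →
    (∏ i, T i) ∈ Dn (Del a) (∑ i, (T i).natDegree) ∧
    (∀ s, sgD H (∏ i, T i) s = ∑ i, BT (QQ a) T i s + H.comb.gg s) ∧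
    ∀ σ : Tau a → F2, (∀ s, σ s + ∑ i, BT (QQ a) T i s + H.comb.gg s = 0) →
      kc (H.dat σ) (AT T) (BT (QQ a) T) (fun i => ((T i).natDegree : F2)) = kD H (∏ i, T i)) ∧
  ∀ (m : ℕ), ∀ D ∈ Dn (Del a) m, Fam (Sum.elim (fun P : Ip D => P.1) (QQ a)) ∧ ∏ P : Ip D, P.1 = D ∧
    ∑ P : Ip D, P.1.natDegree = m

/-- **JOB SX-ADX.** The class and the order of the kernel are admissible properties. (GJ: `t_ADM`, module in `Pool/Agent/Q269/GJ/Asm.lean`; `t_ADX
(h : GR.S_PRD) : S_ADX`.)
Proof. As GJ-ADM: both depend only on the `L (P i) (P j)`, `i ≠ j`, on the `L (P i) (QQ a s) = L (QQ a s) (P i)` (`L_comm`, `-1` is a square) and on the degrees. -/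
def S_ADX : Prop := ∀ (k : Type) [Field k] [Fintype k] (n : ℕ) (a : Fin n → k[X]) (N : ℕ) (H : Geo a N)
  (σ : Tau a → F2) (M : ℕ),
  AdmD (Del a) (fun D => (∀ s, sgD H D s = σ s) ∧ kD H D = M) ∧ AdmD (Del a) (fun D => kD H D = M) ∧
  AdmD (Del a) (fun D => ∀ s, sgD H D s = σ s)

/-- **JOB SX-NSL.** The number of the solutions. (`t_NSL (h1 : S_CNT) (h2 : GJ.S_CNV) (h3 : GR.S_PRD) : S_NSL`.)
Proof. By CNV `SolN H D` is the set of the solutions of `E1 = 0`, `E2 = 0` for `H.dat (sgD H D)`; CNT (`AT` is symmetric: `L_comm`; the class condition holds by the definition of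
`sgD`, characteristic two; `∑ deg P + N = m + N = 1` in `F2`, `(H.dat σ).N = N`): the number is `kD H D * Nat.card (EW n)`. And `Nat.card (EW n) = 2 ^ (n - 1)` (the first `n - 1`
coordinates are arbitrary). -/
def S_NSL : Prop := ∀ (k : Type) [Field k] [Fintype k] (n : ℕ) (a : Fin n → k[X]) (N : ℕ) (H : Geo a N)
  (m : ℕ), Odd (m + N) → ∀ D ∈ Dn (Del a) m, Nat.card (SolN H D) = kD H D * 2 ^ (n - 1)

/-- **JOB SX-FXN.** The solutions over `k'` which are fixed by the Frobenius automorphism are the solutions over `k`.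
(`t_FXN (h1 : GJ.S_BAD) (h2 : GR.S_FCT) (h3 : GR.S_FCD) (h4 : GR.S_SYR) (h5 : GR.S_PAS) : S_FXN`. GL: `t_FXS`; see also the last part of the proof of
`GJ.S_EXT`.)
Proof. Bijection: `w'.1 T = w.1 P` for the prime factors `T = ph^c (fp j P)` of `P` over `k'` (FCD), `w'.2 (β s) = w.2 s`, `x0' = x0` (`β` from BAD). First the class:
`sgD H' D' (β s) = sgD H D s` (`∑_c L (ph^c T_P) (Q'_(β s)) = L P (Q_s)`, FCT (7), `L_prod_left`, BAD, as in the proof of `GJ.S_EXT`). `EQ1` at `T`: for `P'' ≠ P` the sum over the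
factors `T'` of `P''` of `L T' T (w' T' + w' T)` is `L P'' P (w P'' + w P)` (FCT (7), SYR (3), also at the conjugates by PAS), for `P'' = P` it is `0`; `xb a' T = xb a P` (SYR (3), PAS);
`L (Q'_(β s)) T = L (Q_s) P`; `deg T = deg P/g`, `g` odd, the same parity. `EQ2` at `β s`: `∑_T L T (Q'_(β s)) = ∑_P L P (Q_s)`, weighted. -/
def S_FXN : Prop := ∀ (k k' : Type) [Field k] [Fintype k] [Field k'] [Fintype k'] [Algebra k k']
  (n : ℕ) (a : Fin n → k[X]) (N : ℕ) (H : Geo a N) (H' : Geo (am k' a) N), Exd k k' (Del a) →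
  ∀ (m : ℕ), ∀ D ∈ Dn (Del a) m,
  Nat.card {q : SolN H' (D.map (algebraMap k k')) //
    ∀ T T' : Ip (D.map (algebraMap k k')), T'.1 = ph k T.1 → q.1.1.1 T' = q.1.1.1 T} = Nat.card (SolN H D)

/-- **JOB SX-NKN.** The decomposition of the solutions over `k'`. (`t_NKN (h1 : GJ.S_BAD) (h2 : GR.S_PAS) (h3 : GR.S_FCD)
(h4 : GR.S_SYR) : S_NKN`. GL: `t_NKS`.)
Proof. `SolN H' D'` is a group (the equations are linear in `(w, x0)`), `Θ (w.1, w.2, x0) = (w.1 ∘ ph, w.2, x0)` is an automorphism of it (`ph Q' = Q'` for the bad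
primes: BAD, `L (ph T') (ph T) = L T' T`, PAS; the degrees; `xb a' (ph T) = xb a' T`), `Θ^e = 1`, `e` odd. `𝒩 = ∑_(c<e) Θ^c` has values in the fixed elements and is
the identity (`e = 1` in `F2`) on them, so the order of the group is the number of the fixed elements times the order of the kernel of `𝒩`. The kernel consists of
the `(w, 0, 0)` with `∑_(c<e) w (ph^c T) = 0` for all `T` and `EQ1 = 0`, `EQ2 = 0`. `EQ2` is then automatic (`L T Q'` is constant on the orbits of `ph`, the sum of `w` over an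
orbit is zero as `e/g` is odd), and `EQ1` is the system `KSn F2`: `∑_T' L T' T (w T' + w T) + lap (xb a' T) (w T)`; the element `w.1 T ∈ EW n` is the same as an element of
`W0 n F2`, `cf` is the identity of `F2`. -/
def S_NKN : Prop := ∀ (k k' : Type) [Field k] [Fintype k] [Field k'] [Fintype k'] [Algebra k k']
  (n : ℕ) (a : Fin n → k[X]) (N : ℕ) (H : Geo a N) (H' : Geo (am k' a) N), Exd k k' (Del a) →
  ∀ (m : ℕ), ∀ D ∈ Dn (Del a) m,
  Nat.card (SolN H' (D.map (algebraMap k k'))) =
    Nat.card {q : SolN H' (D.map (algebraMap k k')) //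
      ∀ T T' : Ip (D.map (algebraMap k k')), T'.1 = ph k T.1 → q.1.1.1 T' = q.1.1.1 T} *
    2 ^ Module.finrank F2 ↥(KSn F2 (am k' a) (D.map (algebraMap k k')) ⊓ NmN F2 k n (D.map (algebraMap k k')))

/-- **JOB SX-BCN.** Extension of the field of coefficients. (GL: `t_BCK`.)
Proof. `φ (cf x) = cf x`, so `φ` maps the coefficients of the first system to those of the second; the dimension of the space of solutions of a finite system of
linear equations does not change under an extension of fields (the proof of `GL.S_BCK` has this for a general finite system). `W0 n F` is given by one equation in `F^n`; `NmN` is given by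
finitely many equations with coefficients in `F2` (one sequence `f` for each `T`; if `ph T ∈ pr D'` for `T ∈ pr D'`, see `GR.S_PAS`: `D'` is `D.map`). -/
def S_BCN : Prop := ∀ (F F' : Type) [Field F] [Field F'] [Algebra F2 F] [Algebra F2 F'] (φ : F →+* F'),
  (∀ (k : Type) [Field k] [Fintype k] (r : ℕ) (ξ : F) (n : ℕ) (a : Fin n → k[X]) (D : k[X]),
    Module.finrank F' (KD r (φ ξ) a D) = Module.finrank F (KD r ξ a D)) ∧
  (∀ (k k' : Type) [Field k] [Fintype k] [Field k'] [Fintype k'] [Algebra k k'] (n : ℕ) (a : Fin n → k[X]) (D : k[X]), D ≠ 0 →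
    Module.finrank F' ↥(KSn F' (am k' a) (D.map (algebraMap k k')) ⊓ NmN F' k n (D.map (algebraMap k k'))) =
    Module.finrank F ↥(KSn F (am k' a) (D.map (algebraMap k k')) ⊓ NmN F k n (D.map (algebraMap k k'))))

/-- **JOB SX-KSN.** The decomposition of the system over `k'`. (`t_KSN (h1 : GL.S_EIG) (h2 : GR.S_PAS) : S_KSN`. GL: `t_KSE`.)
Proof. `Θ w = w ∘ ph` is an endomorphism of `KSn F a' D'` (the coefficients are invariant: `L (ph T') (ph T) = L T' T`, `xb a' (ph T) = xb a' T`), and `Θ^e = 1`. The eigenspace of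
`ζ^i` is `KSn ⊓ EgN k n (ζ^i)`. And `KSn ⊓ NmN` is the kernel of `∑_(c<e) Θ^c`, which is stable under `Θ`; the operator is `∑_c ζ^(ic) = 0` on the eigenspace for `0 < i < e` and
`e` (not zero in `F`, as there is an element of order `e` and `F` has characteristic two: `e` is odd) on that for `i = 0`. EIG for the restriction of `Θ` to `KSn ⊓ NmN`. -/
def S_KSN : Prop := ∀ (k k' : Type) [Field k] [Fintype k] [Field k'] [Fintype k'] [Algebra k k'], ringChar k ≠ 2 →
  ∀ (F : Type) [Field F] [Algebra F2 F] (ζ : F), orderOf ζ = Module.finrank k k' → ∀ (n : ℕ) (a : Fin n → k[X]) (D : k[X]), D ≠ 0 →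
  Module.finrank F ↥(KSn F (am k' a) (D.map (algebraMap k k')) ⊓ NmN F k n (D.map (algebraMap k k'))) =
    ∑ i ∈ (range (Module.finrank k k')).filter (0 < ·),
      Module.finrank F ↥(KSn F (am k' a) (D.map (algebraMap k k')) ⊓ EgN k n (ζ ^ i) (D.map (algebraMap k k')))

/-- **JOB SX-ZTN.** The eigenspace of a root of unity of order `r` is the kernel `KD` for `r`.
(`t_ZTN (h1 : GR.S_PAS) (h2 : GR.S_FCT) (h3 : GR.S_FCD) (h4 : GR.S_SYR) : S_ZTN`. GL: `t_ZET`; see also `GJ.S_TWB`.)
Proof. `w ↦ (w (fp j P))_(P ∈ pr D, r ∣ deg P)` for an embedding `j : k' → Om k`, as in the docstring of `GL.S_ZET`: `w` is determined by these values, which can be arbitrary in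
`EgN`; the equation of `KSn` at `ph^c (fp j P)` is `ξ^c` times that at `fp j P`; for `r ∤ deg P` it is automatic; for `r ∣ deg P` it is the equation of `KD` at `P` (SYR (1) for
`P'' ≠ P` and `∑_c L (ph^c (fp j P'')) T = L P'' P` for the diagonal, SYR (2) for `P'' = P`, `xb a' T = xb a P` by SYR (3)). -/
def S_ZTN : Prop := ∀ (k k' : Type) [Field k] [Fintype k] [Field k'] [Fintype k'] [Algebra k k'], ringChar k ≠ 2 →
  Odd (Module.finrank k k') → ∀ (n : ℕ) (a : Fin n → k[X]), Del a ≠ 0 → ∀ (m : ℕ), ∀ D ∈ Dn (Del a) m,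
  ∀ (F : Type) [Field F] [Algebra F2 F] (ξ : F) (r : ℕ), orderOf ξ = r → 1 < r → r ∣ Module.finrank k k' →
  Module.finrank F ↥(KSn F (am k' a) (D.map (algebraMap k k')) ⊓ EgN k n ξ (D.map (algebraMap k k'))) =
    Module.finrank F (KD r ξ a D)

/-- **JOB SX-SMN.** The number of the solutions with vanishing sums over the orbits.
(`t_SMN (h1 : S_BCN) (h2 : S_KSN) (h3 : S_ZTN) (h4 : GR.S_XIR) : S_SMN`. GL: `t_SUM`.)
Proof. As `GL.S_SUM` (docstring in `Pool/Agent/Q269/GL/StF.lean`), without KDE. -/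
def S_SMN : Prop := ∀ (k k' : Type) [Field k] [Fintype k] [Field k'] [Fintype k'] [Algebra k k'], ringChar k ≠ 2 →
  IsSquare (-1 : k) → Odd (Module.finrank k k') → ∀ (n : ℕ) (a : Fin n → k[X]), Del a ≠ 0 → ∀ (m : ℕ),
  ∀ D ∈ Dn (Del a) m,
  Module.finrank F2 ↥(KSn F2 (am k' a) (D.map (algebraMap k k')) ⊓ NmN F2 k n (D.map (algebraMap k k'))) =
    sjN a (Module.finrank k k') D

/-- **JOB SX-SLN.** The order of the kernel over `k'`. (`t_SLN (h1 : S_NSL) (h2 : S_FXN) (h3 : S_NKN) (h4 : S_SMN) (h5 : GJ.S_HYM) : S_SLN`.)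
Proof. NSL over `k` and over `k'` (`HYM`: `D' ∈ Dn (Del a') m`, `m + N` is the same), FXN, NKN, SMN: `kD H' D' * 2^(n-1) = kD H D * 2^(n-1) * 2^(…)`. -/
def S_SLN : Prop := ∀ (k k' : Type) [Field k] [Fintype k] [Field k'] [Fintype k'] [Algebra k k']
  (n : ℕ) (a : Fin n → k[X]) (N : ℕ) (H : Geo a N) (H' : Geo (am k' a) N), Exd k k' (Del a) →
  ∀ (m : ℕ), Odd (m + N) → ∀ D ∈ Dn (Del a) m,
  kD H' (D.map (algebraMap k k')) = kD H D * 2 ^ sjN a (Module.finrank k k') D

end Pool.Agent.Q269.SX
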