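import Pool.Agent.Q269.SX.Lim

/-!
# Project SX: the joint law of the exponents for several families
-/

set_option autoImplicit false
set_option linter.all false
set_option maxHeartbeats 400000

open scoped Classical
open Finset Polynomial Filter

namespace Pool.Agent.Q269.SX

open Pool.Agent.Q269.GR (F2 Dn pr Fr xi mem_Dn')
open Pool.Agent.Y164.HG (Geo Del Tau QQ kc AT BT)
open Pool.Agent.Y164.PS (L Fam)
open Pool.Agent.Q269.GJ (Ip KD AdmD IsR GoodA)
open Pool.Agent.Q269.SL (lawc law2 BoundedBy)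

section

variable {k : Type} [Field k] [Fintype k] {R : Type} [Fintype R] {n : R → ℕ} {a : ∀ r, Fin (n r) → k[X]}
  {N : R → ℕ} (H : ∀ r, Geo (a r) (N r))

include H in
theorem tau_ne (r : R) : Nonempty (Tau (a r)) := by
  haveI : Fact (Odd (n r)) := ⟨(H r).hn⟩
  exact ((H r).conn (fun _ => 0)).nonempty

/-- the probability in a class -/
noncomputable def pcl (a : ∀ r, Fin (n r) → k[X]) (e : R → ℕ) (σ : ∀ r, Tau (a r) → F2) : ℝ :=
  ∏ r, lawc ((Fintype.card (Tau (a r)) : ZMod 2) + ∑ s, σ r s) (e r)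

theorem pcl_nonneg (e : R → ℕ) (σ : ∀ r, Tau (a r) → F2) : 0 ≤ pcl a e σ :=
  prod_nonneg fun r _ => Pool.Agent.Q269.SL.lawc_nonneg _ _

theorem lawc_le_one (c : ZMod 2) (e : ℕ) : lawc c e ≤ 1 :=
  le_hasSum (Pool.Agent.Q269.SL.hasSum_lawc c) e fun j _ => Pool.Agent.Q269.SL.lawc_nonneg c j

theorem pcl_le_one (e : R → ℕ) (σ : ∀ r, Tau (a r) → F2) : pcl a e σ ≤ 1 :=
  prod_le_one (fun r _ => Pool.Agent.Q269.SL.lawc_nonneg _ _) fun r _ => lawc_le_one _ _

theorem law_avg' (c : F2) (e : ℕ) {τ : Type} [Fintype τ] [Nonempty τ] (i : Fintype (τ → F2)) :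
    ∑ σ : τ → F2, lawc (c + ∑ s, σ s) e = 2 ^ Fintype.card τ * law2 e := by
  have h : i = Pi.instFintype := Subsingleton.elim _ _
  subst h
  exact law_avg c e

theorem sum_pcl_aux {S : R → Type} [∀ r, Fintype (S r)] [∀ r, Nonempty (S r)] (i : ∀ r, Fintype (S r → F2))
    (j : Fintype (∀ r, S r → F2)) (e : R → ℕ) :
    ∑ σ : ∀ r, S r → F2, ∏ r, lawc ((Fintype.card (S r) : ZMod 2) + ∑ s, σ r s) (e r) =
      2 ^ (∑ r, Fintype.card (S r)) * ∏ r, law2 (e r) := by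
  have h1 : ∑ σ : ∀ r, S r → F2, ∏ r, lawc ((Fintype.card (S r) : ZMod 2) + ∑ s, σ r s) (e r) =
      ∏ r, ∑ τ : S r → F2, lawc ((Fintype.card (S r) : ZMod 2) + ∑ s, τ s) (e r) := by
    rw [prod_univ_sum]
    refine sum_congr ?_ fun _ _ => rfl
    ext σ
    simp only [mem_univ, Fintype.mem_piFinset, implies_true]
  rw [h1, ← prod_pow_eq_pow_sum, ← prod_mul_distrib]
  refine prod_congr rfl fun r _ => ?_
  exact law_avg' _ _ _

include H in
theorem sum_pcl (e : R → ℕ) :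
    ∑ σ : ∀ r, Tau (a r) → F2, pcl a e σ = 2 ^ (∑ r, Fintype.card (Tau (a r))) * ∏ r, law2 (e r) := by
  haveI := tau_ne H
  exact sum_pcl_aux (fun _ => Fintype.ofFinite _) _ e

theorem card_all {α : Type} (s : Finset α) (P : α → Prop) (i : DecidablePred P) (h : ∀ x, P x) :
    (@Finset.filter α P i s).card = s.card := by
  congr 1
  ext x
  rw [mem_filter]
  exact ⟨fun g => g.1, fun g => ⟨g, h x⟩⟩

/-- the sum over the classes -/
theorem sum_cls (X : Finset k[X]) (Q : k[X] → Prop)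
    (i : ∀ σ : ∀ r, Tau (a r) → F2, DecidablePred fun D => (∀ r s, sgD (H r) D s = σ r s) ∧ Q D)
    (j : DecidablePred Q) :
    ∑ σ : ∀ r, Tau (a r) → F2,
      (@Finset.filter _ (fun D => (∀ r s, sgD (H r) D s = σ r s) ∧ Q D) (i σ) X).card =
      (@Finset.filter _ Q j X).card := by
  rw [card_eq_sum_card_fiberwise (f := fun D => fun r => sgD (H r) D) (t := univ) (fun _ _ => mem_coe.2 (mem_univ _))]
  refine sum_congr rfl fun σ _ => ?_
  congr 1
  ext D
  simp only [mem_filter]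
  constructor
  · rintro ⟨h1, h2, h3⟩
    exact ⟨⟨h1, h3⟩, funext fun r => funext fun s => h2 r s⟩
  · rintro ⟨⟨h1, h3⟩, h2⟩
    exact ⟨h1, fun r s => by rw [← h2], h3⟩

/-- the law, up to `ε` -/
theorem law_eps (h1 : S_LWM) (h2 : S_CLS) (hcop : ∀ r r', r ≠ r' → IsCoprime (Del (a r)) (Del (a r')))
    (e : R → ℕ) (ε : ℝ) (hε : 0 < ε) : ∀ᶠ m : ℕ in degR N,
    |(((Dn (∏ r, Del (a r)) m).filter fun D => ∀ r, kD (H r) D = 2 ^ e r).card : ℝ) -
      (∏ r, law2 (e r)) * ((Dn (∏ r, Del (a r)) m).card : ℝ)| ≤ ε * (Fintype.card k : ℝ) ^ m := by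
  obtain ⟨T, hT⟩ : ∃ T : ℕ, T = Fintype.card (∀ r, Tau (a r) → F2) := ⟨_, rfl⟩
  have hT0 : (0 : ℝ) < 2 * ((T : ℝ) + 1) := by positivity
  have hδ : 0 < ε / (2 * ((T : ℝ) + 1)) := div_pos hε hT0
  rw [degR, eventually_inf_principal]
  filter_upwards [h1 k R n a N H hcop e _ hδ, h2 k R n a N H hcop _ hδ] with m g1 g2 ho
  have g1 := g1 ho
  have g2 := g2 ho
  obtain ⟨X, hX⟩ : ∃ X : Finset k[X], X = Dn (∏ r, Del (a r)) m := ⟨_, rfl⟩
  obtain ⟨δ, hδ'⟩ : ∃ δ : ℝ, δ = ε / (2 * ((T : ℝ) + 1)) * (Fintype.card k : ℝ) ^ m := ⟨_, rfl⟩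
  rw [← hX] at g1 g2 ⊢
  rw [← hδ'] at g1 g2
  have hδ0 : 0 ≤ δ := by rw [hδ']; positivity
  have hc : (2 : ℝ) ^ (∑ r, Fintype.card (Tau (a r))) ≠ 0 := by positivity
  have e0 : (∏ r, law2 (e r)) * (X.card : ℝ) =
      ∑ σ : ∀ r, Tau (a r) → F2, pcl a e σ * (((2 : ℝ) ^ (∑ r, Fintype.card (Tau (a r))))⁻¹ * (X.card : ℝ)) := by
    rw [← sum_mul, sum_pcl H]
    field_simp
  have e1 : ((X.filter fun D => ∀ r, kD (H r) D = 2 ^ e r).card : ℝ) =
      ∑ σ : ∀ r, Tau (a r) → F2,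
        ((X.filter fun D => (∀ r s, sgD (H r) D s = σ r s) ∧ ∀ r, kD (H r) D = 2 ^ e r).card : ℝ) := by
    rw [← Nat.cast_sum]
    exact congrArg Nat.cast (sum_cls H X (fun D => ∀ r, kD (H r) D = 2 ^ e r) _ _).symm
  rw [e0, e1, ← sum_sub_distrib]
  refine (abs_sum_le_sum_abs _ _).trans ?_
  have h3 : ∀ σ ∈ (univ : Finset (∀ r, Tau (a r) → F2)),
      |((X.filter fun D => (∀ r s, sgD (H r) D s = σ r s) ∧ ∀ r, kD (H r) D = 2 ^ e r).card : ℝ) -
        pcl a e σ * (((2 : ℝ) ^ (∑ r, Fintype.card (Tau (a r))))⁻¹ * (X.card : ℝ))| ≤ 2 * δ := by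
    intro σ _
    have k1 := g1 σ
    have k2 := g2 σ
    change |_ - pcl a e σ * _| ≤ _ at k1
    have k3 : |pcl a e σ * (((X.filter fun D => ∀ r s, sgD (H r) D s = σ r s).card : ℝ) -
        ((2 : ℝ) ^ (∑ r, Fintype.card (Tau (a r))))⁻¹ * (X.card : ℝ))| ≤ δ := by
      rw [abs_mul, abs_of_nonneg (pcl_nonneg e σ)]
      calc pcl a e σ * _ ≤ 1 * δ := mul_le_mul (pcl_le_one e σ) k2 (abs_nonneg _) zero_le_one
        _ = δ := one_mul δ
    calc _ = |(((X.filter fun D => (∀ r s, sgD (H r) D s = σ r s) ∧ ∀ r, kD (H r) D = 2 ^ e r).card : ℝ) -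
          pcl a e σ * ((X.filter fun D => ∀ r s, sgD (H r) D s = σ r s).card : ℝ)) +
          pcl a e σ * (((X.filter fun D => ∀ r s, sgD (H r) D s = σ r s).card : ℝ) -
            ((2 : ℝ) ^ (∑ r, Fintype.card (Tau (a r))))⁻¹ * (X.card : ℝ))| := by
          congr 1
          ring
      _ ≤ δ + δ := (abs_add_le _ _).trans (add_le_add k1 k3)
      _ = 2 * δ := by ring
  refine (sum_le_sum h3).trans ?_
  rw [sum_const, card_univ, ← hT, nsmul_eq_mul, hδ']
  have hq : 0 ≤ (Fintype.card k : ℝ) ^ m := by positivity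
  calc (T : ℝ) * (2 * (ε / (2 * ((T : ℝ) + 1)) * (Fintype.card k : ℝ) ^ m))
      = (T / (T + 1)) * (ε * (Fintype.card k : ℝ) ^ m) := by field_simp
    _ ≤ 1 * (ε * (Fintype.card k : ℝ) ^ m) := by
        refine mul_le_mul_of_nonneg_right ?_ (by positivity)
        rw [div_le_one (by positivity)]
        linarith
    _ = ε * (Fintype.card k : ℝ) ^ m := one_mul _

/-- the law at one point -/
theorem law_pt (hKDR : S_KDR) (h1 : S_LWM) (h2 : S_CLS)
    (hcop : ∀ r r', r ≠ r' → IsCoprime (Del (a r)) (Del (a r'))) (hk : ringChar k ≠ 2)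
    (hm : IsSquare (-1 : k)) (e : R → ℕ) :
    Tendsto (fun m => (((Dn (∏ r, Del (a r)) m).filter fun D => (fun r => ex (H r) D) = e).card : ℝ) /
      ((Dn (∏ r, Del (a r)) m).card : ℝ)) (degR N) (nhds (∏ r, law2 (e r))) := by
  obtain ⟨c, hc, hlow⟩ := lowD H hcop hk hm
  have hq : (0 : ℝ) < Fintype.card k := by
    have : 0 < Fintype.card k := Fintype.card_pos
    exact_mod_cast this
  refine ratioR inf_le_left hq hc hlow fun ε hε => ?_
  have h3 := law_eps H h1 h2 hcop e ε hε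
  have ho : ∀ᶠ m : ℕ in degR N, ∀ r, Odd (m + N r) := by
    rw [degR, eventually_inf_principal]
    exact Eventually.of_forall fun m h => h
  filter_upwards [h3, ho] with m g1 g2
  have e1 : (Dn (∏ r, Del (a r)) m).filter (fun D => (fun r => ex (H r) D) = e) =
      (Dn (∏ r, Del (a r)) m).filter (fun D => ∀ r, kD (H r) D = 2 ^ e r) := by
    ext D
    simp only [mem_filter]
    refine and_congr_right fun hD => ?_
    have hD' : ∀ r, D ∈ Dn (Del (a r)) m := by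
      intro r
      rw [mem_Dn'] at hD ⊢
      exact ⟨hD.1, hD.2.1, hD.2.2.of_isCoprime_of_dvd_right (dvd_prod_of_mem _ (mem_univ r))⟩
    constructor
    · intro h r
      rw [kD_iff (H r) hKDR (g2 r) (hD' r)]
      exact congrFun h r
    · intro h
      funext r
      exact (kD_iff (H r) hKDR (g2 r) (hD' r) (e r)).1 (h r)
  rw [e1]
  exact g1

theorem hasSum_law2 : HasSum law2 1 := Pool.Agent.Q269.SL.hasSum_law

/-- the law for sets -/
theorem law_sets (hKDR : S_KDR) (h1 : S_LWM) (h2 : S_CLS)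
    (hcop : ∀ r r', r ≠ r' → IsCoprime (Del (a r)) (Del (a r'))) (hk : ringChar k ≠ 2)
    (hm : IsSquare (-1 : k)) (T : Set (R → ℕ)) :
    Tendsto (fun m => (((Dn (∏ r, Del (a r)) m).filter fun D => (fun r => ex (H r) D) ∈ T).card : ℝ) /
      ((Dn (∏ r, Del (a r)) m).card : ℝ)) (degR N) (nhds (∑' e : T, ∏ r, law2 (e.1 r))) := by
  obtain ⟨c, hc, hlow⟩ := lowD H hcop hk hm
  have hq : (0 : ℝ) < Fintype.card k := by
    have : 0 < Fintype.card k := Fintype.card_pos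
    exact_mod_cast this
  have h3 : degR N ≤ atTop := inf_le_left
  have hne : ∀ᶠ m : ℕ in degR N, (Dn (∏ r, Del (a r)) m).Nonempty := by
    filter_upwards [hlow.filter_mono h3] with m hm'
    rw [← card_pos]
    have : (0 : ℝ) < ((Dn (∏ r, Del (a r)) m).card : ℝ) := lt_of_lt_of_le (by positivity) hm'
    exact_mod_cast this
  obtain ⟨S, hS⟩ : ∃ S : ℕ → Finset k[X], S = fun m => Dn (∏ r, Del (a r)) m := ⟨_, rfl⟩
  obtain ⟨f, hf⟩ : ∃ f : k[X] → (R → ℕ), f = fun D => fun r => ex (H r) D := ⟨_, rfl⟩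
  obtain ⟨g, hg⟩ : ∃ g : (R → ℕ) → ℝ, g = fun e => ∏ r, law2 (e r) := ⟨_, rfl⟩
  have h5 := scheffe (degR N) S f g (by rw [hg]; exact Pool.Agent.Q269.SL.hasSum_pi) (by rw [hS]; exact hne)
    (fun e => by
      have h4 := law_pt H hKDR h1 h2 hcop hk hm e
      have e1 : g e = ∏ r, law2 (e r) := by rw [hg]
      rw [e1]
      refine h4.congr fun m => ?_
      rw [hS, hf]
      congr 2
      exact Pool.Agent.Q269.SX.Lv.fil_card _ _ _ _ _ fun D => Iff.rfl) T
  rw [hg, hS, hf] at h5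
  exact h5

end

end Pool.Agent.Q269.SX
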