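import Pool.Agent.Q269.SX.StR

/-!
# Project SX: the bound by the order of the kernel is exact
-/

set_option autoImplicit false
set_option linter.all false

open scoped Classical
open Polynomial IsDedekindDomain Finset

namespace Pool.Agent.Q269.SX

open Pool.Agent.Y164.HG
open Pool.Agent.Q269.GR (Dn)
open Pool.Agent.Q269.GJ (Ip)
open Pool.Agent.Y713.SE (tDat hp Pw)
open Pool.Agent.Y713.SE.Dat (au rs)
open Pool.Agent.Y164.PS (L ch el Fam)
open Pool.Agent.Q269.SL (BoundedBy imp_bound)

section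
variable {k K : Type} [Field k] [Fintype k] [Field K] [Algebra k[X] K]
  [IsFractionRing k[X] K]
variable {n : ℕ} {a : Fin n → k[X]} {N : ℕ} (H : Geo a N)

include H in
theorem exact_bound (hSEL : S_SEL) (hBDX : S_BDX) [Fact (Odd n)] (σ : Tau a → F2) (ι : Type) [Fintype ι]
    (T : ι → k[X]) (hR : Fam (Sum.elim T (QQ a)))
    (hcl : ∀ s, σ s + ∑ i, BT (QQ a) T i s + H.comb.gg s = 0)
    (hpar : ∑ i, ((T i).natDegree : F2) + (N : F2) = 1) (M : ℕ) :
    BoundedBy (cur K a (∏ i, T i)) k[X] M ↔
      kc (H.dat σ) (AT T) (BT (QQ a) T) (fun i => ((T i).natDegree : F2)) ≤ M := by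
  constructor
  · intro hM
    have hinj : Function.Injective (algebraMap k[X] K) := IsFractionRing.injective k[X] K
    have h2 : ((2 : ℕ) : k) ≠ 0 := by
      have := Ring.two_ne_zero H.hk
      exact_mod_cast this
    have hζ : IsPrimitiveRoot (-1 : k) 2 := by
      refine IsPrimitiveRoot.mk_of_lt _ (by norm_num) (by norm_num) ?_
      intro l hl1 hl2
      have : l = 1 := by omega
      rw [this, pow_one]
      intro h
      apply Ring.two_ne_zero H.hk
      have h3 : (2 : k) = 1 + 1 := by norm_num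
      rw [h3]
      nth_rewrite 1 [← h]
      ring
    have hT0 : (∏ i, T i) ≠ 0 := prod_ne_zero_iff.2 fun i _ => (hR.irr (Sum.inl i)).ne_zero
    have hδ : algebraMap k[X] K (∏ i, T i) ≠ 0 := (map_ne_zero_iff _ hinj).2 hT0
    have he : Function.Injective (fun i => algebraMap k[X] K (a i)) := by
      intro i j hij
      by_contra hne
      exact H.ne hne (sub_eq_zero.2 (hinj hij))
    have hn : ¬ 2 ∣ n := by
      rw [← even_iff_two_dvd, Nat.not_even_iff_odd]
      exact H.hn
    obtain ⟨D0, hD⟩ : ∃ D0 : Pool.Agent.Y713.SE.Dat 2 n K,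
        D0 = tDat K Nat.prime_two h2 hζ hδ he hn := ⟨_, rfl⟩
    have hDδ : D0.δ = algebraMap k[X] K (∏ i, T i) := by rw [hD]; rfl
    have hDe : ∀ i, D0.e i = algebraMap k[X] K (a i) := fun i => by rw [hD]; rfl
    have hf : D0.f = cur K a (∏ i, T i) := by
      rw [Pool.Agent.Y713.SE.Dat.f, hDδ, cur]
      simp only [hDe]
    obtain ⟨p, hexp⟩ := ExpChar.exists K
    haveI := hexp
    haveI : ExpChar (SeparableClosure K) p :=
      expChar_of_injective_algebraMap (algebraMap K (SeparableClosure K)).injective p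
    haveI : ∀ v : HeightOneSpectrum k[X], ExpChar (SeparableClosure (v.adicCompletion K)) p := fun v =>
      expChar_of_injective_algebraMap
        (algebraMap K (SeparableClosure (v.adicCompletion K))).injective p
    obtain ⟨A, B, x, c, hk, h1, h3, h4, h5, h6⟩ := hSEL k K n a N H ι T hR D0 hDδ hDe σ hcl hpar
      (SeparableClosure K) p (fun v : HeightOneSpectrum k[X] => SeparableClosure (v.adicCompletion K))
    rw [← hf] at hM
    exact hk.trans (hBDX n K D0 k[X] p A B M x c h1 h3 h4 h5 h6 hM)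
  · intro hM
    have hNe : (H.dat σ).N = (N : F2) := rfl
    exact (imp_bound H σ ι T hR hcl (by rw [hNe]; exact hpar)).mono hM

include H in
/-- the order of the kernel is the least bound, for every twist of the right parity -/
theorem exact_kD (hSEL : S_SEL) (hBDX : S_BDX) (hKDR : S_KDR) (m : ℕ) (hm : Odd (m + N)) (D : k[X])
    (hD : D ∈ Dn (Del a) m) (M : ℕ) : BoundedBy (cur K a D) k[X] M ↔ kD H D ≤ M := by
  haveI : Fact (Odd n) := ⟨H.hn⟩
  obtain ⟨hF, hprod, hsum⟩ := (hKDR k n a N H).2 m D hD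
  obtain ⟨h1, h2, h3⟩ := (hKDR k n a N H).1 (Ip D) (fun P => P.1) hF
  rw [hprod] at h1 h2 h3
  have hcl : ∀ s, sgD H D s + ∑ i, BT (QQ a) (fun P : Ip D => P.1) i s + H.comb.gg s = 0 := by
    intro s
    rw [h2 s]
    have : ∀ x y : F2, x + y + x + y = 0 := by decide
    exact this _ _
  have hpar : ∑ i : Ip D, ((i.1.natDegree : ℕ) : F2) + (N : F2) = 1 := by
    rw [← Nat.cast_sum, hsum, ← Nat.cast_add]
    exact (ZMod.natCast_eq_one_iff_odd).2 hm
  have h4 := exact_bound (K := K) H hSEL hBDX (sgD H D) (Ip D) (fun P => P.1) hF hcl hpar M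
  rw [hprod, h3 (sgD H D) hcl] at h4
  exact h4

end

end Pool.Agent.Q269.SX
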