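import Pool.Agent.Q269.SL.Bnd

/-!
# Project SX: the case in which the order is one
-/

set_option autoImplicit false
set_option linter.all false

open scoped Classical
open Polynomial IsDedekindDomain Finset

namespace Pool.Agent.Q269.SX

open Pool.Agent.Q269.SL (BoundedBy)
open Pool.Agent.Y713.Jac (J Cochain IsCocycle IsLocallyTrivial IsCoboundary mapJ ShaPrimaryTrivial)

section
variable {K : Type} [Field K] {F : K[X]} {R : Type} [CommRing R] [IsDedekindDomain R] [Algebra R K]
  [IsFractionRing R K]

theorem coc_pow {c : Cochain 2 F} (h : IsCocycle 2 F c) (m : ℕ) : IsCocycle 2 F (fun σ => c σ ^ m) := by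
  refine ⟨h.1.comp fun x => x ^ m, fun σ τ => ?_⟩
  show c (σ * τ) ^ m = c σ ^ m * mapJ 2 F σ.toAlgHom (c τ ^ m)
  rw [h.2, mul_pow, map_pow]

theorem lt_pow {c : Cochain 2 F} (h : IsLocallyTrivial 2 F R c) (m : ℕ) :
    IsLocallyTrivial 2 F R (fun σ => c σ ^ m) := by
  intro v
  obtain ⟨ι, P, h1⟩ := h v
  refine ⟨ι, P ^ m, fun τ σ hτσ => ?_⟩
  show mapJ 2 F ι (c σ ^ m) = _
  rw [map_pow, h1 τ σ hτσ, div_pow, map_pow]

theorem cob_div {c c' : Cochain 2 F} (h : IsCoboundary 2 F c) (h' : IsCoboundary 2 F c') :
    IsCoboundary 2 F (fun σ => c σ / c' σ) := by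
  obtain ⟨Q, hQ⟩ := h
  obtain ⟨Q', hQ'⟩ := h'
  refine ⟨Q / Q', fun σ => ?_⟩
  show c σ / c' σ = _
  rw [hQ, hQ', _root_.map_div, div_div_div_comm]

theorem coc_one : IsCocycle 2 F (fun _ => 1) := by
  refine ⟨IsLocallyConstant.const _, fun σ τ => ?_⟩
  show (1 : J 2 F (SeparableClosure K)) = 1 * _
  rw [map_one, mul_one]

theorem lt_one : IsLocallyTrivial 2 F R (fun _ => 1) := by
  intro v
  refine ⟨IsSepClosed.lift, 1, fun τ σ _ => ?_⟩
  rw [map_one, map_one, div_one]

theorem cob_one : IsCoboundary 2 F (fun _ => 1) := ⟨1, fun σ => by rw [map_one, div_one]⟩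

/-- the case in which the bound is one -/
theorem bounded_one : BoundedBy F R 1 ↔
    ShaPrimaryTrivial 2 F R ∧ ∀ x : J 2 F K, ∃ t y : J 2 F K, t ^ 2 = 1 ∧ x = t * y ^ 2 := by
  constructor
  · intro h
    constructor
    · -- classes of order two
      have key : ∀ c : Cochain 2 F, IsCocycle 2 F c → IsLocallyTrivial 2 F R c →
          IsCoboundary 2 F (fun σ => c σ ^ 2) → IsCoboundary 2 F c := by
        intro c h1 h2 h3
        by_contra hno
        have h4 := h 1 2 (fun _ => 1) (fun j => if j = 0 then c else fun _ => 1) ?_ ?_ ?_ ?_ ?_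
        · omega
        · intro i j hij
          exact absurd (Subsingleton.elim i j) hij
        · intro j
          by_cases hj : j = 0
          · simp only [if_pos hj]
            exact h1
          · simp only [if_neg hj]
            exact coc_one
        · intro j
          by_cases hj : j = 0
          · simp only [if_pos hj]
            exact h2
          · simp only [if_neg hj]
            exact lt_one
        · intro j
          by_cases hj : j = 0
          · simp only [if_pos hj]
            exact h3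
          · simp only [if_neg hj]
            exact ⟨1, fun σ => by rw [map_one, div_one, one_pow]⟩
        · intro i j hij
          fin_cases i <;> fin_cases j
          · exact absurd rfl hij
          · rintro ⟨Q, hQ⟩
            refine hno ⟨Q, fun σ => ?_⟩
            have h5 : c σ / 1 = mapJ 2 F σ.toAlgHom Q / Q := hQ σ
            rw [div_one] at h5
            exact h5
          · rintro ⟨Q, hQ⟩
            refine hno ⟨Q⁻¹, fun σ => ?_⟩
            have h5 : 1 / c σ = mapJ 2 F σ.toAlgHom Q / Q := hQ σ
            rw [map_inv, inv_div_inv, ← inv_div, ← h5, one_div, inv_inv]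
          · exact absurd rfl hij
      intro f m
      induction m with
      | zero =>
        intro h1 h2 h3
        obtain ⟨Q, hQ⟩ := h3
        refine ⟨Q, fun σ => ?_⟩
        have h4 := hQ σ
        simp only [pow_zero, pow_one] at h4
        exact h4
      | succ m ih =>
        intro h1 h2 h3
        refine ih h1 h2 (key _ (coc_pow h1 _) (lt_pow h2 _) ?_)
        obtain ⟨Q, hQ⟩ := h3
        refine ⟨Q, fun σ => ?_⟩
        have h4 := hQ σ
        simp only at h4 ⊢
        rw [← pow_mul, ← pow_succ]
        exact h4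
    · intro x
      by_contra hno
      have h4 := h 2 1 (fun i => if i = 0 then x else 1) (fun _ _ => 1) ?_ (fun _ => coc_one) (fun _ => lt_one)
        (fun _ => ⟨1, fun σ => by rw [map_one, div_one, one_pow]⟩) ?_
      · omega
      · intro i j hij
        rintro ⟨T, y, hT, hy⟩
        fin_cases i <;> fin_cases j
        · exact hij rfl
        · have h5 : x = 1 * T * y ^ 2 := hy
          rw [one_mul] at h5
          exact hno ⟨T, y, hT, h5⟩
        · have h5 : (1 : J 2 F K) = x * T * y ^ 2 := hy
          refine hno ⟨T⁻¹, y⁻¹, by rw [inv_pow, hT, inv_one], ?_⟩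
          rw [inv_pow, ← mul_inv, eq_inv_iff_mul_eq_one, ← mul_assoc]
          exact h5.symm
        · exact hij rfl
      · intro i j hij
        exact absurd (Subsingleton.elim i j) hij
  · rintro ⟨h1, h2⟩ A B x c hx hc1 hc2 hc3 hc4
    have hA : A ≤ 1 := by
      by_contra hA
      obtain ⟨t, y, ht, hy⟩ := h2 (x ⟨0, by omega⟩ / x ⟨1, by omega⟩)
      refine hx ⟨0, by omega⟩ ⟨1, by omega⟩ (by simp) ⟨t, y, ht, ?_⟩
      rw [mul_assoc, ← hy, mul_div_cancel]
    have hB : B ≤ 1 := by
      by_contra hB
      have h3 : ∀ j, IsCoboundary 2 F (c j) := fun j => h1 (c j) 1 (hc1 j) (hc2 j) (by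
        rw [pow_one]
        exact hc3 j)
      exact hc4 ⟨0, by omega⟩ ⟨1, by omega⟩ (by simp) (cob_div (h3 _) (h3 _))
    calc A * B ≤ 1 * 1 := Nat.mul_le_mul hA hB
      _ = 1 := one_mul 1

end

end Pool.Agent.Q269.SX
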