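import Pool.Agent.Q269.SX.StX
import Pool.Agent.Q269.SX.Ex
import Pool.Agent.Q269.SX.Lv
import Pool.Agent.Q269.GJ.Fin
import Pool.Agent.Q269.SL.Prb

/-!
# Project SX: limits
-/

set_option autoImplicit false
set_option linter.all false

open scoped Classical
open Finset Polynomial Filter

namespace Pool.Agent.Q269.SX

open Pool.Agent.Q269.GR (F2 Dn pr Fr xi mem_Dn')
open Pool.Agent.Y164.HG (Geo Del Tau QQ kc AT BT)
open Pool.Agent.Y164.PS (L Fam)
open Pool.Agent.Q269.GJ (Ip KD AdmD IsR GoodA)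
open Pool.Agent.Q269.SL (lawc law2 BoundedBy)

/-- pointwise convergence to a law implies the convergence for all sets, along any filter -/
theorem scheffe {β α ι : Type} (l : Filter β) (S : β → Finset α) (f : α → ι) (p : ι → ℝ) (hs : HasSum p 1)
    (hne : ∀ᶠ X in l, (S X).Nonempty)
    (h : ∀ i, Tendsto (fun X => (((S X).filter fun a => f a = i).card : ℝ) / ((S X).card : ℝ))
      l (nhds (p i))) (T : Set ι) :
    Tendsto (fun X => (((S X).filter fun a => f a ∈ T).card : ℝ) / ((S X).card : ℝ))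
      l (nhds (∑' i : T, p i)) := by
  have key : ∀ T : Set ι, ∀ ε : ℝ, 0 < ε → ∀ᶠ X in l,
      ∑' i : T, p i - ε < (((S X).filter fun a => f a ∈ T).card : ℝ) / ((S X).card : ℝ) := by
    intro T ε hε
    have h1 : HasSum (fun i : T => p i) (∑' i : T, p i) := (hs.summable.subtype T).hasSum
    have h2 := (tendsto_order.1 h1).1 (∑' i : T, p i - ε / 2) (by linarith)
    obtain ⟨F, hF⟩ := (eventually_atTop.1 h2)
    have hF := hF F le_rfl
    have h3 : Tendsto (fun X => ∑ i ∈ F, (((S X).filter fun a => f a = (i : ι)).card : ℝ) /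
        ((S X).card : ℝ)) l (nhds (∑ i ∈ F, p i)) :=
      tendsto_finsetSum _ fun i _ => h i
    have h4 := (tendsto_order.1 h3).1 (∑ i ∈ F, p i - ε / 2) (by linarith)
    filter_upwards [h4] with X hX
    refine lt_of_lt_of_le (by linarith) (hX.le.trans ?_)
    rw [← sum_div]
    refine div_le_div_of_nonneg_right ?_ (Nat.cast_nonneg _)
    rw [← Nat.cast_sum, Nat.cast_le]
    rw [← card_biUnion]
    · refine card_le_card ?_
      intro a ha
      obtain ⟨i, hi, ha⟩ := mem_biUnion.1 ha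
      rw [mem_filter] at ha ⊢
      refine ⟨ha.1, ?_⟩
      rw [ha.2]
      exact i.2
    · intro i _ l _ hil
      refine disjoint_filter.2 fun a _ h1 h2 => hil (Subtype.ext (h1.symm.trans h2))
  have hc : ∑' i : T, p i + ∑' i : (Tᶜ : Set ι), p i = 1 := by
    rw [(hs.summable.subtype T).tsum_add_tsum_compl (hs.summable.subtype _), hs.tsum_eq]
  rw [tendsto_order]
  constructor
  · intro a ha
    filter_upwards [key T (∑' i : T, p i - a) (by linarith)] with X hX
    linarith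
  · intro a ha
    filter_upwards [key Tᶜ (a - ∑' i : T, p i) (by linarith), hne] with X hX hn
    have hpos : (0 : ℝ) < (S X).card := by exact_mod_cast hn.card_pos
    have h1 : (((S X).filter fun a => f a ∈ T).card : ℝ) / ((S X).card : ℝ) +
        (((S X).filter fun a => ¬ f a ∈ T).card : ℝ) / ((S X).card : ℝ) = 1 := by
      rw [← add_div, div_eq_one_iff_eq hpos.ne']
      exact_mod_cast card_filter_add_card_filter_not (s := S X) (fun a => f a ∈ T)
    have h2 := lt_of_lt_of_eq hX (congrArg (fun n : ℕ => (n : ℝ) / ((S X).card : ℝ))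
      (Pool.Agent.Q269.SX.Lv.fcc (q := fun a => ¬ f a ∈ T) (i2 := inferInstance) fun a _ => Iff.rfl))
    linarith

section hyps

variable {k : Type} [Field k] [Fintype k]

/-- five elements -/
theorem five {n : ℕ} {a : Fin n → k[X]} {N : ℕ} (H : Geo a N) : 5 ≤ Fintype.card k := by
  have h2 : (2 : k) ≠ 0 := Ring.two_ne_zero H.hk
  have h4 := Pool.Agent.Y164.HG.four_le (k := k) h2 H.hm
  have h5 := FiniteField.odd_card_of_char_ne_two H.hk
  omega

theorem card_pos' {n : ℕ} {a : Fin n → k[X]} {N : ℕ} (H : Geo a N) : (0 : ℝ) < Fintype.card k := by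
  have := five H
  have h3 : 0 < Fintype.card k := by omega
  exact_mod_cast h3

/-- the exponent of the order of the kernel -/
noncomputable def ex {n : ℕ} {a : Fin n → k[X]} {N : ℕ} (H : Geo a N) (D : k[X]) : ℕ := Nat.log 2 (kD H D)

theorem kD_pow {n : ℕ} {a : Fin n → k[X]} {N : ℕ} (H : Geo a N) (hKDR : S_KDR) {m : ℕ} (hm : Odd (m + N))
    {D : k[X]} (hD : D ∈ Dn (Del a) m) : kD H D = 2 ^ ex H D ∧
      ((ex H D : ℕ) : F2) = (Fintype.card (Tau a) : F2) + ∑ s, sgD H D s := by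
  haveI : Fact (Odd n) := ⟨H.hn⟩
  obtain ⟨hF, hprod, hsum⟩ := (hKDR k n a N H).2 m D hD
  have hpar : ∑ i : Ip D, ((i.1.natDegree : ℕ) : F2) + (H.dat (sgD H D)).N = 1 := by
    show ∑ i : Ip D, ((i.1.natDegree : ℕ) : F2) + (N : F2) = 1
    rw [← Nat.cast_sum, hsum, ← Nat.cast_add]
    exact (ZMod.natCast_eq_one_iff_odd).2 hm
  obtain ⟨r, hr, hr2⟩ := Pool.Agent.Q269.SL.kc_parity (H.dat (sgD H D)) (BT (QQ a) fun P : Ip D => P.1)
    (fun P : Ip D => (P.1.natDegree : F2)) (A := AT fun P : Ip D => P.1)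
    (Pool.Agent.Y164.HG.AT_comm H.hm (fun P : Ip D => P.1)) hpar
  have h1 : kD H D = 2 ^ r := hr
  have h2 : ex H D = r := by
    rw [ex, h1, Nat.log_pow (by norm_num)]
  rw [h2]
  exact ⟨h1, hr2⟩

theorem kD_iff {n : ℕ} {a : Fin n → k[X]} {N : ℕ} (H : Geo a N) (hKDR : S_KDR) {m : ℕ} (hm : Odd (m + N))
    {D : k[X]} (hD : D ∈ Dn (Del a) m) (e : ℕ) : kD H D = 2 ^ e ↔ ex H D = e := by
  rw [(kD_pow H hKDR hm hD).1]
  exact Nat.pow_right_inj (le_refl 2)

end hyps

/-! ### several families -/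

/-- the degrees -/
def degR {R : Type} (N : R → ℕ) : Filter ℕ := atTop ⊓ 𝓟 {m | ∀ r, Odd (m + N r)}

section several

variable {k : Type} [Field k] [Fintype k] {R : Type} [Fintype R] {n : R → ℕ} {a : ∀ r, Fin (n r) → k[X]}
  {N : R → ℕ} (H : ∀ r, Geo (a r) (N r))

theorem mem_twm {m : ℕ} {D : k[X]} : D ∈ Pool.Agent.Q269.MF.twm a m ↔ D ∈ Dn (∏ r, Del (a r)) m := by
  rw [mem_Dn']
  show (_ ∧ _ ∧ _ ∧ _) ↔ _
  have h : IsCoprime D (∏ r, Del (a r)) ↔ ∀ r i j, i ≠ j → IsCoprime D (a r i - a r j) := by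
    rw [IsCoprime.prod_right_iff]
    constructor
    · intro h r i j hij
      have h1 := h r (mem_univ r)
      rw [Del, IsCoprime.prod_right_iff] at h1
      rcases lt_or_gt_of_ne hij with h2 | h2
      · exact h1 (i, j) (mem_filter.2 ⟨mem_univ _, h2⟩)
      · have h3 := h1 (j, i) (mem_filter.2 ⟨mem_univ _, h2⟩)
        have h4 : a r i - a r j = -(a r j - a r i) := by ring
        rw [h4]
        exact h3.neg_right
    · intro h r _
      rw [Del, IsCoprime.prod_right_iff]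
      intro x hx
      exact h r x.1 x.2 (ne_of_lt (mem_filter.1 hx).2)
  rw [h]
  tauto

theorem card_twm (m : ℕ) : (Pool.Agent.Q269.MF.twm a m).ncard = (Dn (∏ r, Del (a r)) m).card := by
  rw [← Set.ncard_coe_finset]
  congr 1
  ext D
  rw [Finset.mem_coe]
  exact mem_twm

include H in
/-- the number of the twists -/
theorem lowD (hcop : ∀ r r', r ≠ r' → IsCoprime (Del (a r)) (Del (a r'))) (hk : ringChar k ≠ 2)
    (hm : IsSquare (-1 : k)) :
    ∃ c : ℝ, 0 < c ∧ ∀ᶠ m : ℕ in atTop,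
      c * (Fintype.card k : ℝ) ^ m ≤ ((Dn (∏ r, Del (a r)) m).card : ℝ) := by
  obtain ⟨c, hc, h⟩ := (Pool.Agent.Q269.SL.final_all (Ring.two_ne_zero hk) hm (FractionRing k[X])
    (fun r => (H r).hn) (fun r => (H r).hn3) N (fun r => (H r).hN) a (fun r => (H r).hdeg)
    (fun r => (H r).hsq) hcop).1
  refine ⟨c, hc, ?_⟩
  filter_upwards [h] with m hm
  rw [card_twm, Nat.card_eq_fintype_card] at hm
  exact hm

theorem ratioR {l : Filter ℕ} (hl : l ≤ atTop) {q : ℝ} (hq : 0 < q) {A B : ℕ → ℝ} {π c : ℝ} (hc : 0 < c)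
    (hlow : ∀ᶠ m : ℕ in atTop, c * q ^ m ≤ B m)
    (h1 : ∀ ε : ℝ, 0 < ε → ∀ᶠ m : ℕ in l, |A m - π * B m| ≤ ε * q ^ m) :
    Tendsto (fun m => A m / B m) l (nhds π) := by
  rw [Metric.tendsto_nhds]
  intro δ hδ
  have h3 := h1 (c * δ / 2) (by positivity)
  filter_upwards [h3, hlow.filter_mono hl] with n g1 g2
  have hpos : (0 : ℝ) < B n := lt_of_lt_of_le (by positivity) g2
  rw [Real.dist_eq]
  have e : A n / B n - π = (A n - π * B n) / B n := by
    field_simp
  rw [e, abs_div, abs_of_pos hpos, div_lt_iff₀ hpos]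
  calc |A n - π * B n| ≤ (c * δ / 2) * q ^ n := g1
    _ = δ / 2 * (c * q ^ n) := by ring
    _ ≤ δ / 2 * B n := mul_le_mul_of_nonneg_left g2 (by positivity)
    _ < δ * B n := by
      have : 0 < δ * B n := by positivity
      linarith

theorem ratioR2 {l : Filter ℕ} (hl : l ≤ atTop) {q : ℝ} (hq : 0 < q) {A B C : ℕ → ℝ} {π β c : ℝ} (hc : 0 < c)
    (hlow : ∀ᶠ m : ℕ in atTop, c * q ^ m ≤ B m)
    (h1 : ∀ ε : ℝ, 0 < ε → ∀ᶠ m : ℕ in l, |A m - π * C m| ≤ ε * q ^ m)
    (h2 : Tendsto (fun m => C m / B m) l (nhds β)) :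
    Tendsto (fun m => A m / B m) l (nhds (β * π)) := by
  have hd : Tendsto (fun m => (A m - π * C m) / B m) l (nhds 0) := by
    refine ratioR hl hq (A := fun m => A m - π * C m) (π := 0) hc hlow ?_
    intro ε hε
    filter_upwards [h1 ε hε] with m hm
    rw [zero_mul, sub_zero]
    exact hm
  have h4 := hd.add (h2.const_mul π)
  rw [zero_add, mul_comm π β] at h4
  refine h4.congr fun m => ?_
  ring

/-- a sum over the functions on a nonempty set with values in the field with two elements -/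
theorem sum_F2 {τ : Type} [Fintype τ] [Nonempty τ] (F : F2 → ℝ) :
    ∑ σ : τ → F2, F (∑ s, σ s) = 2 ^ Fintype.card τ / 2 * (F 0 + F 1) := by
  obtain ⟨s₀⟩ := (inferInstance : Nonempty τ)
  have hx : ∀ x : F2, F x + F (x + 1) = F 0 + F 1 := by
    intro x
    rcases (by decide : ∀ y : F2, y = 0 ∨ y = 1) x with h | h
    · rw [h, zero_add]
    · rw [h, show (1 : F2) + 1 = 0 by decide, add_comm]
  have e1 : ∑ σ : τ → F2, F (∑ s, σ s) = ∑ σ : τ → F2, F (∑ s, σ s + 1) := by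
    obtain ⟨δ, hδ⟩ : ∃ δ : τ → F2, δ = fun s => if s = s₀ then 1 else 0 := ⟨_, rfl⟩
    have hδ1 : ∑ s, δ s = 1 := by
      rw [hδ, sum_ite_eq' univ s₀ (fun _ => (1 : F2)), if_pos (mem_univ s₀)]
    refine Fintype.sum_equiv (Equiv.addRight δ) _ _ fun σ => ?_
    congr 1
    have h2 : ∑ s, (Equiv.addRight δ) σ s = ∑ s, σ s + 1 := by
      rw [← hδ1, ← sum_add_distrib]
      rfl
    rw [h2, add_assoc, show (1 : F2) + 1 = 0 by decide, add_zero]
  have e2 : 2 * ∑ σ : τ → F2, F (∑ s, σ s) = 2 ^ Fintype.card τ * (F 0 + F 1) := by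
    rw [two_mul]
    nth_rewrite 2 [e1]
    rw [← sum_add_distrib, sum_congr rfl fun σ _ => hx _, sum_const, card_univ, nsmul_eq_mul]
    congr 1
    rw [Fintype.card_fun, ZMod.card]
    push_cast
    rfl
  linarith

theorem law_avg (c : F2) (e : ℕ) {τ : Type} [Fintype τ] [Nonempty τ] :
    ∑ σ : τ → F2, lawc (c + ∑ s, σ s) e = 2 ^ Fintype.card τ * law2 e := by
  rw [sum_F2 (F := fun x => lawc (c + x) e)]
  have h : lawc (c + 0) e + lawc (c + 1) e = 2 * law2 e := by
    rw [Pool.Agent.Q269.SL.lawc_eq, Pool.Agent.Q269.SL.lawc_eq, add_zero]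
    have h1 : ∀ x y : F2, (x = y ∧ ¬ x = y + 1) ∨ (¬ x = y ∧ x = y + 1) := by decide
    rcases h1 (e : F2) c with ⟨h2, h3⟩ | ⟨h2, h3⟩
    · rw [if_pos h2, if_neg h3, add_zero]
    · rw [if_neg h2, if_pos h3, zero_add]
  rw [h]
  ring

end several

end Pool.Agent.Q269.SX
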