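import Pool.Agent.Q269.SX.StR
import Pool.Agent.Q269.SL.Fn2

/-!
# Project SX: the exact law of the order of the kernel

`Dn Δ m` = the monic squarefree polynomials of degree `m` prime to `Δ`; `sgD H D`, `kD H D`: `Pool/Agent/Q269/SX/StR.lean`. In project SL
(`Pool/Agent/Q269/SL/Fn2.lean`, `Cls.lean`, `Cl1.lean`) it is proved that, in a class `σ`, the proportion of the `D` for which some vector of a finite set `𝒜` is a vector of
upper bounds is at least the measure of `𝒜`. The same proof gives it for the vector of the exact exponents.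
-/

set_option autoImplicit false
set_option linter.all false

open scoped Classical
open Finset Polynomial Filter

namespace Pool.Agent.Q269.SX

open Pool.Agent.Q269.GR (F2 Dn pr)
open Pool.Agent.Y164.HG (Geo Del Tau QQ)
open Pool.Agent.Q269.SL (lawc BoundedBy)
open Pool.Agent.Y713.Jac (J Cochain IsCocycle IsLocallyTrivial IsCoboundary mapJ)

/-- **JOB SX-LWL.** The law in a class, lower bound. (`t_LWL (h : S_KDR) : S_LWL`.)
Proof. Copy `cls_lower` (`Pool/Agent/Q269/SL/Cls.lean`) with the property `GoodX K a 𝒜` replaced by `GoodE 𝒜 D := ∃ e ∈ 𝒜, ∀ r, kD (H r) D = 2 ^ e r`: the only place where `GoodX` is used is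
`imp_x` (`Fn2.lean`), `ImpA … (PUx …) (GoodX K a 𝒜)`; there `kc ((H r).dat fun s => σ ⟨r, s⟩) … = 2 ^ e r` is derived first, and by KDR (with the class condition) this `kc` is `kD (H r) (∏ i, T i)`.
In this way one has, for all large `m` with all `m + N r` odd: `(∑ e ∈ 𝒜, ∏ r, lawc (c r) (e r) - ε) * #X ≤ 2 ^ |τ| * #{D ∈ X : gcla σ D, GoodE 𝒜 D}`, `X = (Sf k m).filter (nb (Q2 a))`, which is
`Dn (∏ r, Del (a r)) m`, `|τ| = ∑ r, |Tau (a r)|`; `gcla σ D` (`gM`, see `gcla_one` in `Cl1.lean`) is the condition `sgD (H r) D s = σ r s` for all `r, s` (`L 2 D Q = ∑_(P ∣ D) L P Q`, characteristic two; KDR (2), (1)).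
`cls_size` in `Cl1.lean` (one family; the proof is the same for several families: the sum of the lower bounds with `𝒜` large over all classes is at most `#X`) says that the class has `2^(-|τ|) #X` elements up to
`ε`, and `#X ≤ q^m`. The statement is for all `σ` (finitely many) at once. -/
def S_LWL : Prop := ∀ (k : Type) [Field k] [Fintype k] (R : Type) [Fintype R] (n : R → ℕ)
  (a : ∀ r, Fin (n r) → k[X]) (N : R → ℕ) (H : ∀ r, Geo (a r) (N r)),
  (∀ r r', r ≠ r' → IsCoprime (Del (a r)) (Del (a r'))) →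
  ∀ (𝒜 : Finset (R → ℕ)) (ε : ℝ), 0 < ε → ∀ᶠ m : ℕ in atTop, (∀ r, Odd (m + N r)) → ∀ σ : ∀ r, Tau (a r) → F2,
  (∑ e ∈ 𝒜, ∏ r, lawc ((Fintype.card (Tau (a r)) : ZMod 2) + ∑ s, σ r s) (e r)) *
      (((Dn (∏ r, Del (a r)) m).filter fun D => ∀ r s, sgD (H r) D s = σ r s).card : ℝ) -
      ε * (Fintype.card k : ℝ) ^ m ≤
    (((Dn (∏ r, Del (a r)) m).filter fun D => (∀ r s, sgD (H r) D s = σ r s) ∧
      ∃ e ∈ 𝒜, ∀ r, kD (H r) D = 2 ^ e r).card : ℝ)

/-- **JOB SX-LWM.** The law in a class. (`t_LWM (h : S_LWL) : S_LWM`.)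
Proof. Lower bound: LWL with `𝒜 = {e}`. Upper bound: `∑ over all e : R → ℕ of ∏ r, lawc (c r) (e r)` is `1` (`hasSum_lawc`; product of families, see `hasSum_law` / `probc_fin` and their uses), so for a large
finite `𝒜` not containing `e` the sum over `𝒜` is at least `1 - ∏ r, lawc (c r) (e r) - ε/2` (for all of the finitely many `c`), and LWL for `𝒜` bounds the number of the `D` with another vector from below; the vectors
`e` are determined by `D`. -/
def S_LWM : Prop := ∀ (k : Type) [Field k] [Fintype k] (R : Type) [Fintype R] (n : R → ℕ)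
  (a : ∀ r, Fin (n r) → k[X]) (N : R → ℕ) (H : ∀ r, Geo (a r) (N r)),
  (∀ r r', r ≠ r' → IsCoprime (Del (a r)) (Del (a r'))) →
  ∀ (e : R → ℕ) (ε : ℝ), 0 < ε → ∀ᶠ m : ℕ in atTop, (∀ r, Odd (m + N r)) → ∀ σ : ∀ r, Tau (a r) → F2,
  |(((Dn (∏ r, Del (a r)) m).filter fun D => (∀ r s, sgD (H r) D s = σ r s) ∧ ∀ r, kD (H r) D = 2 ^ e r).card : ℝ) -
    (∏ r, lawc ((Fintype.card (Tau (a r)) : ZMod 2) + ∑ s, σ r s) (e r)) *
      (((Dn (∏ r, Del (a r)) m).filter fun D => ∀ r s, sgD (H r) D s = σ r s).card : ℝ)| ≤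
  ε * (Fintype.card k : ℝ) ^ m

/-- **JOB SX-CLS.** The classes are equidistributed. (`t_CLS : S_CLS`.)
Proof. `cls_size` in `Pool/Agent/Q269/SL/Cl1.lean` is the case of one family. For several families: the same proof (`cls_size` uses the lower bounds `cls_lower` for all classes and that the classes are
disjoint with union everything), or from LWL's proof. Here only: the number of the elements of each class is `2^(-|τ|)` times the number of all `D`, up to `ε q^m`. -/
def S_CLS : Prop := ∀ (k : Type) [Field k] [Fintype k] (R : Type) [Fintype R] (n : R → ℕ)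
  (a : ∀ r, Fin (n r) → k[X]) (N : R → ℕ) (H : ∀ r, Geo (a r) (N r)),
  (∀ r r', r ≠ r' → IsCoprime (Del (a r)) (Del (a r'))) →
  ∀ (ε : ℝ), 0 < ε → ∀ᶠ m : ℕ in atTop, (∀ r, Odd (m + N r)) → ∀ σ : ∀ r, Tau (a r) → F2,
  |(((Dn (∏ r, Del (a r)) m).filter fun D => ∀ r s, sgD (H r) D s = σ r s).card : ℝ) -
    ((2 : ℝ) ^ (∑ r, Fintype.card (Tau (a r))))⁻¹ * ((Dn (∏ r, Del (a r)) m).card : ℝ)| ≤
  ε * (Fintype.card k : ℝ) ^ m

/-! ### the orders of the groups -/

section card
variable {K : Type} [Field K]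

/-- the subgroup of the `t y²` with `t² = 1` (multiplicative notation) -/
def tsub (F : K[X]) : Subgroup (J 2 F K) where
  carrier := {x | ∃ t y : J 2 F K, t ^ 2 = 1 ∧ x = t * y ^ 2}
  mul_mem' := by
    rintro x x' ⟨t, y, h, rfl⟩ ⟨t', y', h', rfl⟩
    exact ⟨t * t', y * y', by rw [mul_pow, h, h', one_mul], by rw [mul_pow]; exact mul_mul_mul_comm _ _ _ _⟩
  one_mem' := ⟨1, 1, one_pow 2, by rw [one_pow, one_mul]⟩
  inv_mem' := by
    rintro x ⟨t, y, h, rfl⟩
    exact ⟨t⁻¹, y⁻¹, by rw [inv_pow, h, inv_one], by rw [mul_inv, inv_pow]⟩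

/-- the cocycles which are trivial over all completions and whose square is a coboundary -/
def Sh2 (F : K[X]) (R : Type) [CommRing R] [IsDedekindDomain R] [Algebra R K] [IsFractionRing R K] : Type :=
  {c : Cochain 2 F // IsCocycle 2 F c ∧ IsLocallyTrivial 2 F R c ∧ IsCoboundary 2 F (fun σ => c σ ^ 2)}

/-- the number of the classes of these cocycles: the order of the group of the elements of `Ш` of order dividing two -/
noncomputable def nSh (F : K[X]) (R : Type) [CommRing R] [IsDedekindDomain R] [Algebra R K] [IsFractionRing R K] : ℕ :=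
  Nat.card (Quot fun c c' : Sh2 F R => IsCoboundary 2 F (fun σ => c.1 σ / c'.1 σ))

end card

/-- **JOB SX-CRD.** The least bound is the product of the orders.
Proof. `IsCoboundary` is closed under products and inverses (`mapJ` is a homomorphism), so the relation on `Sh2` is an equivalence relation (`Quot.eq`/`Quot.eqvGen_exact`) and `Quot` is the set of its
classes. If the index of `tsub` or the number of the classes were infinite, families with `A > M`, `B = 1` (the trivial cocycle) or `A = 1`, `B > M` would contradict `BoundedBy F R M`; so both are finite. With `A` =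
the index, `B` = the number of the classes and families of representatives: `BoundedBy F R M` implies `A * B ≤ M`. Conversely any families as in `BoundedBy` have at most
the index, resp. the number of the classes, many members (the hypotheses say that they are in different classes: `x i = x j * T * y²`, `T² = 1`), so `BoundedBy F R (A * B)` holds. Hence with the
hypothesis `M₀ ≤ A * B ≤ M₀`. -/
def S_CRD : Prop := ∀ (K : Type) [Field K] (F : K[X]) (R : Type) [CommRing R] [IsDedekindDomain R] [Algebra R K]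
  [IsFractionRing R K] (M₀ : ℕ), (∀ M : ℕ, BoundedBy F R M ↔ M₀ ≤ M) → 0 < M₀ →
  (tsub F).index * nSh F R = M₀ ∧ (tsub F).index ≠ 0 ∧ nSh F R ≠ 0

end Pool.Agent.Q269.SX
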